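import Pool.Agent.Lib.NPCG.Prof

/-! # NPCG.Tens: nonpositive curvature does not depend on the coordinates

MODULE (about 3 h, may be split by the taker). Coordinate-free calculus on `ℝ³`: for `g : Met` (smooth, symmetric, invertible on `W`) put
`gb w X Y = ∑ g w i j X i Y j`, `Γ w X Y = (∑ chr g l i j w X i Y j)_l`. Koszul:
`gb (Γ X Y) Z = ½ (∂_X gb(Y,Z) + ∂_Y gb(X,Z) - ∂_Z gb(X,Y))` (constant `X Y Z`), and
`R X Y Z = (∂_X Γ)(Y,Z) - (∂_Y Γ)(X,Z) + Γ(X,Γ(Y,Z)) - Γ(Y,Γ(X,Z))`; `SecNonpos g w ↔ ∀ X Y, gb (R X Y Y) X ≤ 0`.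
For `g' = σ^*g` (statement below), `S = fderiv σ`, `H = ` second derivative (symmetric):
(1) `gb' w X Y = gb (σ w) (S X) (S Y)`, hence by Koszul and injectivity of `S`: `S (Γ' X Y) = Γ(σ w)(S X, S Y) + H X Y`.
(2) derivative of (1) along `Z`: `H(Z, Γ'(X,Y)) + S((∂_Z Γ')(X,Y)) = (∂_{SZ} Γ)(S X, S Y) + Γ(H(Z,X), S Y) + Γ(S X, H(Z,Y)) + ∂³σ(Z,X,Y)`.
(3) antisymmetrise: `S (R' X Y Z) = R(σ w)(S X, S Y) (S Z)`; so `gb' (R' X Y Y) X = gb (R (S X)(S Y)(S Y)) (S X) ≤ 0`.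
-/

open Set
open scoped Manifold ContDiff

namespace NPCG

namespace TensAux

variable {E : Type*} [NormedAddCommGroup E] [NormedSpace ℝ E]

theorem exists_deriv_bil {F : Type*} [NormedAddCommGroup F] [NormedSpace ℝ F]
    {b : E → E →L[ℝ] E →L[ℝ] F} {b' : E →L[ℝ] E →L[ℝ] E →L[ℝ] F} {u v : E → E}
    {u' v' : E →L[ℝ] E} {x : E}
    (hb : HasFDerivAt b b' x) (hu : HasFDerivAt u u' x) (hv : HasFDerivAt v v' x) :
    ∃ L : E →L[ℝ] F, HasFDerivAt (fun z => b z (u z) (v z)) L x ∧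
      ∀ A, L A = b' A (u x) (v x) + b x (u' A) (v x) + b x (u x) (v' A) := by
  have h1 := hb.clm_apply hu
  have h2 := h1.clm_apply hv
  refine ⟨_, h2, fun A => ?_⟩
  simp
  abel

/-- A symmetric nondegenerate field of bilinear forms and its Levi-Civita connection. -/
structure Kos (b : E → E →L[ℝ] E →L[ℝ] ℝ) (Γ : E → E →L[ℝ] E →L[ℝ] E) (W : Set E) : Prop where
  diffb : ∀ z ∈ W, DifferentiableAt ℝ b z
  diffG : ∀ z ∈ W, DifferentiableAt ℝ Γ z
  symm : ∀ z ∈ W, ∀ X Y, b z X Y = b z Y X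
  kos : ∀ z ∈ W, ∀ X Y Z, 2 * b z (Γ z X Y) Z =
    fderiv ℝ b z X Y Z + fderiv ℝ b z Y X Z - fderiv ℝ b z Z X Y
  nondeg : ∀ z ∈ W, ∀ X, (∀ Y, b z X Y = 0) → X = 0

/-- The curvature. -/
noncomputable def Rm (Γ : E → E →L[ℝ] E →L[ℝ] E) (z X Y Z : E) : E :=
  fderiv ℝ Γ z X Y Z - fderiv ℝ Γ z Y X Z + Γ z X (Γ z Y Z) - Γ z Y (Γ z X Z)

theorem fderiv_apply₁ {F : Type*} [NormedAddCommGroup F] [NormedSpace ℝ F]
    {b : E → E →L[ℝ] F} {z : E} (hb : DifferentiableAt ℝ b z) (X : E) :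
    ∃ L : E →L[ℝ] F, HasFDerivAt (fun w => b w X) L z ∧ ∀ A, L A = fderiv ℝ b z A X := by
  have h1 := hb.hasFDerivAt.clm_apply (hasFDerivAt_const X z)
  refine ⟨_, h1, fun A => ?_⟩
  simp

theorem fderiv_apply₂ {F : Type*} [NormedAddCommGroup F] [NormedSpace ℝ F]
    {b : E → E →L[ℝ] E →L[ℝ] F} {z : E} (hb : DifferentiableAt ℝ b z) (X Y : E) :
    ∃ L : E →L[ℝ] F, HasFDerivAt (fun w => b w X Y) L z ∧ ∀ A, L A = fderiv ℝ b z A X Y := by
  have h1 := (hb.hasFDerivAt.clm_apply (hasFDerivAt_const X z)).clm_apply (hasFDerivAt_const Y z)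
  refine ⟨_, h1, fun A => ?_⟩
  simp

theorem conn {b b' : E → E →L[ℝ] E →L[ℝ] ℝ} {Γ Γ' : E → E →L[ℝ] E →L[ℝ] E} {W W' : Set E}
    (k : Kos b Γ W) (k' : Kos b' Γ' W') (hW' : IsOpen W') {σ : E → E}
    (hσ : ContDiffOn ℝ ∞ σ W') (hm : ∀ z ∈ W', σ z ∈ W)
    (hb : ∀ z ∈ W', ∀ X Y, b' z X Y = b (σ z) (fderiv ℝ σ z X) (fderiv ℝ σ z Y))
    (hs : ∀ z ∈ W', Function.Surjective (fderiv ℝ σ z)) {z : E} (hz : z ∈ W') (X Y : E) :
    fderiv ℝ σ z (Γ' z X Y) =
      Γ (σ z) (fderiv ℝ σ z X) (fderiv ℝ σ z Y) + fderiv ℝ (fderiv ℝ σ) z X Y := by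
  have hcd : ContDiffAt ℝ ∞ σ z := hσ.contDiffAt (hW'.mem_nhds hz)
  have hd : DifferentiableAt ℝ σ z := hcd.differentiableAt (by simp)
  have hcd1 : ContDiffAt ℝ ∞ (fderiv ℝ σ) z := hcd.fderiv_right (m := ∞) (by simp)
  have hd1 : DifferentiableAt ℝ (fderiv ℝ σ) z := hcd1.differentiableAt (by simp)
  have hsym : ∀ U V, fderiv ℝ (fderiv ℝ σ) z U V = fderiv ℝ (fderiv ℝ σ) z V U := by
    intro U V
    exact (hcd.isSymmSndFDerivAt (by simpa using ENat.LEInfty.out)) U V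
  -- the derivative of b'
  have hder : ∀ A U V, fderiv ℝ b' z A U V =
      fderiv ℝ b (σ z) (fderiv ℝ σ z A) (fderiv ℝ σ z U) (fderiv ℝ σ z V) +
      b (σ z) (fderiv ℝ (fderiv ℝ σ) z A U) (fderiv ℝ σ z V) +
      b (σ z) (fderiv ℝ σ z U) (fderiv ℝ (fderiv ℝ σ) z A V) := by
    intro A U V
    obtain ⟨L1, h1, h1A⟩ := fderiv_apply₂ (k'.diffb z hz) U V
    have h2 : HasFDerivAt (fun w => b (σ w)) ((fderiv ℝ b (σ z)).comp (fderiv ℝ σ z)) z :=
      (k.diffb (σ z) (hm z hz)).hasFDerivAt.comp (G := E →L[ℝ] E →L[ℝ] ℝ) z hd.hasFDerivAt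
    obtain ⟨LU, hU, hUA⟩ := fderiv_apply₁ hd1 U
    obtain ⟨LV, hV, hVA⟩ := fderiv_apply₁ hd1 V
    obtain ⟨L, hL, hLA⟩ := exists_deriv_bil h2 hU hV
    have h3 : (fun w => b' w U V) =ᶠ[nhds z]
        fun w => b (σ w) (fderiv ℝ σ w U) (fderiv ℝ σ w V) := by
      filter_upwards [hW'.mem_nhds hz] with w hw
      exact hb w hw U V
    have h4 := (hL.congr_of_eventuallyEq h3).unique h1
    rw [← h1A, ← h4, hLA, hUA, hVA]
    rfl
  have key : ∀ Y0, b (σ z) (fderiv ℝ σ z (Γ' z X Y) -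
      (Γ (σ z) (fderiv ℝ σ z X) (fderiv ℝ σ z Y) + fderiv ℝ (fderiv ℝ σ) z X Y)) Y0 = 0 := by
    intro Y0
    obtain ⟨Z, rfl⟩ := hs z hz Y0
    have e1 := k'.kos z hz X Y Z
    rw [hb z hz, hder X Y Z, hder Y X Z, hder Z X Y] at e1
    have e2 := k.kos (σ z) (hm z hz) (fderiv ℝ σ z X) (fderiv ℝ σ z Y) (fderiv ℝ σ z Z)
    have s1 := k.symm (σ z) (hm z hz) (fderiv ℝ σ z Y) (fderiv ℝ (fderiv ℝ σ) z X Z)
    have s2 := k.symm (σ z) (hm z hz) (fderiv ℝ σ z X) (fderiv ℝ (fderiv ℝ σ) z Y Z)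
    rw [hsym Z X, hsym Z Y, hsym Y X] at e1
    simp only [map_sub, map_add, sub_apply, add_apply]
    linarith
  have := k.nondeg (σ z) (hm z hz) _ key
  exact sub_eq_zero.1 this

theorem curv {b b' : E → E →L[ℝ] E →L[ℝ] ℝ} {Γ Γ' : E → E →L[ℝ] E →L[ℝ] E} {W W' : Set E}
    (k : Kos b Γ W) (k' : Kos b' Γ' W') (hW' : IsOpen W') {σ : E → E}
    (hσ : ContDiffOn ℝ ∞ σ W') (hm : ∀ z ∈ W', σ z ∈ W)
    (hb : ∀ z ∈ W', ∀ X Y, b' z X Y = b (σ z) (fderiv ℝ σ z X) (fderiv ℝ σ z Y))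
    (hs : ∀ z ∈ W', Function.Surjective (fderiv ℝ σ z)) {z : E} (hz : z ∈ W') (X Y Z : E) :
    fderiv ℝ σ z (Rm Γ' z X Y Z) =
      Rm Γ (σ z) (fderiv ℝ σ z X) (fderiv ℝ σ z Y) (fderiv ℝ σ z Z) := by
  have hcd : ContDiffAt ℝ ∞ σ z := hσ.contDiffAt (hW'.mem_nhds hz)
  have hd : DifferentiableAt ℝ σ z := hcd.differentiableAt (by simp)
  have hcd1 : ContDiffAt ℝ ∞ (fderiv ℝ σ) z := hcd.fderiv_right (m := ∞) (by simp)
  have hd1 : DifferentiableAt ℝ (fderiv ℝ σ) z := hcd1.differentiableAt (by simp)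
  have hcd2 : ContDiffAt ℝ ∞ (fderiv ℝ (fderiv ℝ σ)) z := hcd1.fderiv_right (m := ∞) (by simp)
  have hd2 : DifferentiableAt ℝ (fderiv ℝ (fderiv ℝ σ)) z := hcd2.differentiableAt (by simp)
  have hsym : ∀ U V, fderiv ℝ (fderiv ℝ σ) z U V = fderiv ℝ (fderiv ℝ σ) z V U := by
    intro U V
    exact (hcd.isSymmSndFDerivAt (by simpa using ENat.LEInfty.out)) U V
  have hsym3 : ∀ A U V, fderiv ℝ (fderiv ℝ (fderiv ℝ σ)) z A U V =
      fderiv ℝ (fderiv ℝ (fderiv ℝ σ)) z U A V := by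
    intro A U V
    rw [(hcd1.isSymmSndFDerivAt (by simpa using ENat.LEInfty.out)) A U]
  have hcn := fun (w : E) (hw : w ∈ W') (U V : E) => conn k k' hW' hσ hm hb hs hw U V
  -- derivative of the connection formula
  have hder : ∀ A U V, fderiv ℝ (fderiv ℝ σ) z A (Γ' z U V) + fderiv ℝ σ z (fderiv ℝ Γ' z A U V) =
      fderiv ℝ Γ (σ z) (fderiv ℝ σ z A) (fderiv ℝ σ z U) (fderiv ℝ σ z V) +
      Γ (σ z) (fderiv ℝ (fderiv ℝ σ) z A U) (fderiv ℝ σ z V) +
      Γ (σ z) (fderiv ℝ σ z U) (fderiv ℝ (fderiv ℝ σ) z A V) +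
      fderiv ℝ (fderiv ℝ (fderiv ℝ σ)) z A U V := by
    intro A U V
    obtain ⟨LG, hG, hGA⟩ := fderiv_apply₂ (k'.diffG z hz) U V
    have h1 := hd1.hasFDerivAt.clm_apply hG
    have h2 : HasFDerivAt (fun w => Γ (σ w)) ((fderiv ℝ Γ (σ z)).comp (fderiv ℝ σ z)) z :=
      (k.diffG (σ z) (hm z hz)).hasFDerivAt.comp (G := E →L[ℝ] E →L[ℝ] E) z hd.hasFDerivAt
    obtain ⟨LU, hU, hUA⟩ := fderiv_apply₁ hd1 U
    obtain ⟨LV, hV, hVA⟩ := fderiv_apply₁ hd1 V
    obtain ⟨LH, hH, hHA⟩ := fderiv_apply₂ hd2 U V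
    obtain ⟨L, hL, hLA⟩ := exists_deriv_bil h2 hU hV
    have h3 := hL.add hH
    have h4 : (fun w => fderiv ℝ σ w (Γ' w U V)) =ᶠ[nhds z]
        ((fun w => Γ (σ w) (fderiv ℝ σ w U) (fderiv ℝ σ w V)) +
          fun w => fderiv ℝ (fderiv ℝ σ) w U V) := by
      filter_upwards [hW'.mem_nhds hz] with w hw
      exact hcn w hw U V
    have h5 := (HasFDerivAt.congr_of_eventuallyEq h3 h4).unique h1
    have h6 : (L + LH) A = _ := congrArg (fun M : E →L[ℝ] E => M A) h5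
    rw [add_apply, hLA, hHA, hUA, hVA] at h6
    have h7 : fderiv ℝ (fderiv ℝ σ) z A (Γ' z U V) + fderiv ℝ σ z (fderiv ℝ Γ' z A U V) =
        fderiv ℝ σ z (LG A) + fderiv ℝ (fderiv ℝ σ) z A (Γ' z U V) := by
      rw [add_comm, hGA]
    rw [h7]
    exact h6.symm
  have e1 := hder X Y Z
  have e2 := hder Y X Z
  have e3 := hcn z hz X (Γ' z Y Z)
  have e4 := hcn z hz Y (Γ' z X Z)
  rw [hcn z hz Y Z] at e3
  rw [hcn z hz X Z] at e4
  rw [hsym Y X, hsym3 Y X Z] at e2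
  unfold Rm
  simp only [map_sub, map_add]
  rw [e3, e4]
  have f1 : fderiv ℝ σ z (fderiv ℝ Γ' z X Y Z) = fderiv ℝ Γ (σ z) (fderiv ℝ σ z X)
      (fderiv ℝ σ z Y) (fderiv ℝ σ z Z) +
      Γ (σ z) (fderiv ℝ (fderiv ℝ σ) z X Y) (fderiv ℝ σ z Z) +
      Γ (σ z) (fderiv ℝ σ z Y) (fderiv ℝ (fderiv ℝ σ) z X Z) +
      fderiv ℝ (fderiv ℝ (fderiv ℝ σ)) z X Y Z - fderiv ℝ (fderiv ℝ σ) z X (Γ' z Y Z) := by
    rw [← e1]; abel
  have f2 : fderiv ℝ σ z (fderiv ℝ Γ' z Y X Z) = fderiv ℝ Γ (σ z) (fderiv ℝ σ z Y)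
      (fderiv ℝ σ z X) (fderiv ℝ σ z Z) +
      Γ (σ z) (fderiv ℝ (fderiv ℝ σ) z X Y) (fderiv ℝ σ z Z) +
      Γ (σ z) (fderiv ℝ σ z X) (fderiv ℝ (fderiv ℝ σ) z Y Z) +
      fderiv ℝ (fderiv ℝ (fderiv ℝ σ)) z X Y Z - fderiv ℝ (fderiv ℝ σ) z Y (Γ' z X Z) := by
    rw [← e2]; abel
  rw [f1, f2]
  simp only [map_add]
  abel

/-! ### Coordinates -/

section coord

variable {F : Type*} [NormedAddCommGroup F] [NormedSpace ℝ F]

/-- The coordinate functional. -/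
noncomputable def pr (i : Fin 3) : C3 →L[ℝ] ℝ :=
  ContinuousLinearMap.proj (R := ℝ) (φ := fun _ : Fin 3 => ℝ) i

theorem pr_apply (i : Fin 3) (X : C3) : pr i X = X i := rfl

/-- The bilinear map with the coefficients `a`. -/
noncomputable def bl (a : Fin 3 → Fin 3 → F) : C3 →L[ℝ] C3 →L[ℝ] F :=
  ∑ i, ∑ j, (pr i).smulRight ((pr j).smulRight (a i j))

theorem bl_apply (a : Fin 3 → Fin 3 → F) (X Y : C3) :
    bl a X Y = ∑ i, ∑ j, X i • Y j • a i j := by
  unfold bl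
  simp [pr_apply, smul_smul]

theorem differentiableAt_bl {a : C3 → Fin 3 → Fin 3 → F} {z : C3}
    (h : ∀ i j, DifferentiableAt ℝ (fun w => a w i j) z) :
    DifferentiableAt ℝ (fun w => bl (a w)) z := by
  have key : ∀ i j, DifferentiableAt ℝ
      (fun w => (pr i).smulRight ((pr j).smulRight (a w i j))) z := by
    intro i j
    have h1 : DifferentiableAt ℝ (fun w => (pr j).smulRight (a w i j)) z :=
      DifferentiableAt.comp (G := C3 →L[ℝ] F)
        (g := ContinuousLinearMap.smulRightL ℝ C3 F (pr j)) z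
        (ContinuousLinearMap.differentiableAt _) (h i j)
    exact DifferentiableAt.comp (G := C3 →L[ℝ] C3 →L[ℝ] F)
      (g := ContinuousLinearMap.smulRightL ℝ C3 (C3 →L[ℝ] F) (pr i)) z
      (ContinuousLinearMap.differentiableAt _) h1
  have h2 : ∀ i, DifferentiableAt ℝ
      (fun w => ∑ j, (pr i).smulRight ((pr j).smulRight (a w i j))) z :=
    fun i => DifferentiableAt.fun_sum (𝕜 := ℝ) (F := C3 →L[ℝ] C3 →L[ℝ] F) (fun j _ => key i j)
  exact DifferentiableAt.fun_sum (𝕜 := ℝ) (F := C3 →L[ℝ] C3 →L[ℝ] F) (fun i _ => h2 i)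

theorem fderiv_bl {a : C3 → Fin 3 → Fin 3 → F} {z : C3}
    (h : ∀ i j, DifferentiableAt ℝ (fun w => a w i j) z) (A X Y : C3) :
    fderiv ℝ (fun w => bl (a w)) z A X Y =
      ∑ i, ∑ j, X i • Y j • fderiv ℝ (fun w => a w i j) z A := by
  obtain ⟨L, h1, h2⟩ := fderiv_apply₂ (differentiableAt_bl h) X Y
  rw [← h2]
  have h3 : HasFDerivAt (fun w => ∑ i, ∑ j, X i • Y j • a w i j)
      (∑ i, ∑ j, X i • Y j • fderiv ℝ (fun w => a w i j) z) z := by
    refine HasFDerivAt.fun_sum fun i _ => HasFDerivAt.fun_sum fun j _ => ?_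
    exact ((h i j).hasFDerivAt.const_smul (Y j)).const_smul (X i)
  have h4 : (fun w => bl (a w) X Y) = fun w => ∑ i, ∑ j, X i • Y j • a w i j := by
    funext w
    exact bl_apply _ _ _
  rw [h4] at h1
  rw [h1.unique h3]
  simp

end coord

theorem fderiv_eq_pd (f : C3 → ℝ) (w X : C3) : fderiv ℝ f w X = ∑ i, X i * pd f i w := by
  have h1 : X = ∑ i, X i • (Pi.single i (1 : ℝ) : C3) := by
    funext j
    simp [Finset.sum_apply, Pi.single_apply]
  conv_lhs => rw [h1]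
  rw [map_sum]
  refine Finset.sum_congr rfl fun i _ => ?_
  rw [map_smul]
  rfl

section met

variable {g : Met} {W : Set C3}

/-- The metric as a field of bilinear forms. -/
noncomputable def bG (g : Met) : C3 → C3 →L[ℝ] C3 →L[ℝ] ℝ := fun z => bl (g z)

/-- The Levi-Civita connection. -/
noncomputable def GG (g : Met) : C3 → C3 →L[ℝ] C3 →L[ℝ] C3 :=
  fun z => bl fun i j => (fun l => chr g l i j z : C3)

theorem diff_g (hW : IsOpen W) (hg : ContDiffOn ℝ ∞ g W) {z : C3} (hz : z ∈ W) (i j : Fin 3) :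
    ContDiffAt ℝ ∞ (fun w => g w i j) z := by
  have h1 : ContDiffAt ℝ ∞ g z := hg.contDiffAt (hW.mem_nhds hz)
  exact contDiffAt_pi.1 (contDiffAt_pi.1 h1 i) j

theorem diff_pd {f : C3 → ℝ} {z : C3} (hf : ContDiffAt ℝ ∞ f z) (k : Fin 3) :
    DifferentiableAt ℝ (pd f k) z := by
  have h1 : ContDiffAt ℝ ∞ (fderiv ℝ f) z := hf.fderiv_right (m := ∞) (by simp)
  have h2 : DifferentiableAt ℝ (fderiv ℝ f) z := h1.differentiableAt (by simp)
  exact h2.clm_apply (differentiableAt_const _)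

theorem diff_inv (hW : IsOpen W) (hg : ContDiffOn ℝ ∞ g W) {z : C3} (hz : z ∈ W)
    (hdet : (Matrix.of (g z)).det ≠ 0) (l m : Fin 3) :
    DifferentiableAt ℝ (fun w => (Matrix.of (g w))⁻¹ l m) z := by
  have hd : ∀ i j, DifferentiableAt ℝ (fun w => g w i j) z := fun i j =>
    (diff_g hW hg hz i j).differentiableAt (by simp)
  have h1 : (fun w => (Matrix.of (g w))⁻¹ l m) =
      fun w => ((Matrix.of (g w)).det)⁻¹ * (Matrix.of (g w)).adjugate l m := by
    funext w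
    rw [Matrix.inv_def, Ring.inverse_eq_inv', Matrix.smul_apply, smul_eq_mul]
  rw [h1]
  have h2 : DifferentiableAt ℝ (fun w => (Matrix.of (g w)).det) z := by
    simp only [Matrix.det_fin_three, Matrix.of_apply]
    fun_prop
  have h3 : DifferentiableAt ℝ (fun w => (Matrix.of (g w)).adjugate l m) z := by
    simp only [Matrix.adjugate_fin_three, Matrix.of_apply]
    fin_cases l <;> fin_cases m <;> simp <;> fun_prop
  exact (h2.inv hdet).mul h3

theorem diff_chr (hW : IsOpen W) (hg : ContDiffOn ℝ ∞ g W) {z : C3} (hz : z ∈ W)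
    (hdet : (Matrix.of (g z)).det ≠ 0) (l i j : Fin 3) :
    DifferentiableAt ℝ (chr g l i j) z := by
  unfold chr
  refine DifferentiableAt.const_mul (DifferentiableAt.fun_sum fun m _ => ?_) _
  refine (diff_inv hW hg hz hdet l m).mul ?_
  exact ((diff_pd (diff_g hW hg hz j m) i).add (diff_pd (diff_g hW hg hz i m) j)).sub
    (diff_pd (diff_g hW hg hz i j) m)

theorem low_chr {z : C3} (hsymm : ∀ i j, g z i j = g z j i) (hdet : (Matrix.of (g z)).det ≠ 0)
    (i j m : Fin 3) : 2 * ∑ l, chr g l i j z * g z l m =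
      pd (fun z => g z j m) i z + pd (fun z => g z i m) j z - pd (fun z => g z i j) m z := by
  have hu : IsUnit (Matrix.of (g z)).det := isUnit_iff_ne_zero.2 hdet
  have h1 : Matrix.of (g z) * (Matrix.of (g z))⁻¹ = 1 := Matrix.mul_nonsing_inv _ hu
  have h2 : ∀ m n, ∑ l, (Matrix.of (g z))⁻¹ l n * g z l m = if m = n then 1 else 0 := by
    intro m n
    have := congrFun (congrFun h1 m) n
    rw [Matrix.mul_apply, Matrix.one_apply] at this
    rw [← this]
    refine Finset.sum_congr rfl fun l _ => ?_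
    rw [Matrix.of_apply, hsymm m l, mul_comm]
  have h3 : 2 * ∑ l, chr g l i j z * g z l m = ∑ n, (∑ l, (Matrix.of (g z))⁻¹ l n * g z l m) *
      (pd (fun z => g z j n) i z + pd (fun z => g z i n) j z - pd (fun z => g z i j) n z) := by
    unfold chr
    rw [Finset.mul_sum]
    simp only [Finset.sum_mul, Finset.mul_sum]
    rw [Finset.sum_comm]
    refine Finset.sum_congr rfl fun n _ => Finset.sum_congr rfl fun l _ => ?_
    ring
  rw [h3]
  simp only [h2]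
  simp

theorem kos_met (hW : IsOpen W) (hg : ContDiffOn ℝ ∞ g W)
    (hsymm : ∀ w ∈ W, ∀ i j, g w i j = g w j i) (hdet : ∀ w ∈ W, (Matrix.of (g w)).det ≠ 0) :
    Kos (bG g) (GG g) W := by
  have hd : ∀ z ∈ W, ∀ i j, DifferentiableAt ℝ (fun w => g w i j) z := fun z hz i j =>
    (diff_g hW hg hz i j).differentiableAt (by simp)
  refine ⟨fun z hz => differentiableAt_bl (hd z hz), fun z hz => differentiableAt_bl fun i j => ?_,
    fun z hz X Y => ?_, fun z hz X Y Z => ?_, fun z hz X hX => ?_⟩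
  · exact differentiableAt_pi.2 fun l => diff_chr hW hg hz (hdet z hz) l i j
  · unfold bG
    rw [bl_apply, bl_apply, Finset.sum_comm]
    refine Finset.sum_congr rfl fun i _ => Finset.sum_congr rfl fun j _ => ?_
    rw [hsymm z hz j i]
    simp only [smul_eq_mul]
    ring
  · have e : ∀ A U V, fderiv ℝ (bG g) z A U V =
        ∑ i, ∑ j, ∑ k, A k * U i * V j * pd (fun w => g w i j) k z := by
      intro A U V
      unfold bG
      rw [fderiv_bl (hd z hz)]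
      refine Finset.sum_congr rfl fun i _ => Finset.sum_congr rfl fun j _ => ?_
      rw [fderiv_eq_pd, smul_eq_mul, smul_eq_mul, Finset.mul_sum, Finset.mul_sum]
      refine Finset.sum_congr rfl fun k _ => ?_
      ring
    have l : 2 * bG g z (GG g z X Y) Z = ∑ i, ∑ j, ∑ m, X i * Y j * Z m *
        (2 * ∑ l, chr g l i j z * g z l m) := by
      unfold bG GG
      rw [bl_apply, bl_apply]
      simp only [smul_eq_mul, Finset.sum_apply, Pi.smul_apply, Pi.add_apply, Fin.sum_univ_three]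
      ring
    rw [l, e, e, e]
    simp only [low_chr (hsymm z hz) (hdet z hz)]
    simp only [Fin.sum_univ_three]
    ring
  · have h1 : Matrix.vecMul X (Matrix.of (g z)) = 0 := by
      funext j
      have := hX (Pi.single j 1)
      unfold bG at this
      rw [bl_apply] at this
      simp only [Matrix.vecMul, dotProduct, Matrix.of_apply, Pi.zero_apply]
      rw [← this]
      refine Finset.sum_congr rfl fun i _ => ?_
      simp [Pi.single_apply]
    exact Matrix.eq_zero_of_vecMul_eq_zero (hdet z hz) h1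

theorem Rm_apply (hW : IsOpen W) (hg : ContDiffOn ℝ ∞ g W)
    (hdet : ∀ w ∈ W, (Matrix.of (g w)).det ≠ 0) {z : C3} (hz : z ∈ W) (X Y Z : C3) (l : Fin 3) :
    Rm (GG g) z X Y Z l = ∑ k, ∑ i, ∑ j, riem g l k i j z * X i * Y j * Z k := by
  have hd : ∀ i j, DifferentiableAt ℝ (fun w => (fun l => chr g l i j w : C3)) z := fun i j =>
    differentiableAt_pi.2 fun l => diff_chr hW hg hz (hdet z hz) l i j
  have e : ∀ A U V, fderiv ℝ (GG g) z A U V l =
      ∑ i, ∑ j, ∑ k, A k * U i * V j * pd (chr g l i j) k z := by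
    intro A U V
    unfold GG
    rw [fderiv_bl hd]
    simp only [Finset.sum_apply, Pi.smul_apply, smul_eq_mul]
    refine Finset.sum_congr rfl fun i _ => Finset.sum_congr rfl fun j _ => ?_
    have h1 : fderiv ℝ (fun w => (fun l => chr g l i j w : C3)) z A l =
        fderiv ℝ (chr g l i j) z A := by
      rw [fderiv_pi fun l => diff_chr hW hg hz (hdet z hz) l i j]
      rfl
    rw [h1, fderiv_eq_pd, Finset.mul_sum, Finset.mul_sum]
    refine Finset.sum_congr rfl fun k _ => ?_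
    ring
  have c : ∀ U V, ∀ l, GG g z U V l = ∑ i, ∑ j, U i * V j * chr g l i j z := by
    intro U V l
    unfold GG
    rw [bl_apply]
    simp only [Finset.sum_apply, Pi.smul_apply, smul_eq_mul]
    refine Finset.sum_congr rfl fun i _ => Finset.sum_congr rfl fun j _ => ?_
    ring
  unfold Rm
  simp only [Pi.sub_apply, Pi.add_apply]
  rw [e, e, c, c]
  simp only [c]
  unfold riem
  simp only [Fin.sum_univ_three]
  ring

theorem secNonpos_iff (hW : IsOpen W) (hg : ContDiffOn ℝ ∞ g W)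
    (hdet : ∀ w ∈ W, (Matrix.of (g w)).det ≠ 0) {z : C3} (hz : z ∈ W) :
    SecNonpos g z ↔ ∀ X Y, bG g z (Rm (GG g) z X Y Y) X ≤ 0 := by
  unfold SecNonpos
  refine forall_congr' fun X => forall_congr' fun Y => ?_
  have h : (∑ h, ∑ l, ∑ k, ∑ i, ∑ j, g z l h * riem g l k i j z * X i * Y j * Y k * X h) =
      bG g z (Rm (GG g) z X Y Y) X := by
    unfold bG
    rw [bl_apply, Finset.sum_comm]
    refine Finset.sum_congr rfl fun l _ => Finset.sum_congr rfl fun h _ => ?_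
    rw [Rm_apply hW hg hdet hz, smul_eq_mul, smul_eq_mul, Finset.sum_mul]
    refine Finset.sum_congr rfl fun k _ => ?_
    rw [Finset.sum_mul]
    refine Finset.sum_congr rfl fun i _ => ?_
    rw [Finset.sum_mul]
    refine Finset.sum_congr rfl fun j _ => ?_
    ring
  rw [h]

end met

end TensAux

open TensAux

/-- The pull-back of a metric under a map of `ℝ³`. -/
noncomputable def pullMet (g : Met) (σ : C3 → C3) : Met := fun z i j =>
  ∑ a, ∑ b, g (σ z) a b * (fderiv ℝ σ z (Pi.single i 1) a * fderiv ℝ σ z (Pi.single j 1) b)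

namespace TensAux

theorem bG_pull (g : Met) (σ : C3 → C3) (z X Y : C3) :
    bG (pullMet g σ) z X Y = bG g (σ z) (fderiv ℝ σ z X) (fderiv ℝ σ z Y) := by
  have hS : ∀ U : C3, ∀ a, fderiv ℝ σ z U a = ∑ i, U i * fderiv ℝ σ z (Pi.single i 1) a := by
    intro U a
    have h1 : U = ∑ i, U i • (Pi.single i (1 : ℝ) : C3) := by
      funext j
      simp [Finset.sum_apply, Pi.single_apply]
    conv_lhs => rw [h1]
    rw [map_sum, Finset.sum_apply]
    refine Finset.sum_congr rfl fun i _ => ?_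
    rw [map_smul]
    rfl
  unfold bG
  rw [bl_apply, bl_apply]
  simp only [smul_eq_mul]
  simp only [hS X, hS Y]
  unfold pullMet
  simp only [Fin.sum_univ_three]
  ring

end TensAux

theorem SecNonpos.pullback {g : Met} {σ : C3 → C3} {W W' : Set C3} (hW : IsOpen W)
    (hW' : IsOpen W') (hg : ContDiffOn ℝ ∞ g W) (hsymm : ∀ w ∈ W, ∀ i j, g w i j = g w j i)
    (hdet : ∀ w ∈ W, (Matrix.of (g w)).det ≠ 0) (hσ : ContDiffOn ℝ ∞ σ W')
    (hm : ∀ w ∈ W', σ w ∈ W) (hinj : ∀ w ∈ W', Function.Injective (fderiv ℝ σ w))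
    {w : C3} (hw : w ∈ W') (h : SecNonpos g (σ w)) : SecNonpos (pullMet g σ) w := by
  have hsurj : ∀ z ∈ W', Function.Surjective (fderiv ℝ σ z) := fun z hz =>
    (LinearMap.injective_iff_surjective (f := (fderiv ℝ σ z).toLinearMap)).1 (hinj z hz)
  have k := kos_met hW hg hsymm hdet
  have hσ1 : ∀ i a, ContDiffOn ℝ ∞ (fun z => fderiv ℝ σ z (Pi.single i 1) a) W' := by
    intro i a
    have h1 : ContDiffOn ℝ ∞ (fderiv ℝ σ) W' := hσ.fderiv_of_isOpen (m := ∞) hW' (by simp)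
    exact contDiffOn_pi.1 (h1.clm_apply contDiffOn_const) a
  have hg' : ContDiffOn ℝ ∞ (pullMet g σ) W' := by
    refine contDiffOn_pi.2 fun i => contDiffOn_pi.2 fun j => ?_
    unfold pullMet
    refine ContDiffOn.sum fun a _ => ContDiffOn.sum fun b _ => ?_
    refine ContDiffOn.mul ?_ ((hσ1 i a).mul (hσ1 j b))
    exact contDiffOn_pi.1 (contDiffOn_pi.1 (hg.comp hσ hm) a) b
  have hsymm' : ∀ z ∈ W', ∀ i j, pullMet g σ z i j = pullMet g σ z j i := by
    intro z hz i j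
    unfold pullMet
    rw [Finset.sum_comm]
    refine Finset.sum_congr rfl fun a _ => Finset.sum_congr rfl fun b _ => ?_
    rw [hsymm (σ z) (hm z hz) b a]
    ring
  have hdet' : ∀ z ∈ W', (Matrix.of (pullMet g σ z)).det ≠ 0 := by
    intro z hz hd
    obtain ⟨v, hv, hv0⟩ := Matrix.exists_vecMul_eq_zero_iff.2 hd
    apply hv
    apply hinj z hz
    rw [map_zero]
    refine k.nondeg (σ z) (hm z hz) _ fun Y => ?_
    obtain ⟨Y, rfl⟩ := hsurj z hz Y
    rw [← bG_pull]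
    unfold bG
    rw [bl_apply, Finset.sum_comm]
    refine Finset.sum_eq_zero fun j _ => ?_
    have := congrFun hv0 j
    simp only [Matrix.vecMul, dotProduct, Matrix.of_apply, Pi.zero_apply] at this
    have h2 : ∑ i, v i • Y j • pullMet g σ z i j = Y j * ∑ i, v i * pullMet g σ z i j := by
      rw [Finset.mul_sum]
      refine Finset.sum_congr rfl fun i _ => ?_
      simp only [smul_eq_mul]
      ring
    rw [h2, this, mul_zero]
  have k' := kos_met hW' hg' hsymm' hdet'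
  rw [secNonpos_iff hW' hg' hdet' hw]
  rw [secNonpos_iff hW hg hdet (hm w hw)] at h
  intro X Y
  rw [bG_pull, curv k k' hW' hσ hm (fun z _ X Y => bG_pull g σ z X Y) hsurj hw]
  exact h _ _

end NPCG
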