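import Pool.Agent.Lib.NPCG.Chain

/-! # NPCG.Trans: transition maps between parametrisations

MODULE (about 1 h). Inverse function theorem: with `χ = extChartAt (𝓡 3) (Φ w)` the maps `χ ∘ Φ`, `χ ∘ Φ'` are smooth near `w`,
`w'` as maps `ℝ³ → E3` with bijective derivative (`D Φ' w'` is bijective, `IsParam.surj`);
`ContDiffAt.toOpenPartialHomeomorph` gives a smooth local inverse `ι` of `χ ∘ Φ'`; take `σ = ι ∘ χ ∘ Φ` on a small open `V`.
`fderiv σ z` is injective because `D Φ z = D Φ' (σ z) ∘ fderiv σ z` (`IsParam.D_comp`, `D_congr`) and `D Φ z` is.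
-/

open Set
open scoped Manifold ContDiff

namespace NPCG

variable {M : Type*} [TopologicalSpace M] [ChartedSpace E3 M]

namespace TransAux

theorem read [IsManifold (𝓡 3) ∞ M] {Φ : C3 → M} {W : Set C3} (h : IsParam Φ W) (q : M) {x : C3}
    (hx : x ∈ W) (hq : Φ x ∈ (extChartAt (𝓡 3) q).source) :
    ContDiffAt ℝ ∞ (fun z => extChartAt (𝓡 3) q (Φ z)) x ∧
      ∃ e : C3 ≃L[ℝ] E3,
        HasFDerivAt (fun z => extChartAt (𝓡 3) q (Φ z)) (e : C3 →L[ℝ] E3) x := by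
  have hq' : Φ x ∈ (chartAt E3 q).source := by rwa [extChartAt_source] at hq
  have h1 : ContMDiffAt (𝓡 3) 𝓘(ℝ, E3) ∞ (extChartAt (𝓡 3) q) (Φ x) :=
    contMDiffAt_extChartAt' hq'
  have h2 : ContMDiffAt 𝓘(ℝ, C3) 𝓘(ℝ, E3) ∞ (fun z => extChartAt (𝓡 3) q (Φ z)) x :=
    h1.comp x (h.cmdiffAt hx)
  have h3 : ContDiffAt ℝ ∞ (fun z => extChartAt (𝓡 3) q (Φ z)) x := contMDiffAt_iff_contDiffAt.1 h2
  refine ⟨h3, ?_⟩
  have h4 : DifferentiableAt ℝ (fun z => extChartAt (𝓡 3) q (Φ z)) x :=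
    h3.differentiableAt (by simp)
  have h5 : (mfderiv (𝓡 3) 𝓘(ℝ, E3) (extChartAt (𝓡 3) q) (Φ x)).IsInvertible :=
    isInvertible_mfderiv_extChartAt hq
  have h6 : ∀ u, fderiv ℝ (fun z => extChartAt (𝓡 3) q (Φ z)) x u =
      mfderiv (𝓡 3) 𝓘(ℝ, E3) (extChartAt (𝓡 3) q) (Φ x) (D Φ x u) := by
    intro u
    have h7 := mfderiv_comp (I := 𝓘(ℝ, C3)) (I' := 𝓡 3) (I'' := 𝓘(ℝ, E3)) x
      (h1.mdifferentiableAt (by simp)) (h.mdiff hx)
    rw [← mfderiv_eq_fderiv]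
    change mfderiv 𝓘(ℝ, C3) 𝓘(ℝ, E3) (extChartAt (𝓡 3) q ∘ Φ) x u = _
    rw [h7]
    rfl
  have hinj : Function.Injective (fderiv ℝ (fun z => extChartAt (𝓡 3) q (Φ z)) x) := by
    intro u v huv
    rw [h6, h6] at huv
    exact h.inj x hx (h5.injective huv)
  have hfr : Module.finrank ℝ C3 = Module.finrank ℝ E3 := by simp
  let e0 : C3 ≃ₗ[ℝ] E3 := LinearMap.linearEquivOfInjective
    (fderiv ℝ (fun z => extChartAt (𝓡 3) q (Φ z)) x).toLinearMap hinj hfr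
  refine ⟨e0.toContinuousLinearEquiv, ?_⟩
  have h8 : (e0.toContinuousLinearEquiv : C3 →L[ℝ] E3) =
      fderiv ℝ (fun z => extChartAt (𝓡 3) q (Φ z)) x := by
    ext1 u
    rfl
  rw [h8]
  exact h4.hasFDerivAt

end TransAux

open TransAux

theorem exists_transition [IsManifold (𝓡 3) ∞ M] {Φ Φ' : C3 → M} {W W' : Set C3}
    (h : IsParam Φ W) (h' : IsParam Φ' W') {w w' : C3} (hw : w ∈ W) (hw' : w' ∈ W')
    (he : Φ w = Φ' w') :
    ∃ (σ : C3 → C3) (V : Set C3), IsOpen V ∧ w ∈ V ∧ V ⊆ W ∧ ContDiffOn ℝ ∞ σ V ∧ σ w = w' ∧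
      (∀ z ∈ V, σ z ∈ W') ∧ (∀ z ∈ V, Φ z = Φ' (σ z)) ∧
      ∀ z ∈ V, Function.Injective (fderiv ℝ σ z) := by
  classical
  let χ := extChartAt (𝓡 3) (Φ w)
  let a : C3 → E3 := fun z => χ (Φ z)
  let b : C3 → E3 := fun z => χ (Φ' z)
  have hχo : IsOpen χ.source := isOpen_extChartAt_source (Φ w)
  have hsw : Φ w ∈ χ.source := mem_extChartAt_source (Φ w)
  have hsw' : Φ' w' ∈ χ.source := by rw [← he]; exact hsw
  have hUo : IsOpen (W ∩ Φ ⁻¹' χ.source) := h.smooth.continuousOn.isOpen_inter_preimage h.isOpen hχo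
  have hUo' : IsOpen (W' ∩ Φ' ⁻¹' χ.source) :=
    h'.smooth.continuousOn.isOpen_inter_preimage h'.isOpen hχo
  obtain ⟨hb, e, hbe⟩ := read h' (Φ w) hw' hsw'
  have hn : (∞ : WithTop ℕ∞) ≠ 0 := by simp
  let f : OpenPartialHomeomorph C3 E3 := hb.toOpenPartialHomeomorph b hbe hn
  have hfb : ∀ z, f z = b z := fun z => rfl
  have hfs : w' ∈ f.source := hb.mem_toOpenPartialHomeomorph_source hbe hn
  have hT : IsOpen (f.target ∩ f.symm ⁻¹' (W' ∩ Φ' ⁻¹' χ.source)) :=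
    f.isOpen_inter_preimage_symm hUo'
  have ha : ∀ z ∈ W ∩ Φ ⁻¹' χ.source, ContDiffAt ℝ ∞ a z := fun z hz =>
    (read h (Φ w) hz.1 hz.2).1
  have hac : ContinuousOn a (W ∩ Φ ⁻¹' χ.source) := fun z hz =>
    (ha z hz).continuousAt.continuousWithinAt
  have hab : a w = b w' := by
    change χ (Φ w) = χ (Φ' w')
    rw [he]
  have hV : IsOpen ((W ∩ Φ ⁻¹' χ.source) ∩
      a ⁻¹' (f.target ∩ f.symm ⁻¹' (W' ∩ Φ' ⁻¹' χ.source))) :=
    hac.isOpen_inter_preimage hUo hT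
  have hsym : f.symm (a w) = w' := by
    rw [hab, ← hfb]
    exact f.left_inv hfs
  have hcd : ∀ z ∈ (W ∩ Φ ⁻¹' χ.source) ∩
      a ⁻¹' (f.target ∩ f.symm ⁻¹' (W' ∩ Φ' ⁻¹' χ.source)),
      ContDiffAt ℝ ∞ (fun z => f.symm (a z)) z := by
    intro z hz
    obtain ⟨hb', e', hbe'⟩ := read h' (Φ w) hz.2.2.1 hz.2.2.2
    have h1 : ContDiffAt ℝ ∞ f.symm (a z) := f.contDiffAt_symm hz.2.1 hbe' hb'
    exact h1.comp z (ha z hz.1)
  have heq : ∀ z ∈ (W ∩ Φ ⁻¹' χ.source) ∩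
      a ⁻¹' (f.target ∩ f.symm ⁻¹' (W' ∩ Φ' ⁻¹' χ.source)), Φ z = Φ' (f.symm (a z)) := by
    intro z hz
    refine χ.injOn hz.1.2 hz.2.2.2 ?_
    change a z = b (f.symm (a z))
    rw [← hfb]
    exact (f.right_inv hz.2.1).symm
  refine ⟨fun z => f.symm (a z), _, hV, ⟨⟨hw, hsw⟩, ?_, ?_, ?_⟩, fun z hz => hz.1.1,
    fun z hz => (hcd z hz).contDiffWithinAt, hsym, fun z hz => hz.2.2.1, heq, ?_⟩
  · rw [hab, ← hfb]
    exact f.map_source hfs
  · rw [hsym]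
    exact hw'
  · change Φ' (f.symm (a w)) ∈ χ.source
    rw [hsym]
    exact hsw'
  · intro z hz u v huv
    have h1 : D Φ z = D (fun z => Φ' (f.symm (a z))) z := by
      refine D_congr ?_
      filter_upwards [hV.mem_nhds hz] with y hy
      exact heq y hy
    have hd : DifferentiableAt ℝ (fun z => f.symm (a z)) z := (hcd z hz).differentiableAt (by simp)
    have h2 : ∀ u, D Φ z u = D Φ' (f.symm (a z)) (fderiv ℝ (fun z => f.symm (a z)) z u) := by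
      intro u
      rw [h1]
      exact h'.D_comp hd hz.2.2.1 u
    apply h.inj z hz.1.1
    rw [h2, h2, huv]

end NPCG
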