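import Pool.Agent.Lib.NPCG.Curv
import Pool.Agent.Lib.NPCG.Tens
import Pool.Agent.Lib.NPCG.Trans

/-! # NPCG.AllP: smooth and nonpositively curved in every parametrisation

MODULE (about 0.7 h), uses Curv, Tens, Trans as black boxes. For `IsParam Φ W`, `w ∈ W` take the type A parametrisation `Φ'` around
`Φ w` and the transition map `σ`: near `w`, `pull g Φ = pullMet (dg ψ1 ψ2) σ` (`IsParam.D_comp`, `D_congr`; expand
`fderiv σ z e_i = ∑ a, (..) a • e_a`), which is smooth, and `SecNonpos.congr`, `SecNonpos.pullback`, `secNonpos_dg`.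
-/

open Set
open scoped Manifold ContDiff

namespace NPCG

variable {M : Type*} [TopologicalSpace M] [ChartedSpace E3 M]

namespace AllPAux

theorem contDiff_dg {ψ1 ψ2 : ℝ → ℝ} (h1 : Prof ψ1) (h2 : Prof ψ2) :
    ContDiff ℝ ∞ (dg ψ1 ψ2) := by
  rw [contDiff_pi]; intro i
  rw [contDiff_pi]; intro j
  unfold dg
  have c1 : ContDiff ℝ ∞ (fun w : C3 => ψ1 (w 0)) := h1.smooth.comp (contDiff_apply ℝ ℝ 0)
  have c2 : ContDiff ℝ ∞ (fun w : C3 => ψ2 (w 0)) := h2.smooth.comp (contDiff_apply ℝ ℝ 0)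
  by_cases hij : i = j
  · subst hij
    fin_cases i
    · simpa using contDiff_const
    · simpa using c1
    · simpa using c2
  · simpa [hij] using contDiff_const

theorem dg_symm (ψ1 ψ2 : ℝ → ℝ) (w : C3) (i j : Fin 3) : dg ψ1 ψ2 w i j = dg ψ1 ψ2 w j i := by
  unfold dg
  by_cases hij : i = j
  · subst hij; rfl
  · rw [if_neg hij, if_neg (Ne.symm hij)]

theorem det_dg {ψ1 ψ2 : ℝ → ℝ} (h1 : Prof ψ1) (h2 : Prof ψ2) (w : C3) :
    (Matrix.of (dg ψ1 ψ2 w)).det ≠ 0 := by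
  have hd : Matrix.of (dg ψ1 ψ2 w) = Matrix.diagonal ![1, ψ1 (w 0), ψ2 (w 0)] := by
    ext i j
    simp only [Matrix.of_apply, dg, Matrix.diagonal_apply]
  rw [hd, Matrix.det_diagonal]
  have e1 := (h1.pos (w 0)).ne'
  have e2 := (h2.pos (w 0)).ne'
  simp [Fin.prod_univ_three, e1, e2]

theorem contDiffOn_pullMet {g : Met} {σ : C3 → C3} {V : Set C3} (hg : ContDiff ℝ ∞ g)
    (hV : IsOpen V) (hσ : ContDiffOn ℝ ∞ σ V) : ContDiffOn ℝ ∞ (pullMet g σ) V := by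
  have hf : ContDiffOn ℝ ∞ (fderiv ℝ σ) V := hσ.fderiv_of_isOpen hV (by simp)
  rw [contDiffOn_pi]; intro i
  rw [contDiffOn_pi]; intro j
  unfold pullMet
  refine ContDiffOn.sum fun a _ => ContDiffOn.sum fun b _ => ?_
  have h1 : ContDiffOn ℝ ∞ (fun z => g (σ z) a b) V := by
    have h2 : ContDiff ℝ ∞ (fun w => g w a b) :=
      (contDiff_pi.1 ((contDiff_pi.1 hg) a)) b
    exact h2.comp_contDiffOn hσ
  have h3 : ∀ k c : Fin 3, ContDiffOn ℝ ∞ (fun z => fderiv ℝ σ z (Pi.single k 1) c) V := by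
    intro k c
    have h4 : ContDiffOn ℝ ∞ (fun z => fderiv ℝ σ z (Pi.single k 1)) V :=
      hf.clm_apply contDiffOn_const
    exact (contDiffOn_pi.1 h4) c
  exact h1.mul ((h3 i a).mul (h3 j b))

theorem local_form [IsManifold (𝓡 3) ∞ M] {g : Bil M}
    (h : ∀ p, ∃ Φ W, TypeA g Φ W ∧ p ∈ Φ '' W) {Φ : C3 → M} {W : Set C3} (hΦ : IsParam Φ W)
    {w : C3} (hw : w ∈ W) :
    ∃ (ψ1 ψ2 : ℝ → ℝ) (σ : C3 → C3) (V : Set C3), Prof ψ1 ∧ Prof ψ2 ∧ IsOpen V ∧ w ∈ V ∧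
      ContDiffOn ℝ ∞ σ V ∧ (∀ z ∈ V, Function.Injective (fderiv ℝ σ z)) ∧
      ∀ z ∈ V, pull g Φ z = pullMet (dg ψ1 ψ2) σ z := by
  obtain ⟨Φ', W', hA, w', hw', he⟩ := h (Φ w)
  obtain ⟨ψ1, ψ2, h1, h2, hf⟩ := hA.form
  obtain ⟨σ, V, hV, hwV, hVW, hσ, -, hm, heq, hinj⟩ :=
    exists_transition hΦ hA.toIsParam hw hw' he.symm
  refine ⟨ψ1, ψ2, σ, V, h1, h2, hV, hwV, hσ, hinj, ?_⟩
  intro z hz
  have hd : DifferentiableAt ℝ σ z :=
    ((hσ z hz).contDiffAt (hV.mem_nhds hz)).differentiableAt (by simp)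
  have hD : ∀ u, D Φ z u = D Φ' (σ z) (fderiv ℝ σ z u) := by
    intro u
    have h3 : D Φ z = D (fun z => Φ' (σ z)) z := by
      refine D_congr ?_
      filter_upwards [hV.mem_nhds hz] with y hy
      exact heq y hy
    rw [h3]
    exact hA.toIsParam.D_comp hd (hm z hz) u
  funext i j
  unfold pull pullMet
  rw [hD, hD, heq z hz, hf _ (hm z hz)]
  simp [Fin.sum_univ_three, dg]

end AllPAux

open AllPAux

theorem isNPC_all_of_typeA [IsManifold (𝓡 3) ∞ M] (g : Bil M)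
    (h : ∀ p, ∃ Φ W, TypeA g Φ W ∧ p ∈ Φ '' W) : IsNPC g := by
  have h0 := isNPC_of_typeA g h
  refine ⟨h0.symm, h0.pos, ?_, ?_⟩
  · intro Φ W hΦ w hw
    obtain ⟨ψ1, ψ2, σ, V, h1, h2, hV, hwV, hσ, -, hp⟩ := local_form h hΦ hw
    have h3 : ContDiffOn ℝ ∞ (pull g Φ) V :=
      (contDiffOn_pullMet (contDiff_dg h1 h2) hV hσ).congr hp
    exact ((h3 w hwV).contDiffAt (hV.mem_nhds hwV)).contDiffWithinAt
  · intro Φ W hΦ w hw
    obtain ⟨ψ1, ψ2, σ, V, h1, h2, hV, hwV, hσ, hinj, hp⟩ := local_form h hΦ hw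
    refine SecNonpos.congr (g' := pullMet (dg ψ1 ψ2) σ) ?_ ?_
    · filter_upwards [hV.mem_nhds hwV] with z hz
      exact hp z hz
    · exact SecNonpos.pullback (W := Set.univ) (W' := V) isOpen_univ hV
        (contDiff_dg h1 h2).contDiffOn (fun w _ i j => dg_symm ψ1 ψ2 w i j)
        (fun w _ => det_dg h1 h2 w) hσ (fun _ _ => Set.mem_univ _) hinj hwV
        (secNonpos_dg h1 h2 (σ w))

end NPCG
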