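import Pool.Agent.Lib.NPCG.Der

/-! # NPCG.Avg: averaging

MODULE (about 1.2 h). `avg_normal`: `closed`: for `γ : G` the map `γ • Φ` is again `IsSei` on `W` (`IsParam.act`, `D_act`,
`actS`, `refInv`, `FInv`), so `hb.closed` gives `A γ, c γ`; take `(1/|G|) ∑ A γ`, `(1/|G|) ∑ c γ`.
`flat`: `γ • J e (pt t x) = J (γ • e) (pt t (A γ e x + B γ e))` (`𝒟.act`) on the open set `-1 < t < 11`; the chain rule gives
`dact γ (J e w) (D (J e) w u) = D (J (γ • e)) (pt (w 0) (A γ e (tan w) + B γ e)) (pt (u 0) (A γ e (tan u)))`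
(lemma `dact_J` below, to be proved first), so the new `q' e u v = (1/|G|) ∑ q (γ • e) (A γ e u) (A γ e v)`.
At Seifert ends `A γ e (f e) = ± f (γ • e)` (`A_f` below: `fEnd`, `FInv`, injectivity of `D (J (γ • e))`).
-/

open Set
open scoped Manifold ContDiff

namespace NPCG

variable {M : Type*} [TopologicalSpace M] [ChartedSpace E3 M]
variable {G : Type*} [Group G] [MulAction G M] {E : Type*} [MulAction G E]

/-- The average of `b` over `G`. -/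
noncomputable def avg (G : Type*) [Group G] [MulAction G M] [Fintype G] (b : Bil M) : Bil M :=
  fun p => (1 / (Fintype.card G : ℝ)) • ∑ γ : G,
    (b (γ • p)).compl₁₂ (dact γ p).toLinearMap (dact γ p).toLinearMap

theorem avg_apply [Fintype G] (b : Bil M) (p : M) (u v : E3) :
    avg G b p u v = (1 / (Fintype.card G : ℝ)) * ∑ γ : G,
      b (γ • p) (dact γ p u) (dact γ p v) := by
  unfold avg
  rw [LinearMap.smul_apply, LinearMap.smul_apply, LinearMap.sum_apply, LinearMap.sum_apply,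
    smul_eq_mul]
  rfl

namespace AvgAux

/-- The linear part of the action in the collar coordinates. -/
def lin (A : C2 →ₗ[ℝ] C2) : C3 →ₗ[ℝ] C3 where
  toFun u := pt (u 0) (A (tan u))
  map_add' u v := by
    have h1 : tan (u + v) = tan u + tan v := by
      funext i; fin_cases i <;> rfl
    rw [h1, map_add]
    funext i
    fin_cases i <;> rfl
  map_smul' r u := by
    have h1 : tan (r • u) = r • tan u := by
      funext i; fin_cases i <;> rfl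
    rw [h1, map_smul]
    funext i
    fin_cases i <;> rfl

theorem hasFDerivAt_aff (A : C2 →ₗ[ℝ] C2) (b : C2) (w : C3) :
    HasFDerivAt (fun z : C3 => pt (z 0) (A (tan z) + b))
      (LinearMap.toContinuousLinearMap (lin A)) w := by
  have h1 : (fun z : C3 => pt (z 0) (A (tan z) + b)) =
      fun z => (LinearMap.toContinuousLinearMap (lin A)) z + hor b := by
    funext z
    change pt (z 0) (A (tan z) + b) = pt (z 0) (A (tan z)) + hor b
    funext i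
    fin_cases i
    · change z 0 = z 0 + 0
      rw [add_zero]
    · rfl
    · rfl
  rw [h1]
  exact (LinearMap.toContinuousLinearMap (lin A)).hasFDerivAt.add_const _

end AvgAux

open AvgAux

/-- The action on the collars, differentiated. -/
theorem dact_J (hG : ∀ γ : G, ContMDiff (𝓡 3) (𝓡 3) ∞ (fun p : M => γ • p)) (𝒟 : Decomp M G E)
    (γ : G) (e : E) (t : ℝ) (x : C2) (h1 : -1 < t) (h2 : t < 11) (u : C3) :
    dact γ (𝒟.J e (pt t x)) (D (𝒟.J e) (pt t x) u) =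
      D (𝒟.J (γ • e)) (pt t (𝒟.A γ e x + 𝒟.B γ e)) (pt (u 0) (𝒟.A γ e (tan u))) := by
  have hw : pt t x ∈ {w : C3 | -1 < w 0 ∧ w 0 < 11} := ⟨h1, h2⟩
  rw [← (𝒟.param e).D_act hG hw γ u]
  have hσ := hasFDerivAt_aff (𝒟.A γ e) (𝒟.B γ e) (pt t x)
  have hev : (fun z => γ • 𝒟.J e z) =ᶠ[nhds (pt t x)]
      (fun z => 𝒟.J (γ • e) (pt (z 0) (𝒟.A γ e (tan z) + 𝒟.B γ e))) := by
    filter_upwards [(𝒟.param e).isOpen.mem_nhds hw] with z hz
    have h3 := 𝒟.act γ e (z 0) (tan z) hz.1 hz.2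
    rw [pt_eta] at h3
    exact h3
  rw [D_congr hev]
  have hw2 : pt ((pt t x) 0) (𝒟.A γ e (tan (pt t x)) + 𝒟.B γ e) ∈
      {w : C3 | -1 < w 0 ∧ w 0 < 11} := ⟨h1, h2⟩
  rw [(𝒟.param (γ • e)).D_comp (σ := fun z : C3 => pt (z 0) (𝒟.A γ e (tan z) + 𝒟.B γ e))
    hσ.differentiableAt hw2, hσ.fderiv, tan_pt]
  rfl

/-- At Seifert ends `A γ e` maps the fibre class to the fibre class, up to sign. -/
theorem A_f (hG : ∀ γ : G, ContMDiff (𝓡 3) (𝓡 3) ∞ (fun p : M => γ • p)) (𝒟 : Decomp M G E)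
    (γ : G) (e : E) (t : ℝ) (x : C2) (h1 : 10 < t) (h2 : t < 11) (hS : 𝒟.J e (pt t x) ∈ 𝒟.S) :
    𝒟.A γ e (𝒟.f e) = 𝒟.f (γ • e) ∨ 𝒟.A γ e (𝒟.f e) = -𝒟.f (γ • e) := by
  have h1' : -1 < t := by linarith
  have hact := 𝒟.act γ e t x h1' h2
  have hS' : 𝒟.J (γ • e) (pt t (𝒟.A γ e x + 𝒟.B γ e)) ∈ 𝒟.S := by
    rw [← hact]
    exact 𝒟.actS γ _ hS
  have hf := 𝒟.fEnd e t x h1 h2 hS
  have hf' := 𝒟.fEnd (γ • e) t _ h1 h2 hS'
  have hF := 𝒟.FInv γ _ hS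
  rw [hact] at hF
  have hd := dact_J hG 𝒟 γ e t x h1' h2 (hor (𝒟.f e))
  rw [hor_zero_apply, tan_hor] at hd
  change _ = D (𝒟.J (γ • e)) (pt t (𝒟.A γ e x + 𝒟.B γ e)) (hor (𝒟.A γ e (𝒟.f e))) at hd
  have hinj := (𝒟.param (γ • e)).inj (pt t (𝒟.A γ e x + 𝒟.B γ e)) ⟨h1', h2⟩
  have key : D (𝒟.J (γ • e)) (pt t (𝒟.A γ e x + 𝒟.B γ e)) (hor (𝒟.A γ e (𝒟.f e))) =
      D (𝒟.J (γ • e)) (pt t (𝒟.A γ e x + 𝒟.B γ e)) (hor (𝒟.f (γ • e))) ∨
      D (𝒟.J (γ • e)) (pt t (𝒟.A γ e x + 𝒟.B γ e)) (hor (𝒟.A γ e (𝒟.f e))) =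
      -D (𝒟.J (γ • e)) (pt t (𝒟.A γ e x + 𝒟.B γ e)) (hor (𝒟.f (γ • e))) := by
    rw [← hd]
    rcases hf with hf | hf <;> rcases hf' with hf' | hf' <;> rcases hF with hF | hF <;>
      rw [hf, hf'] <;> simp only [map_neg, hF, neg_neg, true_or, or_true]
  have hneg : ∀ y : C2, -(hor y) = hor (-y) := by
    intro y
    funext i
    fin_cases i
    · change -(0 : ℝ) = 0
      exact neg_zero
    · rfl
    · rfl
  rcases key with hk | hk
  · exact Or.inl (hor_injective (hinj hk))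
  · rw [← map_neg, hneg] at hk
    exact Or.inr (hor_injective (hinj hk))

theorem avg_inv (hG : ∀ γ : G, ContMDiff (𝓡 3) (𝓡 3) ∞ (fun p : M => γ • p)) [Fintype G]
    (b : Bil M) : Inv G (avg G b) := by
  intro δ p u v
  rw [avg_apply, avg_apply]
  congr 1
  refine Fintype.sum_equiv (Equiv.mulRight δ) _ _ (fun γ => ?_)
  change _ = b ((γ * δ) • p) (dact (γ * δ) p u) (dact (γ * δ) p v)
  rw [dact_mul hG, dact_mul hG, mul_smul]

namespace AvgAux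

theorem sei_act (hG : ∀ γ : G, ContMDiff (𝓡 3) (𝓡 3) ∞ (fun p : M => γ • p))
    (𝒟 : Decomp M G E) {Φ : C3 → M} {W : Set C3} (hS : IsSei 𝒟.S 𝒟.ref 𝒟.F Φ W) (γ : G) :
    IsSei 𝒟.S 𝒟.ref 𝒟.F (fun z => γ • Φ z) W := by
  refine ⟨hS.toIsParam.act hG γ, ?_, ?_, ?_⟩
  · exact fun w hw => 𝒟.actS γ _ (hS.maps w hw)
  · intro w hw u v
    rw [hS.toIsParam.D_act hG hw, hS.toIsParam.D_act hG hw,
      𝒟.refInv γ _ (Or.inr (hS.maps w hw)), hS.ref_eq w hw]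
  · intro w hw
    rw [hS.toIsParam.D_act hG hw]
    rcases hS.fib w hw with h1 | h1 <;> rcases 𝒟.FInv γ _ (hS.maps w hw) with h2 | h2 <;>
      rw [h1] <;> simp only [map_neg, h2, neg_neg, true_or, or_true]

end AvgAux

/-- The average of `q`. -/
noncomputable def qavg (𝒟 : Decomp M G E) [Fintype G] (q : E → LinearMap.BilinForm ℝ C2) :
    E → LinearMap.BilinForm ℝ C2 := fun e =>
  (1 / (Fintype.card G : ℝ)) • ∑ γ : G, (q (γ • e)).compl₁₂ (𝒟.A γ e) (𝒟.A γ e)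

theorem qavg_apply (𝒟 : Decomp M G E) [Fintype G] (q : E → LinearMap.BilinForm ℝ C2) (e : E)
    (u v : C2) : qavg 𝒟 q e u v = (1 / (Fintype.card G : ℝ)) *
      ∑ γ : G, q (γ • e) (𝒟.A γ e u) (𝒟.A γ e v) := by
  unfold qavg
  rw [LinearMap.smul_apply, LinearMap.smul_apply, LinearMap.sum_apply, LinearMap.sum_apply,
    smul_eq_mul]
  rfl

section

variable (hG : ∀ γ : G, ContMDiff (𝓡 3) (𝓡 3) ∞ (fun p : M => γ • p))

include hG

theorem dact_hor (𝒟 : Decomp M G E) (γ : G) (e : E) (t : ℝ) (x : C2) (h1 : -1 < t) (h2 : t < 11)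
    (u : C2) :
    dact γ (𝒟.J e (pt t x)) (D (𝒟.J e) (pt t x) (hor u)) =
      D (𝒟.J (γ • e)) (pt t (𝒟.A γ e x + 𝒟.B γ e)) (hor (𝒟.A γ e u)) := by
  rw [dact_J hG 𝒟 γ e t x h1 h2, tan_hor]
  rfl

theorem A_inj (𝒟 : Decomp M G E) (γ : G) (e : E) (u : C2) (hu : 𝒟.A γ e u = 0) : u = 0 := by
  have h := dact_hor hG 𝒟 γ e 0 0 (by norm_num) (by norm_num) u
  have hz : hor (0 : C2) = 0 := by funext i; fin_cases i <;> rfl
  rw [hu, hz, map_zero] at h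
  have h2 : D (𝒟.J e) (pt 0 0) (hor u) = 0 := by
    apply dact_injective hG γ
    rw [h, map_zero]
  have h3 := (𝒟.param e).inj (pt 0 0) ⟨by simp, by simp⟩ (h2.trans (map_zero _).symm)
  rw [← hz] at h3
  exact hor_injective h3

/-- The cocycle identity. -/
theorem A_mul (𝒟 : Decomp M G E) (γ δ : G) (e : E) (u : C2) :
    𝒟.A (γ * δ) e u = 𝒟.A γ (δ • e) (𝒟.A δ e u) := by
  have t1 : (-1 : ℝ) < 1/2 := by norm_num
  have t2 : (1/2 : ℝ) < 11 := by norm_num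
  have h1 := 𝒟.act (γ * δ) e (1/2) 0 t1 t2
  have h2 := 𝒟.act δ e (1/2) 0 t1 t2
  have h3 := 𝒟.act γ (δ • e) (1/2) (𝒟.A δ e 0 + 𝒟.B δ e) t1 t2
  rw [mul_smul, h2, h3] at h1
  have k1 := dact_hor hG 𝒟 (γ * δ) e (1/2) 0 t1 t2 u
  have k2 := dact_hor hG 𝒟 δ e (1/2) 0 t1 t2 u
  have k3 := dact_hor hG 𝒟 γ (δ • e) (1/2) (𝒟.A δ e 0 + 𝒟.B δ e) t1 t2 (𝒟.A δ e u)
  rw [dact_mul hG, k2, h2, k3] at k1
  rw [mul_smul] at h1 k1
  rcases 𝒟.inj _ _ _ _ _ _ t1 t2 t1 t2 h1 with ⟨-, -, n, hn⟩ | ⟨-, h, -⟩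
  · rw [hn] at k1
    have hper := D_period 𝒟 (γ • δ • e) (1/2) (𝒟.A γ (δ • e) (𝒟.A δ e 0 + 𝒟.B δ e) +
      𝒟.B γ (δ • e)) n t1 t2 (hor (𝒟.A (γ * δ) e u))
    rw [hper] at k1
    exact (hor_injective ((𝒟.param _).inj _ ⟨t1, t2⟩ k1)).symm
  · norm_num at h

/-- The gluing maps are equivariant. -/
theorem bar_smul (𝒟 : Decomp M G E) (γ : G) (e : E) :
    γ • 𝒟.bar e = 𝒟.bar (γ • e) ∧
      ∀ u, 𝒟.A γ (𝒟.bar e) (𝒟.T e u) = 𝒟.T (γ • e) (𝒟.A γ e u) := by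
  have t1 : (-1 : ℝ) < 1/2 := by norm_num
  have t2 : (1/2 : ℝ) < 11 := by norm_num
  have s1 : (-1 : ℝ) < -(1/2) := by norm_num
  have s2 : (-(1/2) : ℝ) < 11 := by norm_num
  have h0 := 𝒟.glue e (1/2) 0 t1 (by norm_num)
  have h1 := 𝒟.act γ e (1/2) 0 t1 t2
  have h2 := 𝒟.act γ (𝒟.bar e) (-(1/2)) (𝒟.T e 0 + 𝒟.c e) s1 s2
  rw [h0, h1] at h2
  rcases 𝒟.inj _ _ _ _ _ _ t1 t2 s1 s2 h2 with ⟨-, h, -⟩ | ⟨hb, -, n, hn⟩
  · norm_num at h
  · refine ⟨hb, fun u => ?_⟩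
    have k1 := dact_hor hG 𝒟 γ e (1/2) 0 t1 t2 u
    have k2 := dact_hor hG 𝒟 γ (𝒟.bar e) (-(1/2)) (𝒟.T e 0 + 𝒟.c e) s1 s2 (𝒟.T e u)
    have g1 := D_glue 𝒟 e (1/2) 0 t1 (by norm_num) (hor u)
    rw [pt_neg_zero_hor] at g1
    have g2 := D_glue 𝒟 (γ • e) (1/2) (𝒟.A γ e 0 + 𝒟.B γ e) t1 (by norm_num)
      (hor (𝒟.A γ e u))
    rw [pt_neg_zero_hor] at g2
    rw [g1, h0, k1, hn, hb, ← g2, D_period 𝒟 _ _ _ n s1 s2] at k2
    exact (hor_injective ((𝒟.param _).inj _ ⟨s1, s2⟩ k2)).symm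

theorem qavg_inv [Fintype G] (𝒟 : Decomp M G E) (q : E → LinearMap.BilinForm ℝ C2) :
    QInv 𝒟 (qavg 𝒟 q) := by
  intro δ e u v
  rw [qavg_apply, qavg_apply]
  congr 1
  refine Fintype.sum_equiv (Equiv.mulRight δ) _ _ (fun γ => ?_)
  change _ = q ((γ * δ) • e) (𝒟.A (γ * δ) e u) (𝒟.A (γ * δ) e v)
  rw [A_mul hG, A_mul hG, mul_smul]

theorem avg_core [Fintype G]
    (𝒟 : Decomp M G E) {T1 : ℝ} (hT : T1 ≤ 11) {b : Bil M} {q : E → LinearMap.BilinForm ℝ C2}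
    (hb : Core 𝒟 T1 b q) : Core 𝒟 T1 (avg G b) (qavg 𝒟 q) := by
  have hc : (0 : ℝ) < 1 / (Fintype.card G : ℝ) := by
    have : 0 < Fintype.card G := Fintype.card_pos
    positivity
  refine ⟨?_, ?_, ?_, ?_, ?_, ?_⟩
  · intro e u v
    rw [qavg_apply, qavg_apply]
    congr 1
    exact Finset.sum_congr rfl (fun γ _ => hb.qsymm _ _ _)
  · intro e u hu
    rw [qavg_apply]
    refine mul_pos hc (Finset.sum_pos (fun γ _ => hb.qpos _ _ ?_) ⟨1, Finset.mem_univ _⟩)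
    intro h0
    exact hu (A_inj hG 𝒟 γ e u h0)
  · intro e u v
    rw [qavg_apply, qavg_apply]
    congr 1
    refine Finset.sum_congr rfl (fun γ _ => ?_)
    obtain ⟨h1, h2⟩ := bar_smul hG 𝒟 γ e
    rw [h2, h2, h1, hb.glue]
  · intro p hp
    rw [avg_apply]
    refine mul_pos hc (Finset.sum_pos (fun γ _ => ?_) ⟨1, Finset.mem_univ _⟩)
    have h1 := hb.Fpos _ (𝒟.actS γ p hp)
    rcases 𝒟.FInv γ p hp with h | h
    · rw [h]
      exact h1
    · rw [h, map_neg, map_neg, LinearMap.neg_apply, neg_neg]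
      exact h1
  · intro Φ W hW hS
    have hall := fun γ : G => hb.closed (fun z => γ • Φ z) W hW (sei_act hG 𝒟 hS γ)
    choose A c hA hAd hAc using hall
    have hdiff : ∀ γ, ∀ w ∈ W, DifferentiableAt ℝ (A γ) w := fun γ w hw =>
      ((hA γ w hw).contDiffAt (hS.isOpen.mem_nhds hw)).differentiableAt (by simp)
    refine ⟨fun w => (1 / (Fintype.card G : ℝ)) * ∑ γ, A γ w,
      (1 / (Fintype.card G : ℝ)) * ∑ γ, c γ, ?_, ?_, ?_⟩
    · exact contDiffOn_const.mul (ContDiffOn.sum (fun γ _ => hA γ))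
    · intro w hw u
      rw [avg_apply]
      have h1 : fderiv ℝ (fun w => (1 / (Fintype.card G : ℝ)) * ∑ γ, A γ w) w =
          (1 / (Fintype.card G : ℝ)) • ∑ γ, fderiv ℝ (A γ) w := by
        rw [fderiv_const_mul (DifferentiableAt.fun_sum (fun γ _ => hdiff γ w hw)),
          fderiv_fun_sum (fun γ _ => hdiff γ w hw)]
      rw [h1, ContinuousLinearMap.smul_apply, ContinuousLinearMap.sum_apply, smul_eq_mul]
      congr 1
      refine Finset.sum_congr rfl (fun γ _ => ?_)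
      rw [← hS.toIsParam.D_act hG hw, ← hS.toIsParam.D_act hG hw]
      exact hAd γ w hw u
    · intro w hw
      rw [avg_apply]
      congr 1
      refine Finset.sum_congr rfl (fun γ _ => ?_)
      rw [← hS.toIsParam.D_act hG hw]
      exact hAc γ w hw
  · intro e t x h1 h2 hS u
    have h1' : -1 < t := by linarith
    have h2' : t < 11 := by linarith
    rw [avg_apply, qavg_apply]
    congr 1
    refine Finset.sum_congr rfl (fun γ _ => ?_)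
    have hact := 𝒟.act γ e t x h1' h2'
    have hS' : 𝒟.J (γ • e) (pt t (𝒟.A γ e x + 𝒟.B γ e)) ∈ 𝒟.S := by
      rw [← hact]
      exact 𝒟.actS γ _ hS
    have h3 := hb.ends (γ • e) t _ h1 h2 hS' (pt (u 0) (𝒟.A γ e (tan u)))
    rw [tan_pt] at h3
    rw [dact_J hG 𝒟 γ e t x h1' h2', dact_J hG 𝒟 γ e t x h1' h2', hact, hor_zero_apply, tan_hor]
    change b (𝒟.J (γ • e) (pt t (𝒟.A γ e x + 𝒟.B γ e)))
      (D (𝒟.J (γ • e)) (pt t (𝒟.A γ e x + 𝒟.B γ e)) (hor (𝒟.A γ e (𝒟.f e)))) _ =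
      q (γ • e) (𝒟.A γ e (𝒟.f e)) (𝒟.A γ e (tan u))
    rcases A_f hG 𝒟 γ e t x h1 h2' hS with h4 | h4
    · rw [h4]
      exact h3
    · have hneg : ∀ y : C2, hor (-y) = -(hor y) := by
        intro y
        funext i
        fin_cases i
        · change (0 : ℝ) = -0
          exact neg_zero.symm
        · rfl
        · rfl
      rw [h4, hneg, map_neg, map_neg, map_neg, LinearMap.neg_apply, LinearMap.neg_apply, h3]

end

end NPCG
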