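import Pool.Agent.Lib.NPCG.Defs

/-! # NPCG: chain rules for parametrisations -/

open Set
open scoped Manifold ContDiff

namespace NPCG

variable {M : Type*} [TopologicalSpace M] [ChartedSpace E3 M]

theorem IsParam.cmdiffAt {Φ : C3 → M} {W : Set C3} (h : IsParam Φ W) {w : C3} (hw : w ∈ W) :
    ContMDiffAt 𝓘(ℝ, C3) (𝓡 3) ∞ Φ w :=
  (h.smooth w hw).contMDiffAt (h.isOpen.mem_nhds hw)

theorem IsParam.mdiff {Φ : C3 → M} {W : Set C3} (h : IsParam Φ W) {w : C3} (hw : w ∈ W) :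
    MDifferentiableAt 𝓘(ℝ, C3) (𝓡 3) Φ w :=
  (h.cmdiffAt hw).mdifferentiableAt (by simp)

theorem D_congr {Φ Φ' : C3 → M} {w : C3} (h : Φ =ᶠ[nhds w] Φ') : D Φ w = D Φ' w := by
  unfold D
  exact h.mfderiv_eq

theorem IsParam.D_comp {Φ : C3 → M} {W : Set C3} (h : IsParam Φ W) {σ : C3 → C3} {w : C3}
    (hσ : DifferentiableAt ℝ σ w) (hw : σ w ∈ W) (u : C3) :
    D (fun z => Φ (σ z)) w u = D Φ (σ w) (fderiv ℝ σ w u) := by
  have h1 : MDifferentiableAt 𝓘(ℝ, C3) 𝓘(ℝ, C3) σ w := hσ.mdifferentiableAt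
  have := mfderiv_comp (I := 𝓘(ℝ, C3)) (I' := 𝓘(ℝ, C3)) (I'' := 𝓡 3) w (h.mdiff hw) h1
  unfold D
  change (mfderiv 𝓘(ℝ, C3) (𝓡 3) (Φ ∘ σ) w) u = _
  rw [this, mfderiv_eq_fderiv]
  rfl

theorem IsParam.comp {Φ : C3 → M} {W : Set C3} (h : IsParam Φ W) {σ : C3 → C3} {W' : Set C3}
    (hW' : IsOpen W') (hσ : ContDiffOn ℝ ∞ σ W') (hm : ∀ w ∈ W', σ w ∈ W)
    (hi : ∀ w ∈ W', Function.Injective (fderiv ℝ σ w)) : IsParam (fun z => Φ (σ z)) W' := by
  refine ⟨hW', ?_, ?_⟩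
  · exact h.smooth.comp (hσ.contMDiffOn) (fun w hw => hm w hw)
  · intro w hw u v huv
    have hd : DifferentiableAt ℝ σ w :=
      ((hσ w hw).contDiffAt (hW'.mem_nhds hw)).differentiableAt (by simp)
    rw [h.D_comp hd (hm w hw), h.D_comp hd (hm w hw)] at huv
    exact hi w hw (h.inj _ (hm w hw) huv)

theorem IsParam.surj {Φ : C3 → M} {W : Set C3} (h : IsParam Φ W) {w : C3} (hw : w ∈ W) (v : E3) :
    ∃ u, D Φ w u = v := by
  have hinj := h.inj w hw
  have hfr : Module.finrank ℝ C3 = Module.finrank ℝ E3 := by simp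
  have := (LinearMap.injective_iff_surjective_of_finrank_eq_finrank (f := (D Φ w).toLinearMap)
    hfr).1 hinj
  exact this v

section Action

variable {G : Type*} [Group G] [MulAction G M]

theorem IsParam.D_act (hG : ∀ γ : G, ContMDiff (𝓡 3) (𝓡 3) ∞ (fun p : M => γ • p))
    {Φ : C3 → M} {W : Set C3} (h : IsParam Φ W) {w : C3} (hw : w ∈ W) (γ : G) (u : C3) :
    D (fun z => γ • Φ z) w u = dact γ (Φ w) (D Φ w u) := by
  have h1 : MDifferentiableAt (𝓡 3) (𝓡 3) (fun p : M => γ • p) (Φ w) :=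
    ((hG γ).mdifferentiable (by simp)) _
  have := mfderiv_comp (I := 𝓘(ℝ, C3)) (I' := 𝓡 3) (I'' := 𝓡 3) w h1 (h.mdiff hw)
  unfold D dact
  change (mfderiv 𝓘(ℝ, C3) (𝓡 3) ((fun p : M => γ • p) ∘ Φ) w) u = _
  rw [this]
  rfl

theorem dact_mul (hG : ∀ γ : G, ContMDiff (𝓡 3) (𝓡 3) ∞ (fun p : M => γ • p))
    (γ δ : G) (p : M) (u : E3) : dact (γ * δ) p u = dact γ (δ • p) (dact δ p u) := by
  have h1 : MDifferentiableAt (𝓡 3) (𝓡 3) (fun p : M => γ • p) (δ • p) :=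
    ((hG γ).mdifferentiable (by simp)) _
  have h2 : MDifferentiableAt (𝓡 3) (𝓡 3) (fun p : M => δ • p) p :=
    ((hG δ).mdifferentiable (by simp)) _
  have := mfderiv_comp (I := 𝓡 3) (I' := 𝓡 3) (I'' := 𝓡 3) p h1 h2
  have h3 : (fun x : M => (γ * δ) • x) = (fun p : M => γ • p) ∘ (fun p : M => δ • p) := by
    funext x; simp [mul_smul]
  unfold dact
  rw [h3, this]
  rfl

theorem dact_one (p : M) (u : E3) : dact (1 : G) p u = u := by
  have h3 : (fun x : M => (1 : G) • x) = id := by funext x; simp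
  unfold dact
  rw [h3, mfderiv_id]
  rfl

theorem dact_inv (hG : ∀ γ : G, ContMDiff (𝓡 3) (𝓡 3) ∞ (fun p : M => γ • p))
    (γ : G) (p : M) (u : E3) : dact γ⁻¹ (γ • p) (dact γ p u) = u := by
  rw [← dact_mul hG, inv_mul_cancel, dact_one]

theorem dact_injective (hG : ∀ γ : G, ContMDiff (𝓡 3) (𝓡 3) ∞ (fun p : M => γ • p))
    (γ : G) (p : M) : Function.Injective (dact γ p) := by
  intro u v huv
  rw [← dact_inv hG γ p u, huv, dact_inv hG]

theorem IsParam.act (hG : ∀ γ : G, ContMDiff (𝓡 3) (𝓡 3) ∞ (fun p : M => γ • p))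
    {Φ : C3 → M} {W : Set C3} (h : IsParam Φ W) (γ : G) : IsParam (fun z => γ • Φ z) W := by
  refine ⟨h.isOpen, ?_, ?_⟩
  · exact (hG γ).comp_contMDiffOn h.smooth
  · intro w hw u v huv
    rw [h.D_act hG hw, h.D_act hG hw] at huv
    exact h.inj w hw (dact_injective hG γ _ huv)

end Action

/-! ### Coordinates on the collars -/

@[simp] theorem pt_zero (t : ℝ) (x : C2) : pt t x 0 = t := rfl
@[simp] theorem tan_pt (t : ℝ) (x : C2) : tan (pt t x) = x := by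
  funext i; fin_cases i <;> rfl
@[simp] theorem tan_hor (x : C2) : tan (hor x) = x := by
  funext i; fin_cases i <;> rfl
@[simp] theorem hor_zero_apply (x : C2) : hor x 0 = 0 := rfl
theorem pt_eta (w : C3) : pt (w 0) (tan w) = w := by
  funext i; fin_cases i <;> rfl
theorem hor_injective : Function.Injective hor := by
  intro x y h
  rw [← tan_hor x, h, tan_hor]

end NPCG
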