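import Pool.Agent.Lib.NPCG.Core

/-! # NPCG.Der: derivatives on the collars -/

open Set
open scoped Manifold ContDiff

namespace NPCG

variable {M : Type*} [TopologicalSpace M] [ChartedSpace E3 M]
variable {G : Type*} [Group G] [MulAction G M] {E : Type*} [MulAction G E]

/-! ### Derivatives on the collars -/

/-- The open domain of the half-collars. -/
def dom : Set C3 := {w | -1 < w 0 ∧ w 0 < 11}

theorem mem_dom {t : ℝ} {x : C2} (h1 : -1 < t) (h2 : t < 11) : pt t x ∈ dom := ⟨h1, h2⟩

theorem hasFDerivAt_add_const (a w : C3) :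
    HasFDerivAt (fun z : C3 => z + a) (ContinuousLinearMap.id ℝ C3) w :=
  (hasFDerivAt_id w).add_const a

theorem D_period (𝒟 : Decomp M G E) (e : E) (t : ℝ) (x : C2) (n : Fin 2 → ℤ) (h1 : -1 < t)
    (h2 : t < 11) (u : C3) :
    D (𝒟.J e) (pt t (x + int n)) u = D (𝒟.J e) (pt t x) u := by
  have hp := 𝒟.param e
  have hf : (fun z : C3 => 𝒟.J e (z + hor (int n))) = 𝒟.J e := by
    funext z
    have : z + hor (int n) = pt (z 0) (tan z + int n) := by
      funext i; fin_cases i <;> simp [pt, hor, tan]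
    rw [this, 𝒟.period, pt_eta]
  have hpt : pt t x + hor (int n) = pt t (x + int n) := by
    funext i; fin_cases i <;> simp [pt, hor]
  have h := hp.D_comp (σ := fun z => z + hor (int n)) (w := pt t x)
    (hasFDerivAt_add_const _ _).differentiableAt
    (by rw [hpt]; exact mem_dom h1 h2) u
  rw [hf, (hasFDerivAt_add_const _ _).fderiv, hpt] at h
  exact h.symm

/-- The gluing map `(t, x) ↦ (-t, T x + c)`. -/
noncomputable def gmap (T : C2 →ₗ[ℝ] C2) (c : C2) (z : C3) : C3 := pt (-z 0) (T (tan z) + c)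

/-- The linear map `u ↦ (r u_0, T u')`. -/
noncomputable def lmap (r : ℝ) (T : C2 →ₗ[ℝ] C2) : C3 →ₗ[ℝ] C3 where
  toFun u := pt (r * u 0) (T (tan u))
  map_add' u v := by
    have : tan (u + v) = tan u + tan v := by funext i; fin_cases i <;> rfl
    simp only [this, map_add, Pi.add_apply]
    funext i; fin_cases i <;> simp [pt, mul_add]
  map_smul' c u := by
    have : tan (c • u) = c • tan u := by funext i; fin_cases i <;> rfl
    simp only [this, map_smul, Pi.smul_apply]
    funext i; fin_cases i <;> simp [pt]; ring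

@[simp] theorem lmap_apply (r : ℝ) (T : C2 →ₗ[ℝ] C2) (u : C3) :
    lmap r T u = pt (r * u 0) (T (tan u)) := rfl

theorem hasFDerivAt_gmap (T : C2 →ₗ[ℝ] C2) (c : C2) (w : C3) :
    HasFDerivAt (gmap T c) (LinearMap.toContinuousLinearMap (lmap (-1) T)) w := by
  have h1 : gmap T c = fun z => LinearMap.toContinuousLinearMap (lmap (-1) T) z + hor c := by
    funext z
    simp only [gmap, LinearMap.coe_toContinuousLinearMap', lmap_apply]
    funext i; fin_cases i <;> simp [pt, hor]
  rw [h1]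
  exact (ContinuousLinearMap.hasFDerivAt _).add_const _

theorem D_glue (𝒟 : Decomp M G E) (e : E) (t : ℝ) (x : C2) (h1 : -1 < t) (h2 : t < 1) (u : C3) :
    D (𝒟.J (𝒟.bar e)) (pt (-t) (𝒟.T e x + 𝒟.c e)) (pt (-u 0) (𝒟.T e (tan u))) =
      D (𝒟.J e) (pt t x) u := by
  have hp := 𝒟.param (𝒟.bar e)
  have hg : gmap (𝒟.T e) (𝒟.c e) (pt t x) = pt (-t) (𝒟.T e x + 𝒟.c e) := by
    simp [gmap]
  have h := hp.D_comp (σ := gmap (𝒟.T e) (𝒟.c e)) (w := pt t x)
    (hasFDerivAt_gmap _ _ _).differentiableAt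
    (by rw [hg]; exact mem_dom (by linarith) (by linarith)) u
  rw [(hasFDerivAt_gmap _ _ _).fderiv, hg] at h
  simp only [LinearMap.coe_toContinuousLinearMap', lmap_apply, neg_mul, one_mul] at h
  rw [← h]
  congr 1
  apply D_congr
  have ho : {z : C3 | -1 < z 0 ∧ z 0 < 1} ∈ nhds (pt t x) := by
    apply IsOpen.mem_nhds
    · exact (isOpen_lt continuous_const (continuous_apply 0)).inter
        (isOpen_lt (continuous_apply 0) continuous_const)
    · exact ⟨h1, h2⟩
  filter_upwards [ho] with z hz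
  have := 𝒟.glue e (z 0) (tan z) hz.1 hz.2
  rw [pt_eta] at this
  exact this


theorem pt_neg_zero_hor (T : C2 →ₗ[ℝ] C2) (u : C2) :
    pt (-(hor u) 0) (T (tan (hor u))) = hor (T u) := by
  rw [tan_hor]
  funext i; fin_cases i <;> simp [pt, hor]

end NPCG
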