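import Pool.Agent.Lib.NPCG.Curv
import Pool.Agent.Lib.NPCG.Der
import Pool.Agent.Lib.NPCG.Avg

/-! # NPCG.Coll: the metric, and its form on the collars -/

open Set
open scoped Manifold ContDiff

namespace NPCG

variable {M : Type*} [TopologicalSpace M] [ChartedSpace E3 M]
variable {G : Type*} [Group G] [MulAction G M] {E : Type*} [MulAction G E]

/-- The end `e` belongs to a Seifert piece. -/
def Decomp.IsSeiEnd (𝒟 : Decomp M G E) (e : E) : Prop :=
  ∀ t x, 10 < t → t < 11 → 𝒟.J e (pt t x) ∈ 𝒟.S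

theorem Decomp.not_mem_H (𝒟 : Decomp M G E) {p : M} (h : p ∈ 𝒟.S) : p ∉ 𝒟.H :=
  fun h' => Set.disjoint_left.1 𝒟.disj h' h

theorem Decomp.isSeiEnd_of_mem (𝒟 : Decomp M G E) {e : E} {t : ℝ} {x : C2} (h1 : 10 < t)
    (h2 : t < 11) (h : 𝒟.J e (pt t x) ∈ 𝒟.S) : 𝒟.IsSeiEnd e := by
  rcases 𝒟.ends e with h' | h'
  · exact absurd (h' t x h1 h2) (𝒟.not_mem_H h)
  · exact h'

theorem Decomp.mem_H_of_not (𝒟 : Decomp M G E) {e : E} (he : ¬ 𝒟.IsSeiEnd e) {t : ℝ} {x : C2}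
    (h1 : 10 < t) (h2 : t < 11) : 𝒟.J e (pt t x) ∈ 𝒟.H := by
  rcases 𝒟.ends e with h' | h'
  · exact h' t x h1 h2
  · exact absurd h' he

/-- The form `q(f,·)²/q(f,f)`. -/
noncomputable def fpart (q : LinearMap.BilinForm ℝ C2) (f : C2) : LinearMap.BilinForm ℝ C2 :=
  (q f f)⁻¹ • ((LinearMap.lsmul ℝ ℝ).compl₁₂ (q f) (q f))

theorem fpart_apply (q : LinearMap.BilinForm ℝ C2) (f u v : C2) :
    fpart q f u v = q f u * q f v / q f f := by
  simp [fpart]; ring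

open Classical in
/-- `q(f,·)²/q(f,f)` at Seifert ends, `0` at hyperbolic ends. -/
noncomputable def Decomp.s (𝒟 : Decomp M G E) (q : E → LinearMap.BilinForm ℝ C2) (e : E) :
    LinearMap.BilinForm ℝ C2 :=
  if 𝒟.IsSeiEnd e then fpart (q e) (𝒟.f e) else 0

/-- The metric of the tori `{t} × T` of the half-collar `e`. -/
noncomputable def Decomp.P (𝒟 : Decomp M G E) (a β : ℝ → ℝ) (ε : ℝ)
    (q : E → LinearMap.BilinForm ℝ C2) (e : E) (t : ℝ) : LinearMap.BilinForm ℝ C2 :=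
  a t • 𝒟.q0 e + (ε * β t) • (q e - 𝒟.s q e) + ε • 𝒟.s q e

/-- A left inverse of `D Φ w`. -/
noncomputable def DI (Φ : C3 → M) (w : C3) : E3 →ₗ[ℝ] C3 :=
  open Classical in
  if h : LinearMap.ker (D Φ w).toLinearMap = ⊥ then
    Classical.choose ((D Φ w).toLinearMap.exists_leftInverse_of_injective h) else 0

theorem IsParam.DI_D {Φ : C3 → M} {W : Set C3} (h : IsParam Φ W) {w : C3} (hw : w ∈ W) (u : C3) :
    DI Φ w (D Φ w u) = u := by
  have hk : LinearMap.ker (D Φ w).toLinearMap = ⊥ := LinearMap.ker_eq_bot.2 (h.inj w hw)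
  unfold DI
  rw [dif_pos hk]
  have := Classical.choose_spec ((D Φ w).toLinearMap.exists_leftInverse_of_injective hk)
  exact LinearMap.congr_fun this u

/-- The bilinear form `u 0 * v 0 + Q (tan u) (tan v)` on `ℝ³`. -/
noncomputable def colForm (Q : LinearMap.BilinForm ℝ C2) : LinearMap.BilinForm ℝ C3 :=
  LinearMap.mk₂ ℝ (fun u v => u 0 * v 0 + Q (tan u) (tan v))
    (by
      intro u u' v
      have : tan (u + u') = tan u + tan u' := by funext i; fin_cases i <;> rfl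
      simp only [this, Pi.add_apply, map_add, LinearMap.add_apply]; ring)
    (by
      intro c u v
      have : tan (c • u) = c • tan u := by funext i; fin_cases i <;> rfl
      simp only [this, Pi.smul_apply, map_smul, LinearMap.smul_apply, smul_eq_mul]; ring)
    (by
      intro u v v'
      have : tan (v + v') = tan v + tan v' := by funext i; fin_cases i <;> rfl
      simp only [this, Pi.add_apply, map_add]; ring)
    (by
      intro c u v
      have : tan (c • v) = c • tan v := by funext i; fin_cases i <;> rfl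
      simp only [this, Pi.smul_apply, map_smul, smul_eq_mul]; ring)

@[simp] theorem colForm_apply (Q : LinearMap.BilinForm ℝ C2) (u v : C3) :
    colForm Q u v = u 0 * v 0 + Q (tan u) (tan v) := rfl

/-- The form `b(F,·)²/b(F,F)` at a point. -/
noncomputable def Fpart (b : LinearMap.BilinForm ℝ E3) (F : E3) : LinearMap.BilinForm ℝ E3 :=
  (b F F)⁻¹ • ((LinearMap.lsmul ℝ ℝ).compl₁₂ (b F) (b F))

theorem Fpart_apply (b : LinearMap.BilinForm ℝ E3) (F u v : E3) :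
    Fpart b F u v = b F u * b F v / b F F := by
  simp [Fpart]; ring

open Classical in
/-- The invariant metric. -/
noncomputable def Decomp.met (𝒟 : Decomp M G E) (a β : ℝ → ℝ) (ε : ℝ) (b : Bil M)
    (q : E → LinearMap.BilinForm ℝ C2) : Bil M := fun p =>
  if p ∈ 𝒟.S then 𝒟.ref p + ε • Fpart (b p) (𝒟.F p)
  else if p ∈ 𝒟.H then 𝒟.ref p
  else if h : ∃ (y : E × ℝ × C2), -1 < y.2.1 ∧ y.2.1 ≤ 10 ∧ 𝒟.J y.1 (pt y.2.1 y.2.2) = p then
    (colForm (𝒟.P a β ε q h.choose.1 h.choose.2.1)).compl₁₂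
      (DI (𝒟.J h.choose.1) (pt h.choose.2.1 h.choose.2.2))
      (DI (𝒟.J h.choose.1) (pt h.choose.2.1 h.choose.2.2))
  else 0

/-! ### The metric on the collars -/

theorem P_of_le {𝒟 : Decomp M G E} {a β : ℝ → ℝ} {ε : ℝ} {q : E → LinearMap.BilinForm ℝ C2}
    {t : ℝ} (ha : a t = 0) (hβ : β t = 1) (e : E) (u v : C2) :
    𝒟.P a β ε q e t u v = ε * q e u v := by
  simp [Decomp.P, ha, hβ]; ring

theorem met_of_S (𝒟 : Decomp M G E) (a β : ℝ → ℝ) (ε : ℝ) (b : Bil M)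
    (q : E → LinearMap.BilinForm ℝ C2) {p : M} (hp : p ∈ 𝒟.S) (u v : E3) :
    𝒟.met a β ε b q p u v = 𝒟.ref p u v +
      ε * (b p (𝒟.F p) u * b p (𝒟.F p) v / b p (𝒟.F p) (𝒟.F p)) := by
  simp only [Decomp.met, if_pos hp, LinearMap.add_apply, LinearMap.smul_apply, Fpart_apply,
    smul_eq_mul]

theorem met_of_H (𝒟 : Decomp M G E) (a β : ℝ → ℝ) (ε : ℝ) (b : Bil M)
    (q : E → LinearMap.BilinForm ℝ C2) {p : M} (hp : p ∈ 𝒟.H) (u v : E3) :
    𝒟.met a β ε b q p u v = 𝒟.ref p u v := by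
  have : p ∉ 𝒟.S := fun h => 𝒟.not_mem_H h hp
  simp only [Decomp.met, if_neg this, if_pos hp]

theorem met_collar (𝒟 : Decomp M G E) {a β : ℝ → ℝ} (ε : ℝ) {T1 : ℝ} (hT : T1 ≤ 11)
    (hT' : 10 < T1) {b : Bil M} {q : E → LinearMap.BilinForm ℝ C2} (h : Core 𝒟 T1 b q)
    (ha : ∀ t ≤ 1, a t = 0 ∧ β t = 1) (ha' : ∀ t, 10 ≤ t → a t = Real.exp (2 * t) ∧ β t = 0)
    (e : E) (t : ℝ) (x : C2) (h1 : -1 < t) (h2' : t < T1) (u v : C3) :
    𝒟.met a β ε b q (𝒟.J e (pt t x)) (D (𝒟.J e) (pt t x) u) (D (𝒟.J e) (pt t x) v) =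
      u 0 * v 0 + 𝒟.P a β ε q e t (tan u) (tan v) := by
  have h2 : t < 11 := by linarith
  by_cases ht : 10 < t
  · by_cases hS : 𝒟.IsSeiEnd e
    · -- Seifert end
      have hm := hS t x ht h2
      rw [met_of_S _ _ _ _ _ _ hm, 𝒟.refEnd e t x ht h2]
      have hF := 𝒟.fEnd e t x ht h2 hm
      have hb := h.ends e t x ht h2' hm
      obtain ⟨hA, hB⟩ := ha' t ht.le
      simp only [Decomp.P, Decomp.s, if_pos hS, LinearMap.add_apply, LinearMap.smul_apply,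
        LinearMap.sub_apply, fpart_apply, smul_eq_mul, hA, hB]
      have key : b (𝒟.J e (pt t x)) (𝒟.F (𝒟.J e (pt t x))) (D (𝒟.J e) (pt t x) u) *
          b (𝒟.J e (pt t x)) (𝒟.F (𝒟.J e (pt t x))) (D (𝒟.J e) (pt t x) v) /
          b (𝒟.J e (pt t x)) (𝒟.F (𝒟.J e (pt t x))) (𝒟.F (𝒟.J e (pt t x))) =
          q e (𝒟.f e) (tan u) * q e (𝒟.f e) (tan v) / q e (𝒟.f e) (𝒟.f e) := by
        have hff := hb (hor (𝒟.f e))
        rw [tan_hor] at hff
        rcases hF with hF | hF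
        · rw [← hF, hb u, hb v, hff]
        · have hF' : 𝒟.F (𝒟.J e (pt t x)) = -D (𝒟.J e) (pt t x) (hor (𝒟.f e)) := by
            rw [hF, neg_neg]
          rw [hF']
          simp only [map_neg, LinearMap.neg_apply, neg_neg, neg_mul_neg]
          rw [hb u, hb v, hff]
      rw [key]; ring
    · have hm := 𝒟.mem_H_of_not hS (x := x) ht h2
      rw [met_of_H _ _ _ _ _ _ hm, 𝒟.refEnd e t x ht h2]
      obtain ⟨hA, hB⟩ := ha' t ht.le
      simp only [Decomp.P, Decomp.s, if_neg hS, LinearMap.add_apply, LinearMap.smul_apply,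
        smul_eq_mul, hA, hB, LinearMap.sub_apply, LinearMap.zero_apply]
      ring
  · -- the middle part
    have ht' : t ≤ 10 := not_lt.1 ht
    have hmid := 𝒟.mid e t x h1 ht'
    have hnS : 𝒟.J e (pt t x) ∉ 𝒟.S := fun h => hmid (Or.inr h)
    have hnH : 𝒟.J e (pt t x) ∉ 𝒟.H := fun h => hmid (Or.inl h)
    have hex : ∃ (y : E × ℝ × C2), -1 < y.2.1 ∧ y.2.1 ≤ 10 ∧
        𝒟.J y.1 (pt y.2.1 y.2.2) = 𝒟.J e (pt t x) := ⟨(e, t, x), h1, ht', rfl⟩
    have hmet : 𝒟.met a β ε b q (𝒟.J e (pt t x)) =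
        (colForm (𝒟.P a β ε q hex.choose.1 hex.choose.2.1)).compl₁₂
          (DI (𝒟.J hex.choose.1) (pt hex.choose.2.1 hex.choose.2.2))
          (DI (𝒟.J hex.choose.1) (pt hex.choose.2.1 hex.choose.2.2)) := by
      simp only [Decomp.met, if_neg hnS, if_neg hnH, dif_pos hex]
    rw [hmet]
    obtain ⟨k1, k2, k3⟩ := hex.choose_spec
    generalize hex.choose = y at k1 k2 k3 ⊢
    obtain ⟨e', t', x'⟩ := y
    simp only at k1 k2 k3 ⊢
    have k4 : t' < 11 := by linarith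
    rw [LinearMap.compl₁₂_apply]
    rcases 𝒟.inj e e' t t' x x' h1 h2 k1 k4 k3.symm with ⟨rfl, rfl, n, rfl⟩ | ⟨rfl, rfl, n, rfl⟩
    · rw [← D_period 𝒟 e' t' x n h1 h2 u, ← D_period 𝒟 e' t' x n h1 h2 v,
        (𝒟.param e').DI_D (mem_dom k1 k4), (𝒟.param e').DI_D (mem_dom k1 k4), colForm_apply]
    · have ht1 : t < 1 := by linarith
      rw [← D_glue 𝒟 e t x h1 ht1 u, ← D_glue 𝒟 e t x h1 ht1 v,
        ← D_period 𝒟 (𝒟.bar e) (-t) (𝒟.T e x + 𝒟.c e) n k1 k4,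
        ← D_period 𝒟 (𝒟.bar e) (-t) (𝒟.T e x + 𝒟.c e) n k1 k4,
        (𝒟.param (𝒟.bar e)).DI_D (mem_dom k1 k4), (𝒟.param (𝒟.bar e)).DI_D (mem_dom k1 k4),
        colForm_apply]
      obtain ⟨hA, hB⟩ := ha t ht1.le
      obtain ⟨hA', hB'⟩ := ha (-t) (by linarith)
      simp only [pt_zero, tan_pt]
      rw [P_of_le hA' hB', P_of_le hA hB, h.glue]
      ring

end NPCG
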