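import Pool.Agent.Lib.NPCG.Chain

/-! # NPCG.Core: solutions in standard form -/

open Set
open scoped Manifold ContDiff

namespace NPCG

variable {M : Type*} [TopologicalSpace M] [ChartedSpace E3 M]
variable {G : Type*} [Group G] [MulAction G M] {E : Type*} [MulAction G E]

/-- A solution of the compatibility equations in standard form: `b(F, ·) = q e (f e, ·)` on the part
`10 < t < T1` of the collars of the Seifert ends. Only `b(F, ·)` matters. -/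
structure Core (𝒟 : Decomp M G E) (T1 : ℝ) (b : Bil M) (q : E → LinearMap.BilinForm ℝ C2) :
    Prop where
  qsymm : ∀ e u v, q e u v = q e v u
  qpos : ∀ e u, u ≠ 0 → 0 < q e u u
  glue : ∀ e u v, q (𝒟.bar e) (𝒟.T e u) (𝒟.T e v) = q e u v
  Fpos : ∀ p ∈ 𝒟.S, 0 < b p (𝒟.F p) (𝒟.F p)
  closed : ∀ Φ W, Convex ℝ W → IsSei 𝒟.S 𝒟.ref 𝒟.F Φ W →
    ∃ (A : C3 → ℝ) (c : ℝ), ContDiffOn ℝ ∞ A W ∧
      (∀ w ∈ W, ∀ u, b (Φ w) (D Φ w (Pi.single 2 1)) (D Φ w u) = fderiv ℝ A w u) ∧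
      ∀ w ∈ W, b (Φ w) (D Φ w (Pi.single 2 1)) (D Φ w (Pi.single 2 1)) = c
  ends : ∀ e t x, 10 < t → t < T1 → 𝒟.J e (pt t x) ∈ 𝒟.S → ∀ u,
    b (𝒟.J e (pt t x)) (D (𝒟.J e) (pt t x) (hor (𝒟.f e))) (D (𝒟.J e) (pt t x) u) =
      q e (𝒟.f e) (tan u)

/-- `q` is invariant. -/
def QInv (𝒟 : Decomp M G E) (q : E → LinearMap.BilinForm ℝ C2) : Prop :=
  ∀ (γ : G) e u v, q (γ • e) (𝒟.A γ e u) (𝒟.A γ e v) = q e u v

end NPCG
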