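import Pool.Agent.Lib.NPCG.Prof

/-! # NPCG.Curv: curvature of `dt² + ψ₁(t)dx² + ψ₂(t)dy²`

Near every point the matrix `Matrix.of (dg ψ1 ψ2 w)` is `diagonal ![1, ψ1, ψ2]`, its inverse is
`diagonal ![1, 1/ψ1, 1/ψ2]` (ψi > 0). All Christoffel symbols are functions of `w 0` only.
-/

open Set
open scoped Manifold ContDiff

namespace NPCG

theorem Prof.exp : Prof (fun t => Real.exp (2 * t)) := by
  have h1 : ∀ t : ℝ, HasDerivAt (fun t => Real.exp (2 * t)) (2 * Real.exp (2 * t)) t := by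
    intro t
    have := ((hasDerivAt_id t).const_mul 2).exp
    simpa [mul_comm] using this
  have hd : deriv (fun t => Real.exp (2 * t)) = fun t => 2 * Real.exp (2 * t) := by
    funext t; exact (h1 t).deriv
  have hd2 : deriv (fun t => 2 * Real.exp (2 * t)) = fun t => 4 * Real.exp (2 * t) := by
    funext t
    rw [((h1 t).const_mul 2).deriv]; ring
  refine ⟨?_, fun t => Real.exp_pos _, ?_, ?_⟩
  · exact Real.contDiff_exp.comp (contDiff_const.mul contDiff_id)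
  · intro t; rw [hd]; positivity
  · intro t
    rw [hd, hd2]
    nlinarith [Real.exp_pos (2 * t), mul_pos (Real.exp_pos (2 * t)) (Real.exp_pos (2 * t))]

theorem Prof.const {c : ℝ} (hc : 0 < c) : Prof (fun _ => c) := by
  refine ⟨contDiff_const, fun _ => hc, ?_, ?_⟩
  · intro t; simp
  · intro t; simp

theorem pd_congr {f f' : C3 → ℝ} {w : C3} (h : f =ᶠ[nhds w] f') (k : Fin 3) :
    pd f k =ᶠ[nhds w] pd f' k := by
  filter_upwards [eventually_eventually_nhds.2 h] with z hz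
  unfold pd
  rw [Filter.EventuallyEq.fderiv_eq hz]

theorem chr_congr {g g' : Met} {w : C3} (h : g =ᶠ[nhds w] g') (l i j : Fin 3) :
    chr g l i j =ᶠ[nhds w] chr g' l i j := by
  have hc : ∀ a b, (fun z => g z a b) =ᶠ[nhds w] (fun z => g' z a b) := by
    intro a b
    filter_upwards [h] with z hz
    rw [hz]
  have hp : ∀ a b k, ∀ᶠ z in nhds w, pd (fun z => g z a b) k z = pd (fun z => g' z a b) k z :=
    fun a b k => pd_congr (hc a b) k
  have hp' : ∀ᶠ z in nhds w, ∀ a b k,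
      pd (fun z => g z a b) k z = pd (fun z => g' z a b) k z := by
    rw [Filter.eventually_all]; intro a
    rw [Filter.eventually_all]; intro b
    rw [Filter.eventually_all]; intro k
    exact hp a b k
  filter_upwards [h, hp'] with z hz hz'
  unfold chr
  rw [hz]
  simp only [hz']

theorem riem_congr {g g' : Met} {w : C3} (h : g =ᶠ[nhds w] g') (l k i j : Fin 3) :
    riem g l k i j w = riem g' l k i j w := by
  unfold riem
  rw [(pd_congr (chr_congr h l j k) i).self_of_nhds, (pd_congr (chr_congr h l i k) j).self_of_nhds]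
  simp only [fun a b c => (chr_congr h a b c).self_of_nhds]

/-- `SecNonpos` only depends on the germ. -/
theorem SecNonpos.congr {g g' : Met} {w : C3} (h : g =ᶠ[nhds w] g') (hg : SecNonpos g' w) :
    SecNonpos g w := by
  intro X Y
  have := hg X Y
  simp only [h.self_of_nhds, riem_congr h]
  exact this

/-- The partial derivatives of a function of `t`. -/
theorem pd_zero {F : ℝ → ℝ} {w : C3} (hF : DifferentiableAt ℝ F (w 0)) (k : Fin 3) :
    pd (fun z : C3 => F (z 0)) k w = if k = 0 then deriv F (w 0) else 0 := by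
  have h1 : HasFDerivAt (fun z : C3 => z 0) (ContinuousLinearMap.proj (R := ℝ) (φ := fun _ : Fin 3 => ℝ) 0) w :=
    (ContinuousLinearMap.proj (R := ℝ) (φ := fun _ : Fin 3 => ℝ) 0).hasFDerivAt
  have h2 := hF.hasDerivAt.comp_hasFDerivAt w h1
  unfold pd
  have h3 : (fun z : C3 => F (z 0)) = F ∘ (fun z : C3 => z 0) := rfl
  rw [h3, h2.fderiv]
  simp [Pi.single_apply, eq_comm]

/-- The Christoffel symbols of `dg ψ1 ψ2`. -/
noncomputable def Gam (ψ1 ψ2 : ℝ → ℝ) (l i j : Fin 3) (t : ℝ) : ℝ :=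
  if l = 0 ∧ i = 1 ∧ j = 1 then -(deriv ψ1 t) / 2
  else if l = 0 ∧ i = 2 ∧ j = 2 then -(deriv ψ2 t) / 2
  else if l = 1 ∧ ((i = 0 ∧ j = 1) ∨ (i = 1 ∧ j = 0)) then deriv ψ1 t / (2 * ψ1 t)
  else if l = 2 ∧ ((i = 0 ∧ j = 2) ∨ (i = 2 ∧ j = 0)) then deriv ψ2 t / (2 * ψ2 t)
  else 0

theorem inv_dg {ψ1 ψ2 : ℝ → ℝ} (h1 : ∀ t, 0 < ψ1 t) (h2 : ∀ t, 0 < ψ2 t) (w : C3) :
    (Matrix.of (dg ψ1 ψ2 w))⁻¹ = Matrix.diagonal ![1, (ψ1 (w 0))⁻¹, (ψ2 (w 0))⁻¹] := by
  have hd : Matrix.of (dg ψ1 ψ2 w) = Matrix.diagonal ![1, ψ1 (w 0), ψ2 (w 0)] := by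
    ext i j
    simp only [Matrix.of_apply, dg, Matrix.diagonal_apply]
  rw [hd]
  apply Matrix.inv_eq_right_inv
  rw [Matrix.diagonal_mul_diagonal]
  rw [← Matrix.diagonal_one]
  congr 1
  funext i
  have := (h1 (w 0)).ne'
  have := (h2 (w 0)).ne'
  fin_cases i <;> simp [*]

theorem pd_dg {ψ1 ψ2 : ℝ → ℝ} (h1 : Prof ψ1) (h2 : Prof ψ2) (a b k : Fin 3) (w : C3) :
    pd (fun z => dg ψ1 ψ2 z a b) k w =
      if k = 0 ∧ a = b then ![0, deriv ψ1 (w 0), deriv ψ2 (w 0)] a else 0 := by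
  have d1 : DifferentiableAt ℝ ψ1 (w 0) := h1.smooth.contDiffAt.differentiableAt (by simp)
  have d2 : DifferentiableAt ℝ ψ2 (w 0) := h2.smooth.contDiffAt.differentiableAt (by simp)
  have hc : ∀ c : ℝ, pd (fun _ : C3 => c) k w = 0 := by
    intro c; unfold pd; simp
  unfold dg
  by_cases hab : a = b
  · subst hab
    fin_cases a
    · simpa using hc 1
    · have := pd_zero (w := w) d1 k
      simpa using this
    · have := pd_zero (w := w) d2 k
      simpa using this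
  · simp [hab, hc]

theorem chr_dg {ψ1 ψ2 : ℝ → ℝ} (h1 : Prof ψ1) (h2 : Prof ψ2) (l i j : Fin 3) :
    chr (dg ψ1 ψ2) l i j = fun w => Gam ψ1 ψ2 l i j (w 0) := by
  funext w
  unfold chr
  rw [inv_dg h1.pos h2.pos]
  simp only [pd_dg h1 h2]
  have e1 := (h1.pos (w 0)).ne'
  have e2 := (h2.pos (w 0)).ne'
  fin_cases l <;> fin_cases i <;> fin_cases j <;>
    simp [Fin.sum_univ_three, Matrix.diagonal_apply, Gam] <;> field_simp

/-- The derivatives of the Christoffel symbols of `dg ψ1 ψ2`. -/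
noncomputable def dGam (ψ1 ψ2 : ℝ → ℝ) (l i j : Fin 3) (t : ℝ) : ℝ :=
  if l = 0 ∧ i = 1 ∧ j = 1 then -(deriv (deriv ψ1) t) / 2
  else if l = 0 ∧ i = 2 ∧ j = 2 then -(deriv (deriv ψ2) t) / 2
  else if l = 1 ∧ ((i = 0 ∧ j = 1) ∨ (i = 1 ∧ j = 0)) then
    (deriv (deriv ψ1) t * (2 * ψ1 t) - deriv ψ1 t * (2 * deriv ψ1 t)) / (2 * ψ1 t) ^ 2
  else if l = 2 ∧ ((i = 0 ∧ j = 2) ∨ (i = 2 ∧ j = 0)) then
    (deriv (deriv ψ2) t * (2 * ψ2 t) - deriv ψ2 t * (2 * deriv ψ2 t)) / (2 * ψ2 t) ^ 2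
  else 0

theorem Prof.hasDerivAt {ψ : ℝ → ℝ} (h : Prof ψ) (t : ℝ) : HasDerivAt ψ (deriv ψ t) t :=
  (h.smooth.contDiffAt.differentiableAt (by simp)).hasDerivAt

theorem Prof.hasDerivAt' {ψ : ℝ → ℝ} (h : Prof ψ) (t : ℝ) :
    HasDerivAt (deriv ψ) (deriv (deriv ψ) t) t := by
  have h1 : ContDiff ℝ ∞ (deriv ψ) := (contDiff_infty_iff_deriv.1 h.smooth).2
  exact (h1.contDiffAt.differentiableAt (by simp)).hasDerivAt

theorem hasDerivAt_Gam {ψ1 ψ2 : ℝ → ℝ} (h1 : Prof ψ1) (h2 : Prof ψ2) (l i j : Fin 3) (t : ℝ) :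
    HasDerivAt (Gam ψ1 ψ2 l i j) (dGam ψ1 ψ2 l i j t) t := by
  have e1 : 2 * ψ1 t ≠ 0 := by have := h1.pos t; positivity
  have e2 : 2 * ψ2 t ≠ 0 := by have := h2.pos t; positivity
  unfold dGam
  split_ifs with c1 c2 c3 c4
  · have : Gam ψ1 ψ2 l i j = fun t => -(deriv ψ1 t) / 2 := by
      funext t; unfold Gam; simp [c1]
    rw [this]
    exact ((h1.hasDerivAt' t).neg).div_const 2
  · have : Gam ψ1 ψ2 l i j = fun t => -(deriv ψ2 t) / 2 := by
      funext t; unfold Gam; simp [c2]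
    rw [this]
    exact ((h2.hasDerivAt' t).neg).div_const 2
  · have : Gam ψ1 ψ2 l i j = fun t => deriv ψ1 t / (2 * ψ1 t) := by
      funext t; unfold Gam; simp [c1, c2, c3]
    rw [this]
    exact (h1.hasDerivAt' t).div ((h1.hasDerivAt t).const_mul 2) e1
  · have : Gam ψ1 ψ2 l i j = fun t => deriv ψ2 t / (2 * ψ2 t) := by
      funext t; unfold Gam; simp [c1, c2, c3, c4]
    rw [this]
    exact (h2.hasDerivAt' t).div ((h2.hasDerivAt t).const_mul 2) e2
  · have : Gam ψ1 ψ2 l i j = fun t => 0 := by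
      funext t; unfold Gam; simp [c1, c2, c3, c4]
    rw [this]
    exact hasDerivAt_const _ _

theorem pd_chr {ψ1 ψ2 : ℝ → ℝ} (h1 : Prof ψ1) (h2 : Prof ψ2) (l i j k : Fin 3) (w : C3) :
    pd (chr (dg ψ1 ψ2) l i j) k w = if k = 0 then dGam ψ1 ψ2 l i j (w 0) else 0 := by
  rw [chr_dg h1 h2, pd_zero (hasDerivAt_Gam h1 h2 l i j (w 0)).differentiableAt,
    (hasDerivAt_Gam h1 h2 l i j (w 0)).deriv]

/-- The sectional curvatures of the coordinate planes. -/
noncomputable def KK (a1 b1 c1 a2 b2 c2 : ℝ) (i j : Fin 3) : ℝ :=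
  if (i = 0 ∧ j = 1) ∨ (i = 1 ∧ j = 0) then -(2 * a1 * c1 - b1 ^ 2) / (4 * a1 ^ 2)
  else if (i = 0 ∧ j = 2) ∨ (i = 2 ∧ j = 0) then -(2 * a2 * c2 - b2 ^ 2) / (4 * a2 ^ 2)
  else if (i = 1 ∧ j = 2) ∨ (i = 2 ∧ j = 1) then -(b1 * b2) / (4 * a1 * a2)
  else 0

theorem riem_dg {ψ1 ψ2 : ℝ → ℝ} (h1 : Prof ψ1) (h2 : Prof ψ2) (l k i j : Fin 3) (w : C3) :
    riem (dg ψ1 ψ2) l k i j w =
      KK (ψ1 (w 0)) (deriv ψ1 (w 0)) (deriv (deriv ψ1) (w 0))
        (ψ2 (w 0)) (deriv ψ2 (w 0)) (deriv (deriv ψ2) (w 0)) i j *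
        ((if l = i then dg ψ1 ψ2 w j k else 0) - (if l = j then dg ψ1 ψ2 w i k else 0)) := by
  have e1 := (h1.pos (w 0)).ne'
  have e2 := (h2.pos (w 0)).ne'
  unfold riem
  simp only [pd_chr h1 h2]
  simp only [chr_dg h1 h2]
  generalize ha1 : ψ1 (w 0) = a1 at *
  generalize ha2 : ψ2 (w 0) = a2 at *
  generalize hb1 : deriv ψ1 (w 0) = b1
  generalize hb2 : deriv ψ2 (w 0) = b2
  generalize hc1 : deriv (deriv ψ1) (w 0) = c1
  generalize hc2 : deriv (deriv ψ2) (w 0) = c2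
  fin_cases l <;> fin_cases k <;> fin_cases i <;> fin_cases j <;>
    simp [Fin.sum_univ_three, Gam, dGam, KK, dg, ha1, ha2, hb1, hb2, hc1, hc2] <;>
    (try field_simp) <;> (try ring)

theorem secNonpos_dg {ψ1 ψ2 : ℝ → ℝ} (h1 : Prof ψ1) (h2 : Prof ψ2) (w : C3) :
    SecNonpos (dg ψ1 ψ2) w := by
  intro X Y
  simp only [riem_dg h1 h2]
  have e1 := h1.pos (w 0)
  have e2 := h2.pos (w 0)
  have m1 := h1.mono (w 0)
  have m2 := h2.mono (w 0)
  have v1 := h1.conv (w 0)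
  have v2 := h2.conv (w 0)
  generalize ha1 : ψ1 (w 0) = a1 at *
  generalize ha2 : ψ2 (w 0) = a2 at *
  generalize hb1 : deriv ψ1 (w 0) = b1 at *
  generalize hb2 : deriv ψ2 (w 0) = b2 at *
  generalize hc1 : deriv (deriv ψ1) (w 0) = c1 at *
  generalize hc2 : deriv (deriv ψ2) (w 0) = c2 at *
  have key : ∑ h, ∑ l, ∑ k, ∑ i, ∑ j,
      dg ψ1 ψ2 w l h * (KK a1 b1 c1 a2 b2 c2 i j *
        ((if l = i then dg ψ1 ψ2 w j k else 0) - (if l = j then dg ψ1 ψ2 w i k else 0))) *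
        X i * Y j * Y k * X h =
      -((2 * a1 * c1 - b1 ^ 2) / (4 * a1) * (X 0 * Y 1 - X 1 * Y 0) ^ 2 +
        (2 * a2 * c2 - b2 ^ 2) / (4 * a2) * (X 0 * Y 2 - X 2 * Y 0) ^ 2 +
        b1 * b2 / 4 * (X 1 * Y 2 - X 2 * Y 1) ^ 2) := by
    simp [Fin.sum_univ_three, KK, dg, ha1, ha2]
    field_simp
    ring
  rw [key]
  have t1 : 0 ≤ (2 * a1 * c1 - b1 ^ 2) / (4 * a1) :=
    div_nonneg (by linarith) (by linarith)
  have t2 : 0 ≤ (2 * a2 * c2 - b2 ^ 2) / (4 * a2) :=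
    div_nonneg (by linarith) (by linarith)
  have t3 : 0 ≤ b1 * b2 / 4 := by positivity
  have := mul_nonneg t1 (sq_nonneg (X 0 * Y 1 - X 1 * Y 0))
  have := mul_nonneg t2 (sq_nonneg (X 0 * Y 2 - X 2 * Y 0))
  have := mul_nonneg t3 (sq_nonneg (X 1 * Y 2 - X 2 * Y 1))
  linarith

variable {M : Type*} [TopologicalSpace M] [ChartedSpace E3 M]

/-- Local version of `IsNPC`: one parametrisation around every point. -/
structure IsNPCLoc (g : Bil M) : Prop where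
  symm : ∀ p u v, g p u v = g p v u
  pos : ∀ p u, u ≠ 0 → 0 < g p u u
  loc : ∀ p, ∃ (Φ : C3 → M) (W : Set C3), IsParam Φ W ∧ p ∈ Φ '' W ∧
    ContDiffOn ℝ ∞ (pull g Φ) W ∧ ∀ w ∈ W, SecNonpos (pull g Φ) w

/-- A field of bilinear forms which is of type A near every point is a smooth Riemannian metric of
nonpositive curvature. (Symmetry and positivity: `D Φ w` is onto, `IsParam.surj`.) -/
theorem isNPC_of_typeA (g : Bil M) (h : ∀ p, ∃ Φ W, TypeA g Φ W ∧ p ∈ Φ '' W) : IsNPCLoc g := by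
  refine ⟨?_, ?_, ?_⟩
  · intro p u v
    obtain ⟨Φ, W, hA, w, hw, rfl⟩ := h p
    obtain ⟨ψ1, ψ2, h1, h2, hf⟩ := hA.form
    obtain ⟨a, rfl⟩ := hA.toIsParam.surj hw u
    obtain ⟨b, rfl⟩ := hA.toIsParam.surj hw v
    rw [hf w hw, hf w hw]; ring
  · intro p u hu
    obtain ⟨Φ, W, hA, w, hw, rfl⟩ := h p
    obtain ⟨ψ1, ψ2, h1, h2, hf⟩ := hA.form
    obtain ⟨a, rfl⟩ := hA.toIsParam.surj hw u
    rw [hf w hw]
    have ha : a ≠ 0 := by
      rintro rfl; exact hu (map_zero _)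
    have p1 := h1.pos (w 0)
    have p2 := h2.pos (w 0)
    have hex : a 0 ≠ 0 ∨ a 1 ≠ 0 ∨ a 2 ≠ 0 := by
      by_contra hc
      push Not at hc
      apply ha
      funext i
      fin_cases i
      · exact hc.1
      · exact hc.2.1
      · exact hc.2.2
    have q0 := mul_self_nonneg (a 0)
    have q1 := mul_nonneg p1.le (mul_self_nonneg (a 1))
    have q2 := mul_nonneg p2.le (mul_self_nonneg (a 2))
    rcases hex with hx | hx | hx
    · have := mul_self_pos.2 hx; linarith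
    · have := mul_pos p1 (mul_self_pos.2 hx); linarith
    · have := mul_pos p2 (mul_self_pos.2 hx); linarith
  · intro p
    obtain ⟨Φ, W, hA, hp⟩ := h p
    obtain ⟨ψ1, ψ2, h1, h2, hf⟩ := hA.form
    have hpull : ∀ w ∈ W, pull g Φ w = dg ψ1 ψ2 w := by
      intro w hw
      funext i j
      unfold pull dg
      rw [hf w hw]
      fin_cases i <;> fin_cases j <;> simp
    refine ⟨Φ, W, hA.toIsParam, hp, ?_, ?_⟩
    · have hc : ContDiff ℝ ∞ (dg ψ1 ψ2) := by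
        rw [contDiff_pi]; intro i
        rw [contDiff_pi]; intro j
        unfold dg
        have c1 : ContDiff ℝ ∞ (fun w : C3 => ψ1 (w 0)) := h1.smooth.comp (contDiff_apply ℝ ℝ 0)
        have c2 : ContDiff ℝ ∞ (fun w : C3 => ψ2 (w 0)) := h2.smooth.comp (contDiff_apply ℝ ℝ 0)
        by_cases hij : i = j
        · subst hij
          fin_cases i
          · simpa using contDiff_const
          · simpa using c1
          · simpa using c2
        · simpa [hij] using contDiff_const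
      exact hc.contDiffOn.congr hpull
    · intro w hw
      refine SecNonpos.congr ?_ (secNonpos_dg h1 h2 w)
      filter_upwards [hA.isOpen.mem_nhds hw] with z hz
      exact hpull z hz

end NPCG
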