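import Pool.Agent.Lib.NPCG.Prof

/-! # NPCG.Cut: the cutoff functions

MODULE (about 1.5 h). `a = U²`, where `U` is smooth, convex, nondecreasing, `U = 0` for `t ≤ 1` and `U = e^t` for `t ≥ 9`;
`b` smooth, `b = 1` for `t ≤ 9`, `b = 0` for `t ≥ 10` (`b t = Real.smoothTransition (10 - t)`).
* `t < 9` (more precisely near every point with `b = 1`): `ψ = U² + m`, `ψ' = 2UU' ≥ 0`,
  `2ψψ'' - ψ'² = 4(U²+m)(U'²+UU'') - 4U²U'² = 4mU'² + 4(U²+m)UU'' ≥ 0`.
* `t ≥ 9`: `a = e^{2t}` on a neighbourhood of `t` (take `U = e^t` already for `t ≥ 8`), `ψ = e^{2t} + m b`,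
  `ψ' = 2e^{2t} + m b'`, `2ψψ'' - ψ'² = 4e^{4t} + m e^{2t}(8b + 2b'' - 4b') + m²(2bb'' - b'²)`, which is `≥ 0` for small `m`
  because `b, b', b''` are bounded on the compact `[9, 10]` (and `b = 0` for `t ≥ 10`).
Construction of `U`: `f s = expNegInvGlue s` (`e^{-1/s}` for `s > 0`, `0` for `s ≤ 0`),
`V t = e^t - D f(8 - t)` with `D = 12`: `V = e^t` for `t ≥ 8`; `V t ≤ -1` for `t ≤ 1` (`f ≥ f 7 = e^{-1/7} > 1/2`, `e^t ≤ 3`);
`V' = e^t + D f'(8-t) > 0`; `V'' = e^t - D f''(8-t) ≥ 0`, since `f'' s = e^{-1/s}(1-2s)/s⁴ ≤ 3` for `0 < s ≤ 1/2` (where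
`e^t ≥ e^7`), and `f'' ≤ 0` for `s ≥ 1/2` (any crude bound is fine: `e^{-u} ≤ 24·.../u^n`; one only needs
`D f'' ≤ e^7 ≈ 1096`, i.e. `f'' ≤ 90`: e.g. `e^{-u}u⁴ ≤ 24`).
`S x = ∫_0^x smoothTransition`, `S = 0` for `x ≤ 0`, `S' = smoothTransition ≥ 0`, `S'' ≥ 0` (monotone), `S x = x - κ` for
`x ≥ 1`, `κ = 1 - S 1 ∈ [0, 1]`. `U t = S (V t + κ)`: `U = 0` for `t ≤ 1` (`V + κ ≤ 0`), `U = V = e^t` for `t ≥ 8`
(`e^t + κ ≥ 1`), `U' = S' V' ≥ 0`, `U'' = S'' V'² + S' V'' ≥ 0`, `U ≥ 0`.
(Any other construction is welcome.)
-/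

open Set
open scoped Manifold ContDiff

namespace NPCG

namespace Cut

open MeasureTheory

/-- `e^t` for `t ≥ 5`, continued by its tangent line for `t ≤ 5`. -/
private noncomputable def W (t : ℝ) : ℝ := Real.exp (max t 5) + Real.exp 5 * (min t 5 - 5)

private theorem W_ge {t : ℝ} (h : 5 ≤ t) : W t = Real.exp t := by
  simp [W, max_eq_left h, min_eq_right h]

private theorem W_le {t : ℝ} (h : t ≤ 5) : W t = Real.exp 5 * (t - 4) := by
  rw [W, max_eq_right h, min_eq_left h]; ring

private theorem W_support (z u : ℝ) : W z + Real.exp (max z 5) * (u - z) ≤ W u := by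
  have key : ∀ a b : ℝ, Real.exp a * (1 + b - a) ≤ Real.exp b := by
    intro a b
    have h1 := Real.add_one_le_exp (b - a)
    have h2 : Real.exp b = Real.exp a * Real.exp (b - a) := by rw [← Real.exp_add]; ring_nf
    rw [h2]
    refine mul_le_mul_of_nonneg_left (by linarith) (Real.exp_pos a).le
  rcases le_total 5 z with hz | hz
  · rw [W_ge hz, max_eq_left hz]
    rcases le_total 5 u with hu | hu
    · rw [W_ge hu]
      have := key z u
      linarith
    · rw [W_le hu]
      have h1 := key z 5
      have h2 : Real.exp 5 ≤ Real.exp z := Real.exp_le_exp.2 hz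
      nlinarith [mul_nonneg (sub_nonneg.2 hu) (sub_nonneg.2 h2)]
  · rw [W_le hz, max_eq_right hz]
    rcases le_total 5 u with hu | hu
    · rw [W_ge hu]
      have := key 5 u
      linarith
    · rw [W_le hu]
      linarith

private theorem W_convex : ConvexOn ℝ univ W := by
  refine ⟨convex_univ, ?_⟩
  intro x _ y _ p q hp hq hpq
  have h1 := W_support (p • x + q • y) x
  have h2 := W_support (p • x + q • y) y
  have h3 := mul_le_mul_of_nonneg_left h1 hp
  have h4 := mul_le_mul_of_nonneg_left h2 hq
  simp only [smul_eq_mul] at *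
  have h5 : W (p * x + q * y) = p * W (p * x + q * y) + q * W (p * x + q * y) := by
    rw [← add_mul, hpq, one_mul]
  have h6 : p * (x - (p * x + q * y)) + q * (y - (p * x + q * y)) = 0 := by
    have : p * (x - (p * x + q * y)) + q * (y - (p * x + q * y))
        = (p * x + q * y) * (1 - (p + q)) := by ring
    rw [this, hpq]; ring
  nlinarith [h3, h4, h5, congrArg (fun z => Real.exp (max (p * x + q * y) 5) * z) h6]

private theorem W_mono : Monotone W := by
  intro x y h
  have h1 := W_support x y
  have h2 : 0 ≤ Real.exp (max x 5) * (y - x) :=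
    mul_nonneg (Real.exp_pos _).le (sub_nonneg.2 h)
  linarith

private theorem W_cont : Continuous W := by
  unfold W
  fun_prop

private noncomputable def U0 (t : ℝ) : ℝ := max 0 (W t)

private theorem U0_cont : Continuous U0 := by
  unfold U0
  exact continuous_const.max W_cont

private theorem U0_convex : ConvexOn ℝ univ U0 :=
  (convexOn_const 0 convex_univ).sup W_convex

private theorem U0_mono : Monotone U0 := fun _ _ h => max_le_max le_rfl (W_mono h)

private theorem U0_le {t : ℝ} (h : t ≤ 4) : U0 t = 0 := by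
  rw [U0, W_le (by linarith), max_eq_left]
  exact mul_nonpos_of_nonneg_of_nonpos (Real.exp_pos _).le (by linarith)

private theorem U0_ge {t : ℝ} (h : 5 ≤ t) : U0 t = Real.exp t := by
  rw [U0, W_ge h, max_eq_right (Real.exp_pos _).le]

private noncomputable def bmp : ContDiffBump (0 : ℝ) := ⟨1 / 2, 1, by norm_num, by norm_num⟩

private noncomputable def k (s : ℝ) : ℝ := bmp s

private theorem k_cont : Continuous k := bmp.continuous

private theorem k_nonneg (s : ℝ) : 0 ≤ k s := bmp.nonneg

private theorem k_cs : HasCompactSupport k := bmp.hasCompactSupport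

private theorem k_zero {s : ℝ} (h : 1 ≤ |s|) : k s = 0 := by
  apply bmp.zero_of_le_dist
  simpa [bmp, Real.dist_eq] using h

private theorem k_int {f : ℝ → ℝ} (hf : Continuous f) : Integrable (fun s => k s * f s) :=
  (k_cont.mul hf).integrable_of_hasCompactSupport k_cs.mul_right

private noncomputable def c : ℝ := ∫ s, k s * Real.exp (-s)

private theorem c_pos : 0 < c := by
  have h : Continuous fun s => k s * Real.exp (-s) := by
    have := k_cont
    fun_prop
  refine h.integral_pos_of_hasCompactSupport_nonneg_nonzero (x := 0) k_cs.mul_right ?_ ?_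
  · intro s
    exact mul_nonneg (k_nonneg s) (Real.exp_pos _).le
  · have : k 0 = 1 := by
      apply bmp.one_of_mem_closedBall
      simp [bmp]
    simp [this]

/-- The smooth convex function. -/
private noncomputable def U (t : ℝ) : ℝ := c⁻¹ * ∫ s, k s * U0 (t - s)

private theorem int_k (t : ℝ) : Integrable (fun s => k s * U0 (t - s)) :=
  k_int (U0_cont.comp (continuous_const.sub continuous_id))

private theorem U_smooth : ContDiff ℝ ∞ U := by
  have h := k_cs.contDiff_convolution_left (𝕜 := ℝ) (μ := volume) (n := (⊤ : ℕ∞))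
    (ContinuousLinearMap.mul ℝ ℝ) (g := U0) (bmp.contDiff) U0_cont.locallyIntegrable
  have h2 : U = fun t => c⁻¹ * (MeasureTheory.convolution k U0 (ContinuousLinearMap.mul ℝ ℝ)
      volume) t := by
    funext t
    rfl
  rw [h2]
  exact contDiff_const.mul h

private theorem U_mono : Monotone U := by
  intro x y h
  unfold U
  refine mul_le_mul_of_nonneg_left ?_ (inv_nonneg.2 c_pos.le)
  refine integral_mono (int_k x) (int_k y) ?_
  intro s
  exact mul_le_mul_of_nonneg_left (U0_mono (by linarith)) (k_nonneg s)

private theorem U_convex : ConvexOn ℝ univ U := by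
  refine ⟨convex_univ, ?_⟩
  intro x _ y _ p q hp hq hpq
  simp only [smul_eq_mul]
  unfold U
  have h1 : p * (c⁻¹ * ∫ s, k s * U0 (x - s)) + q * (c⁻¹ * ∫ s, k s * U0 (y - s))
      = c⁻¹ * ∫ s, (p * (k s * U0 (x - s)) + q * (k s * U0 (y - s))) := by
    rw [integral_add ((int_k x).const_mul p) ((int_k y).const_mul q), integral_const_mul,
      integral_const_mul]
    ring
  rw [h1]
  refine mul_le_mul_of_nonneg_left ?_ (inv_nonneg.2 c_pos.le)
  refine integral_mono (int_k _) (((int_k x).const_mul p).add ((int_k y).const_mul q)) ?_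
  intro s
  have h2 := U0_convex.2 (mem_univ (x - s)) (mem_univ (y - s)) hp hq hpq
  simp only [smul_eq_mul] at h2
  have h3 : p * (x - s) + q * (y - s) = p * x + q * y - s := by
    have : p * (x - s) + q * (y - s) = p * x + q * y - (p + q) * s := by ring
    rw [this, hpq, one_mul]
  rw [h3] at h2
  have h4 := mul_le_mul_of_nonneg_left h2 (k_nonneg s)
  simp only
  linarith

private theorem U_le {t : ℝ} (h : t ≤ 3) : U t = 0 := by
  have : (fun s => k s * U0 (t - s)) = fun _ => 0 := by
    funext s
    rcases le_or_gt 1 |s| with hs | hs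
    · rw [k_zero hs, zero_mul]
    · rw [U0_le (by have := (abs_lt.1 hs).1; linarith), mul_zero]
  simp [U, this]

private theorem U_ge {t : ℝ} (h : 6 ≤ t) : U t = Real.exp t := by
  have h1 : (fun s => k s * U0 (t - s)) = fun s => Real.exp t * (k s * Real.exp (-s)) := by
    funext s
    rcases le_or_gt 1 |s| with hs | hs
    · rw [k_zero hs]; ring
    · rw [U0_ge (by have := (abs_lt.1 hs).2; linarith), sub_eq_add_neg, Real.exp_add]; ring
  rw [U, h1, integral_const_mul]
  change c⁻¹ * (Real.exp t * c) = _
  field_simp [c_pos.ne']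

private theorem U_d1 (t : ℝ) : 0 ≤ deriv U t := U_mono.deriv_nonneg

private theorem U_diff : Differentiable ℝ U := U_smooth.differentiable (by simp)

private theorem U_d2 (t : ℝ) : 0 ≤ deriv (deriv U) t := by
  have h : MonotoneOn (deriv U) univ := U_convex.monotoneOn_deriv (fun x _ => U_diff x)
  exact (monotoneOn_univ.1 h).deriv_nonneg

private theorem dU_diff : Differentiable ℝ (deriv U) := by
  have h : ContDiff ℝ 1 (deriv U) := by
    have : ContDiff ℝ (1 + 1) U := by
      have := contDiff_infty.1 U_smooth 2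
      norm_num at this ⊢
      exact this
    exact ((contDiff_succ_iff_deriv (n := 1)).1 this).2.2
  exact h.differentiable (by simp)

/-- The cutoff. -/
private noncomputable def b (t : ℝ) : ℝ := Real.smoothTransition (10 - t)

private theorem b_smooth : ContDiff ℝ ∞ b := by
  unfold b
  exact (Real.smoothTransition.contDiff (n := (⊤ : ℕ∞))).comp (contDiff_const.sub contDiff_id)

private theorem b_le {t : ℝ} (h : t ≤ 9) : b t = 1 :=
  Real.smoothTransition.one_of_one_le (by linarith)

private theorem b_ge {t : ℝ} (h : 10 ≤ t) : b t = 0 :=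
  Real.smoothTransition.zero_of_nonpos (by linarith)

private theorem b_diff : Differentiable ℝ b := b_smooth.differentiable (by simp)

private theorem db_smooth : ContDiff ℝ 1 (deriv b) := by
  have : ContDiff ℝ (1 + 1) b := by
    have := contDiff_infty.1 b_smooth 2
    norm_num at this ⊢
    exact this
  exact ((contDiff_succ_iff_deriv (n := 1)).1 this).2.2

private theorem db_diff : Differentiable ℝ (deriv b) := db_smooth.differentiable (by simp)

private theorem ddb_cont : Continuous (deriv (deriv b)) := by
  have : ContDiff ℝ (0 + 1) (deriv b) := by simpa using db_smooth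
  exact ((contDiff_succ_iff_deriv (n := 0)).1 this).2.2.continuous

private theorem bound : ∃ B : ℝ, 1 ≤ B ∧ ∀ t, 9 ≤ t → |deriv b t| ≤ B ∧
    |deriv (deriv b) t| ≤ B := by
  obtain ⟨B1, h1⟩ := (isCompact_Icc (a := (9 : ℝ)) (b := 10)).exists_bound_of_continuousOn
    (f := deriv b) db_smooth.continuous.continuousOn
  obtain ⟨B2, h2⟩ := (isCompact_Icc (a := (9 : ℝ)) (b := 10)).exists_bound_of_continuousOn
    (f := deriv (deriv b)) ddb_cont.continuousOn
  refine ⟨max 1 (max B1 B2), le_max_left _ _, ?_⟩
  intro t ht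
  rcases le_or_gt t 10 with h | h
  · have e1 := h1 t ⟨ht, h⟩
    have e2 := h2 t ⟨ht, h⟩
    rw [Real.norm_eq_abs] at e1 e2
    exact ⟨e1.trans ((le_max_left _ _).trans (le_max_right _ _)),
      e2.trans ((le_max_right _ _).trans (le_max_right _ _))⟩
  · have e0 : b =ᶠ[nhds t] fun _ => 0 := by
      filter_upwards [Ioi_mem_nhds h] with s hs
      exact b_ge (le_of_lt hs)
    have e1 : deriv b =ᶠ[nhds t] fun _ => 0 := by
      have := e0.deriv
      simpa using this
    have e2 : deriv b t = 0 := e1.eq_of_nhds
    have e3 : deriv (deriv b) t = 0 := by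
      have := e1.deriv_eq
      simpa using this
    rw [e2, e3]
    simp

end Cut

open Cut in
theorem exists_cutoff : ∃ (a b : ℝ → ℝ) (m₀ : ℝ), 0 < m₀ ∧
    (∀ t ≤ 1, a t = 0 ∧ b t = 1) ∧ (∀ t, 10 ≤ t → a t = Real.exp (2 * t) ∧ b t = 0) ∧
    ∀ m, 0 < m → m ≤ m₀ → Prof (fun t => a t + m * b t) := by
  obtain ⟨B, hB1, hB⟩ := bound
  refine ⟨fun t => U t ^ 2, b, 1 / (10 * B), by positivity, ?_, ?_, ?_⟩
  · intro t ht
    exact ⟨by simp [U_le (show t ≤ 3 by linarith)], b_le (by linarith)⟩
  · intro t ht
    refine ⟨?_, b_ge ht⟩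
    simp only [U_ge (show (6 : ℝ) ≤ t by linarith), two_mul, Real.exp_add]
    ring
  · intro m hm hm0
    have hmB : m * B ≤ 1 / 10 := by
      have h0 : 0 < B := by linarith
      calc m * B ≤ 1 / (10 * B) * B := mul_le_mul_of_nonneg_right hm0 h0.le
        _ = 1 / 10 := by field_simp
    have hU := U_diff
    have hdU := dU_diff
    have hb := b_diff
    have hdb := db_diff
    -- near a point `< 9`
    have lowE : ∀ t < 9, (fun t => U t ^ 2 + m * b t) =ᶠ[nhds t] fun t => U t ^ 2 + m := by
      intro t ht
      filter_upwards [Iio_mem_nhds ht] with s hs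
      rw [b_le (le_of_lt hs), mul_one]
    have low1 : ∀ t < 9, deriv (fun t => U t ^ 2 + m * b t) t = 2 * U t * deriv U t := by
      intro t ht
      rw [(lowE t ht).deriv_eq]
      have h1 : HasDerivAt (fun t => U t ^ 2 + m) (2 * U t * deriv U t) t := by
        have h0 : HasDerivAt (fun t => U t ^ 2 + m) ((2 : ℕ) * U t ^ (2 - 1) * deriv U t) t :=
          ((hU t).hasDerivAt.pow 2).add_const m
        simpa using h0
      exact h1.deriv
    have low2 : ∀ t < 9, deriv (deriv (fun t => U t ^ 2 + m * b t)) t
        = 2 * (deriv U t) ^ 2 + 2 * U t * deriv (deriv U) t := by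
      intro t ht
      have e : deriv (fun t => U t ^ 2 + m * b t) =ᶠ[nhds t] fun t => 2 * U t * deriv U t := by
        filter_upwards [Iio_mem_nhds ht] with s hs
        exact low1 s hs
      rw [e.deriv_eq]
      have h1 : HasDerivAt (fun t => 2 * U t * deriv U t)
          (2 * deriv U t * deriv U t + 2 * U t * deriv (deriv U) t) t :=
        (((hU t).hasDerivAt.const_mul 2).mul (hdU t).hasDerivAt)
      rw [h1.deriv]
      ring
    have highE : ∀ t, 6 < t → (fun t => U t ^ 2 + m * b t) =ᶠ[nhds t]
        fun t => Real.exp (2 * t) + m * b t := by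
      intro t ht
      filter_upwards [Ioi_mem_nhds ht] with s hs
      rw [U_ge (le_of_lt hs), two_mul, Real.exp_add]
      ring
    have hE : ∀ t : ℝ, HasDerivAt (fun t : ℝ => Real.exp (2 * t)) (2 * Real.exp (2 * t)) t := by
      intro t
      have := (((hasDerivAt_id t).const_mul 2).exp)
      simp only [id, mul_one] at this
      rw [mul_comm]
      exact this
    have high1 : ∀ t, 6 < t → deriv (fun t => U t ^ 2 + m * b t) t
        = 2 * Real.exp (2 * t) + m * deriv b t := by
      intro t ht
      rw [(highE t ht).deriv_eq]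
      exact ((hE t).add ((hb t).hasDerivAt.const_mul m)).deriv
    have high2 : ∀ t, 6 < t → deriv (deriv (fun t => U t ^ 2 + m * b t)) t
        = 4 * Real.exp (2 * t) + m * deriv (deriv b) t := by
      intro t ht
      have e : deriv (fun t => U t ^ 2 + m * b t) =ᶠ[nhds t]
          fun t => 2 * Real.exp (2 * t) + m * deriv b t := by
        filter_upwards [Ioi_mem_nhds ht] with s hs
        exact high1 s hs
      rw [e.deriv_eq]
      have h1 : HasDerivAt (fun t => 2 * Real.exp (2 * t) + m * deriv b t)
          (2 * (2 * Real.exp (2 * t)) + m * deriv (deriv b) t) t :=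
        ((hE t).const_mul 2).add ((hdb t).hasDerivAt.const_mul m)
      rw [h1.deriv]
      ring
    have hE1 : ∀ t : ℝ, 9 ≤ t → 1 ≤ Real.exp (2 * t) := by
      intro t ht
      exact Real.one_le_exp (by linarith)
    have hU0 : ∀ t, 0 ≤ U t := by
      intro t
      rcases le_total t 3 with h | h
      · rw [U_le h]
      · rw [← U_le (le_refl 3)]
        exact U_mono h
    refine ⟨?_, ?_, ?_, ?_⟩
    · exact (U_smooth.pow 2).add (contDiff_const.mul b_smooth)
    · intro t
      rcases lt_or_ge t 9 with h | h
      · simp only [b_le h.le, mul_one]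
        have := sq_nonneg (U t)
        linarith
      · simp only [U_ge (show (6 : ℝ) ≤ t by linarith)]
        have h1 : 0 ≤ b t := Real.smoothTransition.nonneg _
        have h2 : 0 < Real.exp t ^ 2 := by positivity
        have h3 := mul_nonneg hm.le h1
        linarith
    · intro t
      rcases lt_or_ge t 9 with h | h
      · rw [low1 t h]
        exact mul_nonneg (mul_nonneg (by norm_num) (hU0 t)) (U_d1 t)
      · rw [high1 t (by linarith)]
        have h1 := (hB t h).1
        have h2 := neg_abs_le (deriv b t)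
        have h3 : m * (-B) ≤ m * deriv b t := mul_le_mul_of_nonneg_left (by linarith) hm.le
        have h4 := hE1 t h
        nlinarith
    · intro t
      rcases lt_or_ge t 9 with h | h
      · rw [low1 t h, low2 t h]
        simp only [b_le h.le, mul_one]
        have h1 := hU0 t
        have h2 := U_d2 t
        have h3 : 0 ≤ m * (deriv U t) ^ 2 := mul_nonneg hm.le (sq_nonneg _)
        have h4 : 0 ≤ (U t ^ 2 + m) * (U t * deriv (deriv U) t) :=
          mul_nonneg (by positivity) (mul_nonneg h1 h2)
        nlinarith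
      · rw [high1 t (by linarith), high2 t (by linarith)]
        have e0 : U t ^ 2 = Real.exp (2 * t) := by
          rw [U_ge (by linarith), two_mul, Real.exp_add]; ring
        simp only [e0]
        have hE' := hE1 t h
        generalize Real.exp (2 * t) = E at hE'
        have b0 : 0 ≤ b t := Real.smoothTransition.nonneg _
        have b1 : b t ≤ 1 := Real.smoothTransition.le_one _
        obtain ⟨c1, c2⟩ := hB t h
        generalize deriv (deriv b) t = z at c2
        generalize deriv b t = y at c1
        generalize b t = x at b0 b1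
        -- the bounded quantities
        have hy : |m * y| ≤ 1 / 10 := by
          rw [abs_mul, abs_of_pos hm]
          exact (mul_le_mul_of_nonneg_left c1 hm.le).trans hmB
        have hz : |m * z| ≤ 1 / 10 := by
          rw [abs_mul, abs_of_pos hm]
          exact (mul_le_mul_of_nonneg_left c2 hm.le).trans hmB
        have hx0 : 0 ≤ m * x := mul_nonneg hm.le b0
        have hm1 : m ≤ 1 / 10 := by nlinarith
        have hx1 : m * x ≤ 1 / 10 := by nlinarith
        obtain ⟨y1, y2⟩ := abs_le.1 hy
        obtain ⟨z1, z2⟩ := abs_le.1 hz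
        generalize m * y = Y at *
        generalize m * z = Z at *
        generalize m * x = X at *
        have k1 : -(1 / 10) * E ≤ E * Z := by nlinarith
        have k2 : E * Y ≤ (1 / 10) * E := by nlinarith
        have k3 : 0 ≤ E * X := by positivity
        have k4 : -(1 / 100) ≤ X * Z := by nlinarith
        have k5 : Y ^ 2 ≤ 1 / 100 := by nlinarith
        nlinarith

end NPCG
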