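import Mathlib

/-!
# Invariant nonpositively curved metrics on 3-manifolds: definitions

Project NPCG (problem MP_6b3077_gt), owner helper95.
-/

open Set
open scoped Manifold ContDiff

namespace NPCG

/-- Coordinate space `ℝ³`, coordinates `(t, x, y) = (w 0, w 1, w 2)`. -/
abbrev C3 := Fin 3 → ℝ

/-- `ℝ²`, the directions tangent to the tori. -/
abbrev C2 := Fin 2 → ℝ

/-- The model space of 3-manifolds; in Mathlib the tangent space `TangentSpace (𝓡 3) p` of a
3-manifold is by definition this vector space. -/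
abbrev E3 := EuclideanSpace ℝ (Fin 3)

/-! ## Sectional curvature of a metric given in coordinates -/

/-- A metric in coordinates: `g w i j`. -/
abbrev Met := C3 → Fin 3 → Fin 3 → ℝ

/-- Partial derivative. -/
noncomputable def pd (f : C3 → ℝ) (k : Fin 3) (w : C3) : ℝ := fderiv ℝ f w (Pi.single k 1)

/-- Christoffel symbol `Γ^l_{ij}` of the metric `g`. -/
noncomputable def chr (g : Met) (l i j : Fin 3) (w : C3) : ℝ :=
  (1 / 2) * ∑ m, (Matrix.of (g w))⁻¹ l m *
    (pd (fun z => g z j m) i w + pd (fun z => g z i m) j w - pd (fun z => g z i j) m w)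

/-- The curvature tensor: `R(∂_i, ∂_j) ∂_k = ∑_l riem g l k i j ∂_l`. -/
noncomputable def riem (g : Met) (l k i j : Fin 3) (w : C3) : ℝ :=
  pd (chr g l j k) i w - pd (chr g l i k) j w +
    ∑ m, (chr g l i m w * chr g m j k w - chr g l j m w * chr g m i k w)

/-- All sectional curvatures at `w` are `≤ 0`: `g(R(X,Y)Y, X) ≤ 0` for all `X, Y`. -/
def SecNonpos (g : Met) (w : C3) : Prop :=
  ∀ X Y : C3, ∑ h, ∑ l, ∑ k, ∑ i, ∑ j,
    g w l h * riem g l k i j w * X i * Y j * Y k * X h ≤ 0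

/-! ## Riemannian metrics on 3-manifolds -/

section Manifold

variable {M : Type*} [TopologicalSpace M] [ChartedSpace E3 M]

/-- A field of bilinear forms on the tangent spaces `T_pM = E3`. -/
abbrev Bil (M : Type*) := M → LinearMap.BilinForm ℝ E3

/-- The differential of a map `Φ : ℝ³ → M`. -/
noncomputable def D (Φ : C3 → M) (w : C3) : C3 →L[ℝ] E3 := mfderiv 𝓘(ℝ, C3) (𝓡 3) Φ w

/-- The pull-back of `g` under `Φ : ℝ³ → M`, in coordinates. -/
noncomputable def pull (g : Bil M) (Φ : C3 → M) : Met :=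
  fun w i j => g (Φ w) (D Φ w (Pi.single i 1)) (D Φ w (Pi.single j 1))

/-- `Φ` is a smooth local parametrisation of `M` on the open set `W`. -/
structure IsParam (Φ : C3 → M) (W : Set C3) : Prop where
  isOpen : IsOpen W
  smooth : ContMDiffOn 𝓘(ℝ, C3) (𝓡 3) ∞ Φ W
  inj : ∀ w ∈ W, Function.Injective (D Φ w)

/-- `g` is a smooth Riemannian metric on `M` of nonpositive sectional curvature: in every smooth local
parametrisation its coefficients are smooth and all sectional curvatures are `≤ 0`. -/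
structure IsNPC (g : Bil M) : Prop where
  symm : ∀ p u v, g p u v = g p v u
  pos : ∀ p u, u ≠ 0 → 0 < g p u u
  smooth : ∀ (Φ : C3 → M) (W : Set C3), IsParam Φ W → ContDiffOn ℝ ∞ (pull g Φ) W
  curv : ∀ (Φ : C3 → M) (W : Set C3), IsParam Φ W → ∀ w ∈ W, SecNonpos (pull g Φ) w

/-! ## Group actions -/

section Action

variable {G : Type*} [Group G] [MulAction G M]

/-- The differential of `p ↦ γ • p`. -/
noncomputable def dact (γ : G) (p : M) : E3 →L[ℝ] E3 :=
  mfderiv (𝓡 3) (𝓡 3) (fun x : M => γ • x) p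

variable (G) in
/-- `g` is invariant under `G`. -/
def Inv (g : Bil M) : Prop :=
  ∀ (γ : G) p u v, g (γ • p) (dact γ p u) (dact γ p v) = g p u v

end Action

/-! ## Geometric decompositions in collar form -/

/-- The point `(t, x)`. -/
def pt (t : ℝ) (x : C2) : C3 := ![t, x 0, x 1]

/-- The vector `(0, x)`, tangent to the tori. -/
def hor (x : C2) : C3 := ![0, x 0, x 1]

/-- The component of `u` tangent to the tori. -/
def tan (u : C3) : C2 := ![u 1, u 2]

/-- An integral vector. -/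
def int (n : Fin 2 → ℤ) : C2 := fun i => n i

/-- Local coordinates of a hyperbolic piece: the metric is `dt² + e^{2t}(dx² + dy²)`. -/
structure IsHyp (H : Set M) (ref : Bil M) (Φ : C3 → M) (W : Set C3) : Prop extends IsParam Φ W where
  maps : ∀ w ∈ W, Φ w ∈ H
  ref_eq : ∀ w ∈ W, ∀ u v, ref (Φ w) (D Φ w u) (D Φ w v) =
    u 0 * v 0 + Real.exp (2 * w 0) * (u 1 * v 1 + u 2 * v 2)

/-- Local coordinates `(t, x, z)` of a Seifert piece: `z` is the coordinate along the fibres and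
the metric of the base is `dt² + e^{2t}dx²`. -/
structure IsSei (S : Set M) (ref : Bil M) (F : M → E3) (Φ : C3 → M) (W : Set C3) : Prop
    extends IsParam Φ W where
  maps : ∀ w ∈ W, Φ w ∈ S
  ref_eq : ∀ w ∈ W, ∀ u v, ref (Φ w) (D Φ w u) (D Φ w v) =
    u 0 * v 0 + Real.exp (2 * w 0) * (u 1 * v 1)
  fib : ∀ w ∈ W, D Φ w (Pi.single 2 1) = F (Φ w) ∨ D Φ w (Pi.single 2 1) = -F (Φ w)

variable (G : Type*) [Group G] [MulAction G M] (E : Type*) [MulAction G E]

variable (M) in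
/-- A `G`-invariant geometric decomposition of `M` in collar form. `H`, `S`: the cores of the
hyperbolic and of the Seifert pieces; `ref`: the hyperbolic metric on `H`, the (degenerate) metric of
the base on `S`; `F`: the fibre direction on `S`, up to sign; `E`: the ends of the pieces; `J e`: the
half-collar `(-1, 11) × ℝ²/ℤ²` of the end `e`; `bar e`: the end on the other side of the torus
(`bar e = e` for a Klein bottle). -/
structure Decomp where
  H : Set M
  S : Set M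
  ref : Bil M
  F : M → E3
  bar : E → E
  J : E → C3 → M
  q0 : E → LinearMap.BilinForm ℝ C2
  f : E → C2
  T : E → C2 →ₗ[ℝ] C2
  c : E → C2
  A : G → E → C2 →ₗ[ℝ] C2
  B : G → E → C2
  openH : IsOpen H
  openS : IsOpen S
  disj : Disjoint H S
  actH : ∀ (γ : G), ∀ p ∈ H, γ • p ∈ H
  actS : ∀ (γ : G), ∀ p ∈ S, γ • p ∈ S
  hyp : ∀ p ∈ H, ∃ Φ W, IsHyp H ref Φ W ∧ p ∈ Φ '' W
  sei : ∀ p ∈ S, ∃ Φ W, IsSei S ref F Φ W ∧ p ∈ Φ '' W
  refInv : ∀ (γ : G), ∀ p ∈ H ∪ S, ∀ u v, ref (γ • p) (dact γ p u) (dact γ p v) = ref p u v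
  FInv : ∀ (γ : G), ∀ p ∈ S, dact γ p (F p) = F (γ • p) ∨ dact γ p (F p) = -F (γ • p)
  cover : ∀ p, p ∈ H ∪ S ∨ ∃ e t x, -1 < t ∧ t ≤ 10 ∧ J e (pt t x) = p
  param : ∀ e, IsParam (J e) {w | -1 < w 0 ∧ w 0 < 11}
  period : ∀ e t x n, J e (pt t (x + int n)) = J e (pt t x)
  glue : ∀ e t x, -1 < t → t < 1 → J (bar e) (pt (-t) (T e x + c e)) = J e (pt t x)
  mid : ∀ e t x, -1 < t → t ≤ 10 → J e (pt t x) ∉ H ∪ S
  ends : ∀ e, (∀ t x, 10 < t → t < 11 → J e (pt t x) ∈ H) ∨
    (∀ t x, 10 < t → t < 11 → J e (pt t x) ∈ S)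
  inj : ∀ e e' t t' x x', -1 < t → t < 11 → -1 < t' → t' < 11 →
    J e (pt t x) = J e' (pt t' x') →
    (e' = e ∧ t' = t ∧ ∃ n, x' = x + int n) ∨
    (e' = bar e ∧ t' = -t ∧ ∃ n, x' = T e x + c e + int n)
  act : ∀ γ e t x, -1 < t → t < 11 → γ • J e (pt t x) = J (γ • e) (pt t (A γ e x + B γ e))
  refEnd : ∀ e t x, 10 < t → t < 11 → ∀ u v,
    ref (J e (pt t x)) (D (J e) (pt t x) u) (D (J e) (pt t x) v) =
      u 0 * v 0 + Real.exp (2 * t) * q0 e (tan u) (tan v)
  fEnd : ∀ e t x, 10 < t → t < 11 → J e (pt t x) ∈ S →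
    D (J e) (pt t x) (hor (f e)) = F (J e (pt t x)) ∨
      D (J e) (pt t x) (hor (f e)) = -F (J e (pt t x))

variable {G E}

/-- `(b, q)` is a solution of the compatibility equations of the decomposition (no invariance under
`G` is required). `q e`: a flat metric on the torus of the end `e`, the same seen from both sides.
`b`: a metric along the Seifert pieces for which the fibre field `F` has locally constant length and
the form `b(F, ·)` is closed; at the ends of the Seifert pieces it has the same periods as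
`q e (f e, ·)`. -/
structure Compatible (𝒟 : Decomp M G E) (b : Bil M) (q : E → LinearMap.BilinForm ℝ C2) :
    Prop where
  qsymm : ∀ e u v, q e u v = q e v u
  qpos : ∀ e u, u ≠ 0 → 0 < q e u u
  glue : ∀ e u v, q (𝒟.bar e) (𝒟.T e u) (𝒟.T e v) = q e u v
  bsymm : ∀ p ∈ 𝒟.S, ∀ u v, b p u v = b p v u
  bpos : ∀ p ∈ 𝒟.S, ∀ u, u ≠ 0 → 0 < b p u u
  closed : ∀ Φ W, Convex ℝ W → IsSei 𝒟.S 𝒟.ref 𝒟.F Φ W →
    ∃ (A : C3 → ℝ) (c : ℝ), ContDiffOn ℝ ∞ A W ∧
      (∀ w ∈ W, ∀ u, b (Φ w) (D Φ w (Pi.single 2 1)) (D Φ w u) = fderiv ℝ A w u) ∧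
      ∀ w ∈ W, b (Φ w) (D Φ w (Pi.single 2 1)) (D Φ w (Pi.single 2 1)) = c
  periods : ∀ e, (∀ t x, 10 < t → t < 11 → 𝒟.J e (pt t x) ∈ 𝒟.S) →
    ∃ δ > 0, δ ≤ 1 ∧ ∃ A : C3 → ℝ, ContDiffOn ℝ ∞ A {w | 10 < w 0 ∧ w 0 < 10 + δ} ∧
      (∀ t x, 10 < t → t < 10 + δ → ∀ u,
        b (𝒟.J e (pt t x)) (D (𝒟.J e) (pt t x) (hor (𝒟.f e))) (D (𝒟.J e) (pt t x) u) =
          fderiv ℝ A (pt t x) u) ∧
      ∀ t x n, 10 < t → t < 10 + δ →
        A (pt t (x + int n)) - A (pt t x) = q e (𝒟.f e) (int n)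

end Manifold

end NPCG
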