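import Pool.Agent.Lib.NPCG.Defs

/-! # NPCG.Diag: simultaneous diagonalisation of two forms on `ℝ²`

MODULE (about 1 h). `exists_diag_hyp`: simultaneous diagonalisation of two positive definite symmetric forms
(q0-orthonormal basis from the spectral theorem or by hand: the discriminant of `det(q - λ q0)` is `≥ 0`).
`exists_diag_sei`: take `Ω u = (√(q0 f' f') · det(f,u)/det(f,f'), q f u)`, `f'` any vector not in `ℝ f`
(`q0 u v` only depends on `u, v` modulo `f`, and so does `q u v - q f u q f v / q f f`, which is positive definite modulo `f`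
by Cauchy-Schwarz).
-/

open Set

namespace NPCG

namespace DiagAux

/-- The linear equivalence with matrix `(a b; c d)`. -/
noncomputable def mk (a b c d : ℝ) (h : a * d - b * c ≠ 0) : C2 ≃ₗ[ℝ] C2 where
  toFun u := ![a * u 0 + b * u 1, c * u 0 + d * u 1]
  invFun v := ![(d * v 0 - b * v 1) / (a * d - b * c), (a * v 1 - c * v 0) / (a * d - b * c)]
  map_add' u v := by
    ext i; fin_cases i <;> simp <;> ring
  map_smul' r u := by
    ext i; fin_cases i <;> simp <;> ring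
  left_inv u := by
    have h' := h
    obtain ⟨Δ, hΔ⟩ : ∃ Δ, Δ = a * d - b * c := ⟨_, rfl⟩
    rw [← hΔ] at h'
    ext i; fin_cases i
    · simp; rw [← hΔ]; field_simp; rw [hΔ]; ring
    · simp; rw [← hΔ]; field_simp; rw [hΔ]; ring
  right_inv u := by
    have h' := h
    obtain ⟨Δ, hΔ⟩ : ∃ Δ, Δ = a * d - b * c := ⟨_, rfl⟩
    rw [← hΔ] at h'
    ext i; fin_cases i
    · simp; rw [← hΔ]; field_simp; rw [hΔ]; ring
    · simp; rw [← hΔ]; field_simp; rw [hΔ]; ring

theorem mk_zero (a b c d : ℝ) (h : a * d - b * c ≠ 0) (u : C2) :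
    mk a b c d h u 0 = a * u 0 + b * u 1 := rfl

theorem mk_one (a b c d : ℝ) (h : a * d - b * c ≠ 0) (u : C2) :
    mk a b c d h u 1 = c * u 0 + d * u 1 := rfl

theorem expand (p p' u : C2) (hD : p 0 * p' 1 - p 1 * p' 0 ≠ 0) :
    u = ((u 0 * p' 1 - u 1 * p' 0) / (p 0 * p' 1 - p 1 * p' 0)) • p +
      ((p 0 * u 1 - p 1 * u 0) / (p 0 * p' 1 - p 1 * p' 0)) • p' := by
  obtain ⟨Δ, hΔ⟩ : ∃ Δ, Δ = p 0 * p' 1 - p 1 * p' 0 := ⟨_, rfl⟩
  rw [← hΔ] at hD ⊢
  ext i; fin_cases i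
  · simp; field_simp; rw [hΔ]; ring
  · simp; field_simp; rw [hΔ]; ring

theorem form_expand (B : LinearMap.BilinForm ℝ C2) (hs : ∀ u v, B u v = B v u) (p p' : C2)
    (α β γ δ : ℝ) :
    B (α • p + β • p') (γ • p + δ • p') =
      α * γ * B p p + (α * δ + β * γ) * B p p' + β * δ * B p' p' := by
  simp only [map_add, map_smul, LinearMap.add_apply, LinearMap.smul_apply, smul_eq_mul]
  rw [hs p' p]; ring

theorem std (B : LinearMap.BilinForm ℝ C2) (hs : ∀ u v, B u v = B v u) (u v : C2) :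
    B u v = u 0 * v 0 * B ![1, 0] ![1, 0] + (u 0 * v 1 + u 1 * v 0) * B ![1, 0] ![0, 1] +
      u 1 * v 1 * B ![0, 1] ![0, 1] := by
  have hu : ∀ w : C2, w = w 0 • (![1, 0] : C2) + w 1 • (![0, 1] : C2) := by
    intro w; ext i; fin_cases i <;> simp
  conv_lhs => rw [hu u, hu v]
  exact form_expand B hs _ _ _ _ _ _

end DiagAux

open DiagAux

theorem exists_diag_hyp (q0 q : LinearMap.BilinForm ℝ C2)
    (h0s : ∀ u v, q0 u v = q0 v u) (h0p : ∀ u, u ≠ 0 → 0 < q0 u u)
    (hs : ∀ u v, q u v = q v u) (hp : ∀ u, u ≠ 0 → 0 < q u u) :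
    ∃ (Ω : C2 ≃ₗ[ℝ] C2) (ρ1 ρ2 : ℝ), 0 < ρ1 ∧ 0 < ρ2 ∧
      (∀ u v, q0 u v = Ω u 0 * Ω v 0 + Ω u 1 * Ω v 1) ∧
      ∀ u v, q u v = ρ1 * (Ω u 0 * Ω v 0) + ρ2 * (Ω u 1 * Ω v 1) := by
  -- an eigenvector
  obtain ⟨p, lam, hp0, heig⟩ : ∃ (p : C2) (lam : ℝ), p ≠ 0 ∧ ∀ v, q p v = lam * q0 p v := by
    set a0 := q0 ![1, 0] ![1, 0] with ha0
    set b0 := q0 ![1, 0] ![0, 1] with hb0
    set d0 := q0 ![0, 1] ![0, 1] with hd0
    set a := q ![1, 0] ![1, 0] with ha
    set b := q ![1, 0] ![0, 1] with hb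
    set d := q ![0, 1] ![0, 1] with hd
    have he1 : (![1, 0] : C2) ≠ 0 := by
      intro h; have := congrFun h 0; simp at this
    have ha0p : 0 < a0 := h0p _ he1
    have hdet0 : 0 < a0 * d0 - b0 ^ 2 := by
      have h := h0p ![-b0, a0] (by intro h; have := congrFun h 1; simp at this; linarith)
      rw [std q0 h0s] at h
      simp only [Matrix.cons_val_zero, Matrix.cons_val_one, ← ha0, ← hb0, ← hd0] at h
      have : a0 * (a0 * d0 - b0 ^ 2) > 0 := by nlinarith [h]
      exact (pos_iff_pos_of_mul_pos this).1 ha0p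
    -- the discriminant
    set A := a0 * d0 - b0 ^ 2 with hA
    set Bc := a * d0 + a0 * d - 2 * b * b0 with hBc
    set C := a * d - b ^ 2 with hC
    have hdisc : 0 ≤ Bc ^ 2 - 4 * A * C := by
      have key : a0 ^ 2 * (Bc ^ 2 - 4 * A * C) =
          4 * A * (a0 * b - a * b0) ^ 2 + (a0 * (a0 * d - a * d0) - 2 * b0 * (a0 * b - a * b0)) ^ 2 := by
        rw [hA, hBc, hC]; ring
      have h1 : 0 ≤ a0 ^ 2 * (Bc ^ 2 - 4 * A * C) := by
        rw [key]; positivity
      by_contra hneg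
      push Not at hneg
      have : a0 ^ 2 * (Bc ^ 2 - 4 * A * C) < 0 := mul_neg_of_pos_of_neg (by positivity) hneg
      linarith
    set lam := (Bc + Real.sqrt (Bc ^ 2 - 4 * A * C)) / (2 * A) with hlam
    have hroot : A * lam ^ 2 - Bc * lam + C = 0 := by
      have hs2 := Real.sq_sqrt hdisc
      have hA0 : (2 * A) ≠ 0 := by positivity
      have hlam2 : 2 * A * lam - Bc = Real.sqrt (Bc ^ 2 - 4 * A * C) := by
        rw [hlam, mul_div_cancel₀ _ hA0]; ring
      rw [← hlam2] at hs2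
      have h4 : 4 * A * (A * lam ^ 2 - Bc * lam + C) = 0 := by linear_combination hs2
      have h4A : 4 * A ≠ 0 := by positivity
      exact (mul_eq_zero.1 h4).resolve_left h4A
    have hdet : (a - lam * a0) * (d - lam * d0) - (b - lam * b0) ^ 2 = 0 := by
      have : (a - lam * a0) * (d - lam * d0) - (b - lam * b0) ^ 2 =
          A * lam ^ 2 - Bc * lam + C := by rw [hA, hBc, hC]; ring
      rw [this, hroot]
    -- the kernel vector
    by_cases hz : a - lam * a0 = 0 ∧ b - lam * b0 = 0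
    · refine ⟨![1, 0], lam, he1, fun v => ?_⟩
      rw [std q hs, std q0 h0s]
      simp only [Matrix.cons_val_zero, Matrix.cons_val_one, ← ha0, ← hb0, ← hd0, ← ha, ← hb, ← hd]
      linear_combination v 0 * hz.1 + v 1 * hz.2
    · refine ⟨![-(b - lam * b0), a - lam * a0], lam, ?_, fun v => ?_⟩
      · intro h
        have h0 := congrFun h 0
        have h1 := congrFun h 1
        simp only [Matrix.cons_val_zero, Matrix.cons_val_one, Pi.zero_apply] at h0 h1
        exact hz ⟨h1, by linarith⟩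
      · rw [std q hs, std q0 h0s]
        simp only [Matrix.cons_val_zero, Matrix.cons_val_one, ← ha0, ← hb0, ← hd0, ← ha, ← hb, ← hd]
        linear_combination v 1 * hdet
  -- an orthogonal vector
  set p' : C2 := ![-(q0 p ![0, 1]), q0 p ![1, 0]] with hp'
  have hq0p : ∀ v : C2, q0 p v = v 0 * q0 p ![1, 0] + v 1 * q0 p ![0, 1] := by
    intro v
    have hv : v = v 0 • (![1, 0] : C2) + v 1 • (![0, 1] : C2) := by
      ext i; fin_cases i <;> simp
    conv_lhs => rw [hv]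
    simp only [map_add, map_smul, smul_eq_mul]
  have horth : q0 p p' = 0 := by
    rw [hq0p p', hp']; simp; ring
  have horth' : q p p' = 0 := by rw [heig, horth, mul_zero]
  have hpp : 0 < q0 p p := h0p p hp0
  have hD : p 0 * p' 1 - p 1 * p' 0 ≠ 0 := by
    have : p 0 * p' 1 - p 1 * p' 0 = q0 p p := by
      rw [hq0p p, hp']; simp
    rw [this]; exact hpp.ne'
  have hp'0 : p' ≠ 0 := by
    intro h; rw [h] at hD; simp at hD
  have hpp' : 0 < q0 p' p' := h0p p' hp'0
  have hqp : 0 < q p p := hp p hp0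
  have hqp' : 0 < q p' p' := hp p' hp'0
  set D := p 0 * p' 1 - p 1 * p' 0 with hDdef
  set s1 := Real.sqrt (q0 p p) with hs1
  set s2 := Real.sqrt (q0 p' p') with hs2
  have hs1p : 0 < s1 := Real.sqrt_pos.2 hpp
  have hs2p : 0 < s2 := Real.sqrt_pos.2 hpp'
  have hs1s : s1 ^ 2 = q0 p p := Real.sq_sqrt hpp.le
  have hs2s : s2 ^ 2 = q0 p' p' := Real.sq_sqrt hpp'.le
  have hdet : (s1 * p' 1 / D) * (s2 * p 0 / D) - (-(s1 * p' 0) / D) * (-(s2 * p 1) / D) ≠ 0 := by
    have : (s1 * p' 1 / D) * (s2 * p 0 / D) - (-(s1 * p' 0) / D) * (-(s2 * p 1) / D) = s1 * s2 / D := by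
      field_simp
      rw [hDdef]; ring
    rw [this]
    exact div_ne_zero (mul_pos hs1p hs2p).ne' hD
  refine ⟨mk _ _ _ _ hdet, q p p / q0 p p, q p' p' / q0 p' p', div_pos hqp hpp,
    div_pos hqp' hpp', ?_, ?_⟩
  · intro u v
    rw [mk_zero, mk_zero, mk_one, mk_one]
    conv_lhs => rw [expand p p' u hD, expand p p' v hD]
    rw [form_expand q0 h0s, horth, ← hs1s, ← hs2s, ← hDdef]
    field_simp
    ring
  · intro u v
    rw [mk_zero, mk_zero, mk_one, mk_one]
    conv_lhs => rw [expand p p' u hD, expand p p' v hD]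
    rw [form_expand q hs, horth', ← hs1s, ← hs2s, ← hDdef]
    field_simp
    ring

theorem exists_diag_sei (q0 q : LinearMap.BilinForm ℝ C2) (f : C2) (hf : f ≠ 0)
    (h0s : ∀ u v, q0 u v = q0 v u) (h0f : ∀ u, q0 f u = 0)
    (h0p : ∀ u, (∀ r : ℝ, u ≠ r • f) → 0 < q0 u u)
    (hs : ∀ u v, q u v = q v u) (hp : ∀ u, u ≠ 0 → 0 < q u u) :
    ∃ (Ω : C2 ≃ₗ[ℝ] C2) (ρ σ : ℝ), 0 < ρ ∧ 0 < σ ∧
      (∀ u v, q0 u v = Ω u 0 * Ω v 0) ∧
      (∀ u v, q u v - q f u * q f v / q f f = ρ * (Ω u 0 * Ω v 0)) ∧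
      ∀ u v, q f u * q f v / q f f = σ * (Ω u 1 * Ω v 1) := by
  set f' : C2 := ![-(f 1), f 0] with hf'
  have hDpos : 0 < f 0 ^ 2 + f 1 ^ 2 := by
    by_contra hneg
    have h0 : f 0 = 0 := by nlinarith [sq_nonneg (f 0), sq_nonneg (f 1)]
    have h1 : f 1 = 0 := by nlinarith [sq_nonneg (f 0), sq_nonneg (f 1)]
    apply hf
    ext i; fin_cases i
    · simpa using h0
    · simpa using h1
  have hDval : f 0 * f' 1 - f 1 * f' 0 = f 0 ^ 2 + f 1 ^ 2 := by
    rw [hf']; simp; ring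
  have hD : f 0 * f' 1 - f 1 * f' 0 ≠ 0 := by rw [hDval]; exact hDpos.ne'
  have hN : 0 < q0 f' f' := by
    apply h0p
    intro r hr
    rw [hr] at hD
    apply hD
    simp; ring
  have hff : 0 < q f f := hp f hf
  set D := f 0 * f' 1 - f 1 * f' 0 with hDdef
  set s := Real.sqrt (q0 f' f') with hsdef
  have hsp : 0 < s := Real.sqrt_pos.2 hN
  have hss : s ^ 2 = q0 f' f' := Real.sq_sqrt hN.le
  have hqf : ∀ v : C2, q f v = q f ![1, 0] * v 0 + q f ![0, 1] * v 1 := by
    intro v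
    have hv : v = v 0 • (![1, 0] : C2) + v 1 • (![0, 1] : C2) := by
      ext i; fin_cases i <;> simp
    conv_lhs => rw [hv]
    simp only [map_add, map_smul, smul_eq_mul]
    ring
  have hdet : (-(s * f 1) / D) * (q f ![0, 1]) - (s * f 0 / D) * (q f ![1, 0]) ≠ 0 := by
    have : (-(s * f 1) / D) * (q f ![0, 1]) - (s * f 0 / D) * (q f ![1, 0]) = -(s * q f f / D) := by
      rw [hqf f]; ring
    rw [this]
    exact neg_ne_zero.2 (div_ne_zero (mul_pos hsp hff).ne' hD)
  have hCS : 0 < q f' f' - q f f' ^ 2 / q f f := by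
    -- evaluate `q` at `f' - (q f f'/q f f) f`
    have hne : (-(q f f' / q f f)) • f + (1 : ℝ) • f' ≠ 0 := by
      intro h
      have h0 := congrFun h 0
      have h1 := congrFun h 1
      simp only [Pi.add_apply, Pi.smul_apply, smul_eq_mul, Pi.zero_apply] at h0 h1
      apply hD
      have : D = f 0 * ((-(q f f' / q f f)) * f 1 + 1 * f' 1) -
          f 1 * ((-(q f f' / q f f)) * f 0 + 1 * f' 0) := by rw [hDdef]; ring
      rw [this, h0, h1]; ring
    have h := hp _ hne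
    rw [form_expand q hs] at h
    have : (-(q f f' / q f f)) * (-(q f f' / q f f)) * q f f +
        ((-(q f f' / q f f)) * 1 + 1 * (-(q f f' / q f f))) * q f f' + 1 * 1 * q f' f' =
        q f' f' - q f f' ^ 2 / q f f := by
      field_simp
      ring
    rw [this] at h
    exact h
  refine ⟨mk _ _ _ _ hdet, (q f' f' - q f f' ^ 2 / q f f) / q0 f' f', 1 / q f f,
    div_pos hCS hN, by positivity, ?_, ?_, ?_⟩
  · intro u v
    rw [mk_zero, mk_zero]
    conv_lhs => rw [expand f f' u hD, expand f f' v hD]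
    rw [form_expand q0 h0s, h0f f, h0f f', ← hss, ← hDdef]
    field_simp
    ring
  · intro u v
    rw [mk_zero, mk_zero]
    have hfu : ∀ w : C2, q f w = (w 0 * f' 1 - w 1 * f' 0) / D * q f f +
        (f 0 * w 1 - f 1 * w 0) / D * q f f' := by
      intro w
      conv_lhs => rw [expand f f' w hD]
      rw [hDdef]
      simp only [map_add, map_smul, smul_eq_mul]
    have hquv : q u v = (u 0 * f' 1 - u 1 * f' 0) / D * ((v 0 * f' 1 - v 1 * f' 0) / D) * q f f +
        ((u 0 * f' 1 - u 1 * f' 0) / D * ((f 0 * v 1 - f 1 * v 0) / D) +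
          (f 0 * u 1 - f 1 * u 0) / D * ((v 0 * f' 1 - v 1 * f' 0) / D)) * q f f' +
        (f 0 * u 1 - f 1 * u 0) / D * ((f 0 * v 1 - f 1 * v 0) / D) * q f' f' := by
      conv_lhs => rw [expand f f' u hD, expand f f' v hD]
      rw [form_expand q hs]
    rw [hquv, hfu u, hfu v, ← hss]
    field_simp
    ring
  · intro u v
    rw [mk_one, mk_one, hqf u, hqf v]
    field_simp

end NPCG
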