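import Pool.Agent.Lib.NPCG.FixA
import Pool.Agent.Lib.NPCG.Trans

/-! # NPCG.FixB: from periods to standard form

MODULE (about 2.5 h), uses `exists_k` (FixA) and `exists_transition` (Trans) as black boxes. For every Seifert end `e` take
`δ e, k e` from `exists_k`; `T1 = 10 + min δ / 2` (finite `E`; `T1 = 11` if there is no Seifert end). Let
`R = {w | 10 < w 0 ∧ w 0 < 11}`. For `p = J e w`, `w ∈ R`, `e` a Seifert end, put
`b' p X Y = b p X Y - μ X * θ Y`, `F' = D (J e) w (hor (f e))`, `μ X = b p F' X / b p F' F'`,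
`θ (D (J e) w u) = fderiv (k e) w u` (use a left inverse of `D (J e) w`, cf. `DI` in `NPCG.Coll`); for all other `p` put
`b' p = b p`. It does not depend on the choice of `(e, w)`: by `𝒟.inj` two choices have the same `e` and differ by `int n`
(the other case of `inj` needs `t' = -t`), and `D (J e)`, `fderiv (k e)` are periodic (`D_period`, periodicity of `k`).
Then `b' F' Y = b F' Y - θ Y`, `θ F' = 0`, so `b' F' F' = b F' F' > 0` (`F' = ± F`), and `ends` is the last clause of `exists_k`.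
CLOSED: let `Φ, W` be `IsSei`, `W` convex, `A, c` from `hb.closed`. For `w ∈ W` with `Φ w = J e w'`, `w' ∈ R`, `e` Seifert, let
`s = ±1` with `D Φ w e2 = s • D (J e) w' (hor (f e))` (both are `± F`), `K w = s * k e w'` (independent of the choice), and
`K w = 0` if there is no such `(e, w')`. Then `A' = A - K`, `c' = c`:
`b' (DΦ e2) (DΦ u) = s • b' F' (DΦ u) = b (DΦ e2) (DΦ u) - s * θ (DΦ u)`, and `d K u = s * θ (DΦ u)`.
`K` is smooth on `W`: (i) near `w` with `Φ w = J e w'`: `exists_transition` gives a smooth `τ` with `Φ z = J e (τ z)`; then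
`fderiv τ z e2 = s z • hor (f e)` (injectivity of `D (J e)`), a continuous function of `z`, so the sign `s z` is constant near
`w`, and `K z = s * k e (τ z)`. (ii) `Φ w` not in any `J e '' R` (`e` Seifert): the set
`C e = J e '' {w' | 10 ≤ w' 0 ≤ 10 + 3/4 δ e}` is compact (periodicity: image of `[10, ..] × [0,1]²`), hence closed (`T2Space`),
and `Φ w ∉ C e` (`t = 10` is excluded by `𝒟.mid`, because `Φ w ∈ S`); so near `w` no point `Φ z` lies in any `C e`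
(finite `E`), and there `K = 0` (`k e w' = 0` for `w' 0 ≥ 10 + 3/4 δ e`).
-/

open Set
open scoped Manifold ContDiff

namespace NPCG

variable {M : Type*} [TopologicalSpace M] [ChartedSpace E3 M]
variable {G : Type*} [Group G] [MulAction G M] {E : Type*} [MulAction G E]

namespace FixB

/-- the outer part of the collars -/
def R : Set C3 := {w | 10 < w 0 ∧ w 0 < 11}

theorem R_open : IsOpen R :=
  (isOpen_lt continuous_const (continuous_apply 0)).inter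
    (isOpen_lt (continuous_apply 0) continuous_const)

theorem R_sub : R ⊆ dom := fun _ hw => ⟨by linarith [hw.1], hw.2⟩

theorem add_hor (w : C3) (n : Fin 2 → ℤ) : w + hor (int n) = pt (w 0) (tan w + int n) := by
  funext i; fin_cases i <;> simp [pt, hor, tan]

theorem add_hor_mem {w : C3} (hw : w ∈ R) (n : Fin 2 → ℤ) : w + hor (int n) ∈ R := by
  rw [add_hor]
  exact hw

/-- a Seifert end -/
def Sei (𝒟 : Decomp M G E) (e : E) : Prop := ∀ t x, 10 < t → t < 11 → 𝒟.J e (pt t x) ∈ 𝒟.S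

theorem Sei.mem {𝒟 : Decomp M G E} {e : E} (h : Sei 𝒟 e) {w : C3} (hw : w ∈ R) :
    𝒟.J e w ∈ 𝒟.S := by
  have := h (w 0) (tan w) hw.1 hw.2
  rwa [pt_eta] at this

theorem sei_of_mem {𝒟 : Decomp M G E} {e : E} {t : ℝ} {x : C2} (h1 : 10 < t) (h2 : t < 11)
    (h : 𝒟.J e (pt t x) ∈ 𝒟.S) : Sei 𝒟 e := by
  rcases 𝒟.ends e with h' | h'
  · exact absurd h (fun h3 => Set.disjoint_left.1 𝒟.disj (h' t x h1 h2) h3)
  · exact h'

theorem F_ne {𝒟 : Decomp M G E} {p : M} (hp : p ∈ 𝒟.S) : 𝒟.F p ≠ 0 := by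
  obtain ⟨Φ, W, hΦ, w, hw, rfl⟩ := 𝒟.sei p hp
  intro h0
  have h1 : D Φ w (Pi.single 2 1) = 0 := by
    rcases hΦ.fib w hw with h | h
    · rw [h, h0]
    · rw [h, h0, neg_zero]
  have h2 : (Pi.single 2 1 : C3) = 0 := hΦ.inj w hw (by rw [h1, map_zero])
  have h3 := congrFun h2 2
  simp at h3

theorem hor_F {𝒟 : Decomp M G E} {e : E} (h : Sei 𝒟 e) {w : C3} (hw : w ∈ R) :
    D (𝒟.J e) w (hor (𝒟.f e)) = 𝒟.F (𝒟.J e w) ∨ D (𝒟.J e) w (hor (𝒟.f e)) = -𝒟.F (𝒟.J e w) := by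
  have := 𝒟.fEnd e (w 0) (tan w) hw.1 hw.2 (by rw [pt_eta]; exact h.mem hw)
  rwa [pt_eta] at this

theorem hor_ne {𝒟 : Decomp M G E} {e : E} (h : Sei 𝒟 e) {w : C3} (hw : w ∈ R) :
    D (𝒟.J e) w (hor (𝒟.f e)) ≠ 0 := by
  rcases hor_F h hw with h1 | h1 <;> rw [h1]
  · exact F_ne (h.mem hw)
  · exact neg_ne_zero.2 (F_ne (h.mem hw))

theorem uniq (𝒟 : Decomp M G E) {e e' : E} {w w' : C3} (hw : w ∈ R) (hw' : w' ∈ R)
    (h : 𝒟.J e w = 𝒟.J e' w') : e' = e ∧ ∃ n : Fin 2 → ℤ, w' = w + hor (int n) := by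
  have h1 : 𝒟.J e (pt (w 0) (tan w)) = 𝒟.J e' (pt (w' 0) (tan w')) := by
    rw [pt_eta, pt_eta, h]
  rcases 𝒟.inj e e' (w 0) (w' 0) (tan w) (tan w') (by linarith [hw.1]) hw.2 (by linarith [hw'.1])
    hw'.2 h1 with ⟨h2, h3, n, h4⟩ | ⟨h2, h3, n, h4⟩
  · refine ⟨h2, n, ?_⟩
    rw [add_hor, ← h4, ← h3, pt_eta]
  · exfalso
    linarith [hw.1, hw'.1]

theorem D_per (𝒟 : Decomp M G E) (e : E) {w : C3} (hw : w ∈ R) (n : Fin 2 → ℤ) (u : C3) :
    D (𝒟.J e) (w + hor (int n)) u = D (𝒟.J e) w u := by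
  rw [add_hor, D_period 𝒟 e (w 0) (tan w) n (by linarith [hw.1]) hw.2 u, pt_eta]

theorem fderiv_per {k : C3 → ℝ} (hk : ∀ w ∈ R, ∀ n, k (w + hor (int n)) = k w) {w : C3}
    (hw : w ∈ R) (n : Fin 2 → ℤ) : fderiv ℝ k (w + hor (int n)) = fderiv ℝ k w := by
  rw [← fderiv_comp_add_right]
  apply Filter.EventuallyEq.fderiv_eq
  filter_upwards [R_open.mem_nhds hw] with z hz
  exact hk z hz n

/-- a left inverse of an injective linear map -/
noncomputable def LI (T : C3 →L[ℝ] E3) : E3 →ₗ[ℝ] C3 :=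
  open Classical in
  if h : LinearMap.ker T.toLinearMap = ⊥ then
    Classical.choose (T.toLinearMap.exists_leftInverse_of_injective h) else 0

theorem LI_apply {T : C3 →L[ℝ] E3} (h : Function.Injective T) (u : C3) : LI T (T u) = u := by
  have hk : LinearMap.ker T.toLinearMap = ⊥ := LinearMap.ker_eq_bot.2 h
  unfold LI
  rw [dif_pos hk]
  have := Classical.choose_spec (T.toLinearMap.exists_leftInverse_of_injective hk)
  exact LinearMap.congr_fun this u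

/-- the changed bilinear form at one point -/
noncomputable def chg (β : LinearMap.BilinForm ℝ E3) (F : E3) (θ : E3 →ₗ[ℝ] ℝ) :
    LinearMap.BilinForm ℝ E3 := β - ((β F F)⁻¹ • β F).smulRight θ

theorem chg_self {β : LinearMap.BilinForm ℝ E3} {F : E3} (θ : E3 →ₗ[ℝ] ℝ) (h : β F F ≠ 0)
    (Y : E3) : chg β F θ F Y = β F Y - θ Y := by
  simp [chg, inv_mul_cancel₀ h]

/-- `p` lies on the outer part of the collar of a Seifert end -/
def At (𝒟 : Decomp M G E) (p : M) (y : E × C3) : Prop :=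
  Sei 𝒟 y.1 ∧ y.2 ∈ R ∧ 𝒟.J y.1 y.2 = p

open Classical in
/-- the changed form -/
noncomputable def bb (𝒟 : Decomp M G E) (b : Bil M) (k : E → C3 → ℝ) : Bil M := fun p =>
  if h : ∃ y : E × C3, At 𝒟 p y then
    chg (b p) (D (𝒟.J h.choose.1) h.choose.2 (hor (𝒟.f h.choose.1)))
      ((fderiv ℝ (k h.choose.1) h.choose.2).toLinearMap.comp
        (LI (D (𝒟.J h.choose.1) h.choose.2)))
  else b p

theorem bb_of_not {𝒟 : Decomp M G E} {b : Bil M} {k : E → C3 → ℝ} {p : M}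
    (h : ¬ ∃ y : E × C3, At 𝒟 p y) : bb 𝒟 b k p = b p := by
  unfold bb
  rw [dif_neg h]

theorem bb_eq {𝒟 : Decomp M G E} {b : Bil M} {q : E → LinearMap.BilinForm ℝ C2}
    (hb : Compatible 𝒟 b q) {k : E → C3 → ℝ}
    (hk : ∀ e, Sei 𝒟 e → ∀ w ∈ R, ∀ n, k e (w + hor (int n)) = k e w)
    {e : E} (he : Sei 𝒟 e) {w : C3} (hw : w ∈ R) (u : C3) :
    bb 𝒟 b k (𝒟.J e w) (D (𝒟.J e) w (hor (𝒟.f e))) (D (𝒟.J e) w u) =
      b (𝒟.J e w) (D (𝒟.J e) w (hor (𝒟.f e))) (D (𝒟.J e) w u) - fderiv ℝ (k e) w u := by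
  have hex : ∃ y : E × C3, At 𝒟 (𝒟.J e w) y := ⟨(e, w), he, hw, rfl⟩
  have h0 : bb 𝒟 b k (𝒟.J e w) = chg (b (𝒟.J e w))
      (D (𝒟.J hex.choose.1) hex.choose.2 (hor (𝒟.f hex.choose.1)))
      ((fderiv ℝ (k hex.choose.1) hex.choose.2).toLinearMap.comp
        (LI (D (𝒟.J hex.choose.1) hex.choose.2))) := by
    unfold bb
    rw [dif_pos hex]
  rw [h0]
  obtain ⟨k1, k2, k3⟩ := hex.choose_spec
  generalize hex.choose = y at k1 k2 k3 ⊢
  obtain ⟨e', w'⟩ := y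
  simp only at k1 k2 k3 ⊢
  obtain ⟨rfl, n, rfl⟩ := uniq 𝒟 hw k2 k3.symm
  have hinj : Function.Injective (D (𝒟.J e') (w + hor (int n))) :=
    (𝒟.param e').inj _ (R_sub k2)
  have hDf : D (𝒟.J e') (w + hor (int n)) (hor (𝒟.f e')) = D (𝒟.J e') w (hor (𝒟.f e')) :=
    D_per 𝒟 e' hw n _
  have hFF : b (𝒟.J e' w) (D (𝒟.J e') w (hor (𝒟.f e'))) (D (𝒟.J e') w (hor (𝒟.f e'))) ≠ 0 :=
    (hb.bpos _ (he.mem hw) _ (hor_ne he hw)).ne'
  rw [hDf, chg_self _ hFF]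
  congr 1
  rw [LinearMap.comp_apply, ← D_per 𝒟 e' hw n u, LI_apply hinj, fderiv_per (hk e' he) hw n]
  rfl

/-- the data of the ends -/
structure Data (𝒟 : Decomp M G E) (b : Bil M) (q : E → LinearMap.BilinForm ℝ C2)
    (δ : E → ℝ) (k : E → C3 → ℝ) : Prop where
  pos : ∀ e, 0 < δ e
  le : ∀ e, δ e ≤ 1
  smooth : ∀ e, Sei 𝒟 e → ContDiffOn ℝ ∞ (k e) R
  per : ∀ e, Sei 𝒟 e → ∀ w ∈ R, ∀ n, k e (w + hor (int n)) = k e w
  zero : ∀ e, Sei 𝒟 e → ∀ w, 10 + 3 / 4 * δ e ≤ w 0 → k e w = 0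
  fz : ∀ e, Sei 𝒟 e → ∀ w ∈ R, fderiv ℝ (k e) w (hor (𝒟.f e)) = 0
  eq : ∀ e, Sei 𝒟 e → ∀ t x, 10 < t → t < 10 + δ e / 2 → ∀ u,
        b (𝒟.J e (pt t x)) (D (𝒟.J e) (pt t x) (hor (𝒟.f e))) (D (𝒟.J e) (pt t x) u) -
          fderiv ℝ (k e) (pt t x) u = q e (𝒟.f e) (tan u)

theorem exists_data [IsManifold (𝓡 3) ∞ M] {𝒟 : Decomp M G E} {b : Bil M}
    {q : E → LinearMap.BilinForm ℝ C2} (hb : Compatible 𝒟 b q) :
    ∃ δ k, Data 𝒟 b q δ k := by
  classical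
  have h1 : ∀ e : E, ∃ (δ : ℝ) (k : C3 → ℝ), 0 < δ ∧ δ ≤ 1 ∧ (Sei 𝒟 e →
      ContDiffOn ℝ ∞ k R ∧ (∀ w ∈ R, ∀ n, k (w + hor (int n)) = k w) ∧
      (∀ w, 10 + 3 / 4 * δ ≤ w 0 → k w = 0) ∧
      (∀ w ∈ R, fderiv ℝ k w (hor (𝒟.f e)) = 0) ∧
      ∀ t x, 10 < t → t < 10 + δ / 2 → ∀ u,
        b (𝒟.J e (pt t x)) (D (𝒟.J e) (pt t x) (hor (𝒟.f e))) (D (𝒟.J e) (pt t x) u) -
          fderiv ℝ k (pt t x) u = q e (𝒟.f e) (tan u)) := by
    intro e
    by_cases he : Sei 𝒟 e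
    · obtain ⟨δ, k, a1, a2, a3, a4, a5, a6, a7⟩ := exists_k 𝒟 hb e he
      refine ⟨δ, k, a1, a2, fun _ => ⟨a3, ?_, a5, ?_, a7⟩⟩
      · intro w hw n
        rw [add_hor, a4 (w 0) (tan w) n hw.1 hw.2, pt_eta]
      · intro w hw
        have := a6 (w 0) (tan w) hw.1 hw.2
        rwa [pt_eta] at this
    · exact ⟨1, 0, one_pos, le_refl _, fun h => absurd h he⟩
  choose δ k h2 h3 h4 using h1
  exact ⟨δ, k, h2, h3, fun e he => (h4 e he).1, fun e he => (h4 e he).2.1,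
    fun e he => (h4 e he).2.2.1, fun e he => (h4 e he).2.2.2.1, fun e he => (h4 e he).2.2.2.2⟩

section closed

variable {𝒟 : Decomp M G E} {b : Bil M} {q : E → LinearMap.BilinForm ℝ C2}
  {δ : E → ℝ} {k : E → C3 → ℝ}

open Classical in
/-- the primitive of the change -/
noncomputable def K (𝒟 : Decomp M G E) (k : E → C3 → ℝ) (Φ : C3 → M) (w : C3) : ℝ :=
  if h : ∃ y : E × C3, At 𝒟 (Φ w) y then
    (if D Φ w (Pi.single 2 1) = D (𝒟.J h.choose.1) h.choose.2 (hor (𝒟.f h.choose.1)) then 1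
      else -1) * k h.choose.1 h.choose.2
  else 0

open Classical in
theorem K_eq (hk : ∀ e, Sei 𝒟 e → ∀ w ∈ R, ∀ n, k e (w + hor (int n)) = k e w)
    {Φ : C3 → M} {w : C3} {e : E} (he : Sei 𝒟 e) {w' : C3} (hw' : w' ∈ R)
    (h : 𝒟.J e w' = Φ w) :
    K 𝒟 k Φ w = (if D Φ w (Pi.single 2 1) = D (𝒟.J e) w' (hor (𝒟.f e)) then 1 else -1) *
      k e w' := by
  have hex : ∃ y : E × C3, At 𝒟 (Φ w) y := ⟨(e, w'), he, hw', h⟩
  unfold K
  rw [dif_pos hex]
  obtain ⟨k1, k2, k3⟩ := hex.choose_spec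
  generalize hex.choose = y at k1 k2 k3 ⊢
  obtain ⟨e', w''⟩ := y
  simp only at k1 k2 k3 ⊢
  obtain ⟨rfl, n, rfl⟩ := uniq 𝒟 hw' k2 (h.trans k3.symm)
  rw [D_per 𝒟 e' hw' n, hk e' he w' hw' n]

/-- the closed collar part -/
def C (𝒟 : Decomp M G E) (δ : E → ℝ) (e : E) : Set M :=
  𝒟.J e '' {w | 10 ≤ w 0 ∧ w 0 ≤ 10 + 3 / 4 * δ e}

theorem C_closed [T2Space M] (h : Data 𝒟 b q δ k) (e : E) : IsClosed (C 𝒟 δ e) := by
  have h1 : C 𝒟 δ e = 𝒟.J e '' (Icc (![10, 0, 0] : C3) (![10 + 3 / 4 * δ e, 1, 1] : C3)) := by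
    apply Subset.antisymm
    · rintro _ ⟨w, hw, rfl⟩
      refine ⟨pt (w 0) (fun i => Int.fract (tan w i)), ?_, ?_⟩
      · constructor
        · intro i
          fin_cases i
          · exact hw.1
          · exact Int.fract_nonneg _
          · exact Int.fract_nonneg _
        · intro i
          fin_cases i
          · exact hw.2
          · exact (Int.fract_lt_one _).le
          · exact (Int.fract_lt_one _).le
      · have h2 := 𝒟.period e (w 0) (fun i => Int.fract (tan w i)) (fun i => ⌊tan w i⌋)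
        have h3 : (fun i => Int.fract (tan w i)) + int (fun i => ⌊tan w i⌋) = tan w := by
          funext i
          simp only [Pi.add_apply, int]
          exact Int.fract_add_floor (tan w i)
        rw [h3, pt_eta] at h2
        exact h2.symm
    · rintro _ ⟨w, hw, rfl⟩
      exact ⟨w, ⟨hw.1 0, hw.2 0⟩, rfl⟩
  rw [h1]
  apply IsCompact.isClosed
  apply isCompact_Icc.image_of_continuousOn
  refine (𝒟.param e).smooth.continuousOn.mono ?_
  intro w hw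
  have h2 := hw.1 0
  have h3 := hw.2 0
  simp only [Matrix.cons_val_zero] at h2 h3
  have h4 := h.le e
  have h5 := h.pos e
  exact ⟨by linarith, by linarith⟩

/-- away from the collars `K` vanishes -/
theorem K_zero [T2Space M] [Finite E] (h : Data 𝒟 b q δ k) {Φ : C3 → M} {W : Set C3}
    (hΦ : IsSei 𝒟.S 𝒟.ref 𝒟.F Φ W) {w : C3} (hw : w ∈ W) (hn : ¬ ∃ y : E × C3, At 𝒟 (Φ w) y) :
    K 𝒟 k Φ =ᶠ[nhds w] fun _ => 0 := by
  have hcl : IsClosed (⋃ e ∈ {e | Sei 𝒟 e}, C 𝒟 δ e) :=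
    Set.Finite.isClosed_biUnion (Set.toFinite _) (fun e _ => C_closed h e)
  have hnot : Φ w ∈ (⋃ e ∈ {e | Sei 𝒟 e}, C 𝒟 δ e)ᶜ := by
    intro hmem
    simp only [mem_iUnion] at hmem
    obtain ⟨e, he, w', hw', hJ⟩ := hmem
    have h5 := h.pos e
    have h6 := h.le e
    rcases eq_or_lt_of_le hw'.1 with h7 | h7
    · have h8 := 𝒟.mid e (w' 0) (tan w') (by rw [← h7]; norm_num) (le_of_eq h7.symm)
      rw [pt_eta, hJ] at h8
      exact h8 (Or.inr (hΦ.maps w hw))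
    · exact hn ⟨(e, w'), he, ⟨h7, by linarith [hw'.2]⟩, hJ⟩
  have hcont : ContinuousAt Φ w := (hΦ.toIsParam.cmdiffAt hw).continuousAt
  filter_upwards [hcont.preimage_mem_nhds (hcl.isOpen_compl.mem_nhds hnot)] with z hz
  by_cases hex : ∃ y : E × C3, At 𝒟 (Φ z) y
  · obtain ⟨⟨e, w'⟩, he, hw', hJ⟩ := hex
    simp only at he hw' hJ
    rw [K_eq h.per he hw' hJ]
    have h9 : 10 + 3 / 4 * δ e ≤ w' 0 := by
      by_contra hlt
      apply hz
      simp only [mem_iUnion]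
      exact ⟨e, he, w', ⟨hw'.1.le, (not_le.1 hlt).le⟩, hJ⟩
    rw [h.zero e he w' h9, mul_zero]
  · unfold K
    rw [dif_neg hex]

/-- near the collars -/
theorem K_near [IsManifold (𝓡 3) ∞ M] (h : Data 𝒟 b q δ k) {Φ : C3 → M} {W : Set C3}
    (hΦ : IsSei 𝒟.S 𝒟.ref 𝒟.F Φ W) {w : C3} (hw : w ∈ W) {e : E} (he : Sei 𝒟 e)
    {w' : C3} (hw' : w' ∈ R) (hJ : 𝒟.J e w' = Φ w) :
    ∃ (s : ℝ) (τ : C3 → C3), s * s = 1 ∧ ContDiffAt ℝ ∞ τ w ∧ τ w = w' ∧
      (K 𝒟 k Φ =ᶠ[nhds w] fun z => s * k e (τ z)) ∧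
      (∀ u, D Φ w u = D (𝒟.J e) w' (fderiv ℝ τ w u)) ∧
      D Φ w (Pi.single 2 1) = s • D (𝒟.J e) w' (hor (𝒟.f e)) ∧
      fderiv ℝ τ w (Pi.single 2 1) = s • hor (𝒟.f e) := by
  classical
  have hp : IsParam (𝒟.J e) R := ⟨R_open, (𝒟.param e).smooth.mono R_sub,
    fun w hw => (𝒟.param e).inj w (R_sub hw)⟩
  obtain ⟨τ, V, hV, hwV, hVW, hτ, hτw, hτR, hτJ, _⟩ :=
    exists_transition hΦ.toIsParam hp hw hw' hJ.symm
  have hτat : ∀ z ∈ V, ContDiffAt ℝ ∞ τ z := fun z hz => (hτ z hz).contDiffAt (hV.mem_nhds hz)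
  have hDz : ∀ z ∈ V, ∀ u, D Φ z u = D (𝒟.J e) (τ z) (fderiv ℝ τ z u) := by
    intro z hz u
    have h1 : D Φ z = D (fun z => 𝒟.J e (τ z)) z := by
      refine D_congr ?_
      filter_upwards [hV.mem_nhds hz] with y hy
      exact hτJ y hy
    rw [h1]
    exact hp.D_comp ((hτat z hz).differentiableAt (by simp)) (hτR z hz) u
  -- the sign
  have hsg : ∀ z ∈ V, D Φ z (Pi.single 2 1) = D (𝒟.J e) (τ z) (hor (𝒟.f e)) ∨
      D Φ z (Pi.single 2 1) = -D (𝒟.J e) (τ z) (hor (𝒟.f e)) := by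
    intro z hz
    have h1 := hΦ.fib z (hVW hz)
    have h2 := hor_F he (hτR z hz)
    rw [← hτJ z hz] at h2
    rcases h1 with h1 | h1 <;> rcases h2 with h2 | h2 <;> rw [h1, h2] <;> simp
  have hfd : ∀ z ∈ V, (fderiv ℝ τ z (Pi.single 2 1) = hor (𝒟.f e) ∨
      fderiv ℝ τ z (Pi.single 2 1) = -hor (𝒟.f e)) ∧
      (D Φ z (Pi.single 2 1) = D (𝒟.J e) (τ z) (hor (𝒟.f e)) ↔
        fderiv ℝ τ z (Pi.single 2 1) = hor (𝒟.f e)) := by
    intro z hz
    have hinj := hp.inj _ (hτR z hz)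
    have h3 : D Φ z (Pi.single 2 1) = D (𝒟.J e) (τ z) (hor (𝒟.f e)) ↔
        fderiv ℝ τ z (Pi.single 2 1) = hor (𝒟.f e) := by
      rw [hDz z hz]
      exact hinj.eq_iff
    refine ⟨?_, h3⟩
    rcases hsg z hz with h1 | h1
    · exact Or.inl (h3.1 h1)
    · right
      rw [hDz z hz, ← map_neg] at h1
      exact hinj h1
  have hf0 : hor (𝒟.f e) ≠ 0 := by
    intro h0
    exact hor_ne he hw' (by rw [h0, map_zero])
  have hne : hor (𝒟.f e) ≠ -hor (𝒟.f e) := by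
    intro h0
    exact hf0 (self_eq_neg.1 h0)
  have hcont : ContinuousAt (fun z => fderiv ℝ τ z (Pi.single 2 1)) w := by
    have h1 : ContDiffAt ℝ 0 (fderiv ℝ τ) w := (hτat w hwV).fderiv_right (by simp)
    exact h1.continuousAt.clm_apply continuousAt_const
  have hev : ∀ᶠ z in nhds w, (fderiv ℝ τ z (Pi.single 2 1) = hor (𝒟.f e) ↔
      fderiv ℝ τ w (Pi.single 2 1) = hor (𝒟.f e)) := by
    rcases (hfd w hwV).1 with h1 | h1
    · have h2 : {v : C3 | v ≠ -hor (𝒟.f e)} ∈ nhds (fderiv ℝ τ w (Pi.single 2 1)) := by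
        rw [h1]
        exact isOpen_ne.mem_nhds hne
      filter_upwards [hcont.preimage_mem_nhds h2, hV.mem_nhds hwV] with z hz hzV
      rcases (hfd z hzV).1 with h3 | h3
      · exact ⟨fun _ => h1, fun _ => h3⟩
      · exact absurd h3 hz
    · have h2 : {v : C3 | v ≠ hor (𝒟.f e)} ∈ nhds (fderiv ℝ τ w (Pi.single 2 1)) := by
        rw [h1]
        exact isOpen_ne.mem_nhds hne.symm
      filter_upwards [hcont.preimage_mem_nhds h2] with z hz
      constructor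
      · intro h3
        exact absurd h3 hz
      · intro h3
        rw [h1] at h3
        exact absurd h3.symm hne
  refine ⟨if D Φ w (Pi.single 2 1) = D (𝒟.J e) w' (hor (𝒟.f e)) then 1 else -1, τ, ?_,
    hτat w hwV, hτw, ?_, ?_, ?_, ?_⟩
  · split_ifs <;> norm_num
  · filter_upwards [hev, hV.mem_nhds hwV] with z hz hzV
    rw [K_eq h.per he (hτR z hzV) (hτJ z hzV).symm]
    congr 1
    have h4 := (hfd z hzV).2
    have h5 := (hfd w hwV).2
    rw [hτw] at h5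
    rw [if_congr (h4.trans (hz.trans h5.symm)) rfl rfl]
  · intro u
    rw [hDz w hwV u, hτw]
  · have h6 := hsg w hwV
    rw [hτw] at h6
    split_ifs with h7
    · rw [one_smul, h7]
    · rcases h6 with h6 | h6
      · exact absurd h6 h7
      · rw [h6, neg_one_smul]
  · have h5 := hfd w hwV
    rw [hτw] at h5
    split_ifs with h7
    · rw [one_smul]
      exact h5.2.1 h7
    · rcases h5.1 with h6 | h6
      · exact absurd (h5.2.2 h6) h7
      · rw [h6, neg_one_smul]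

theorem closed_bb [IsManifold (𝓡 3) ∞ M] [T2Space M] [Finite E] (hb : Compatible 𝒟 b q)
    (h : Data 𝒟 b q δ k) (Φ : C3 → M) (W : Set C3) (hW : Convex ℝ W)
    (hΦ : IsSei 𝒟.S 𝒟.ref 𝒟.F Φ W) :
    ∃ (A : C3 → ℝ) (c : ℝ), ContDiffOn ℝ ∞ A W ∧
      (∀ w ∈ W, ∀ u, bb 𝒟 b k (Φ w) (D Φ w (Pi.single 2 1)) (D Φ w u) = fderiv ℝ A w u) ∧
      ∀ w ∈ W, bb 𝒟 b k (Φ w) (D Φ w (Pi.single 2 1)) (D Φ w (Pi.single 2 1)) = c := by
  obtain ⟨A, c, hA, hAd, hAc⟩ := hb.closed Φ W hW hΦ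
  have hAat : ∀ w ∈ W, ContDiffAt ℝ ∞ A w := fun w hw =>
    (hA w hw).contDiffAt (hΦ.isOpen.mem_nhds hw)
  -- pointwise statement
  have key : ∀ w ∈ W, ContDiffAt ℝ ∞ (K 𝒟 k Φ) w ∧
      (∀ u, bb 𝒟 b k (Φ w) (D Φ w (Pi.single 2 1)) (D Φ w u) =
        fderiv ℝ A w u - fderiv ℝ (K 𝒟 k Φ) w u) ∧
      fderiv ℝ (K 𝒟 k Φ) w (Pi.single 2 1) = 0 := by
    intro w hw
    by_cases hex : ∃ y : E × C3, At 𝒟 (Φ w) y
    · obtain ⟨⟨e, w'⟩, he, hw', hJ⟩ := hex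
      simp only at he hw' hJ
      obtain ⟨s, τ, hs, hτ, hτw, hK, hD, hDs, hτs⟩ := K_near h hΦ hw he hw' hJ
      have hkat : ContDiffAt ℝ ∞ (k e) (τ w) := by
        rw [hτw]
        exact (h.smooth e he w' hw').contDiffAt (R_open.mem_nhds hw')
      have hcomp : ContDiffAt ℝ ∞ (fun z => s * k e (τ z)) w :=
        contDiffAt_const.mul (hkat.comp w hτ)
      have hfK : ∀ u, fderiv ℝ (K 𝒟 k Φ) w u = s * fderiv ℝ (k e) w' (fderiv ℝ τ w u) := by
        intro u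
        have h1 : HasFDerivAt (fun z => k e (τ z)) ((fderiv ℝ (k e) w').comp (fderiv ℝ τ w)) w := by
          have h2 := (hkat.differentiableAt (by simp)).hasFDerivAt
          rw [hτw] at h2
          have h3 : HasFDerivAt (k e) (fderiv ℝ (k e) w') (τ w) := by rw [hτw]; exact h2
          exact h3.comp w (hτ.differentiableAt (by simp)).hasFDerivAt
        rw [hK.fderiv_eq, (h1.const_mul s).fderiv]
        simp
      refine ⟨hcomp.congr_of_eventuallyEq hK, ?_, ?_⟩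
      · intro u
        have h1 := bb_eq hb h.per he hw' (fderiv ℝ τ w u)
        have h2 := hAd w hw u
        rw [hfK, ← h2, hDs, hD u, ← hJ]
        simp only [map_smul, LinearMap.smul_apply, smul_eq_mul]
        rw [h1]
        ring
      · rw [hfK, hτs, map_smul, h.fz e he w' hw', smul_zero, mul_zero]
    · have hK := K_zero h hΦ hw hex
      refine ⟨contDiffAt_const.congr_of_eventuallyEq hK, ?_, ?_⟩
      · intro u
        rw [bb_of_not hex, hAd w hw u, hK.fderiv_eq]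
        simp
      · rw [hK.fderiv_eq]
        simp
  refine ⟨fun w => A w - K 𝒟 k Φ w, c, ?_, ?_, ?_⟩
  · intro w hw
    exact ((hAat w hw).sub (key w hw).1).contDiffWithinAt
  · intro w hw u
    have h1 : fderiv ℝ (fun w => A w - K 𝒟 k Φ w) w = fderiv ℝ A w - fderiv ℝ (K 𝒟 k Φ) w :=
      (((hAat w hw).differentiableAt (by simp)).hasFDerivAt.sub
        ((key w hw).1.differentiableAt (by simp)).hasFDerivAt).fderiv
    rw [(key w hw).2.1 u, h1]
    rfl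
  · intro w hw
    rw [(key w hw).2.1, (key w hw).2.2, sub_zero, ← hAd w hw, hAc w hw]

end closed

end FixB

open FixB in
theorem exists_core [IsManifold (𝓡 3) ∞ M] [T2Space M] [Finite E] (𝒟 : Decomp M G E) {b : Bil M}
    {q : E → LinearMap.BilinForm ℝ C2} (hb : Compatible 𝒟 b q) :
    ∃ (T1 : ℝ) (b' : Bil M), 10 < T1 ∧ T1 ≤ 11 ∧ Core 𝒟 T1 b' q := by
  classical
  obtain ⟨δ, k, h⟩ := exists_data hb
  obtain ⟨d, hd, hd1, hdδ⟩ : ∃ d : ℝ, 0 < d ∧ d ≤ 1 ∧ ∀ e, d ≤ δ e := by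
    rcases isEmpty_or_nonempty E with hE | hE
    · exact ⟨1, one_pos, le_refl _, fun e => (hE.false e).elim⟩
    · obtain ⟨e0, he0⟩ := Finite.exists_min δ
      exact ⟨δ e0, h.pos e0, h.le e0, he0⟩
  refine ⟨10 + d / 2, bb 𝒟 b k, by linarith, by linarith, hb.qsymm, hb.qpos, hb.glue, ?_,
    closed_bb hb h, ?_⟩
  · intro p hp
    by_cases hex : ∃ y : E × C3, At 𝒟 p y
    · obtain ⟨⟨e, w⟩, he, hw, rfl⟩ := hex
      simp only at he hw hp ⊢
      have h1 := bb_eq hb h.per he hw (hor (𝒟.f e))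
      rw [h.fz e he w hw, sub_zero] at h1
      have h2 := hb.bpos _ hp _ (F_ne hp)
      rcases hor_F he hw with h3 | h3
      · rw [h3] at h1
        rw [h1]
        exact h2
      · rw [h3] at h1
        simp only [map_neg, LinearMap.neg_apply, neg_neg] at h1
        rw [h1]
        exact h2
    · rw [bb_of_not hex]
      exact hb.bpos p hp _ (F_ne hp)
  · intro e t x h1 h2 h3 u
    have h4 := hdδ e
    have h5 := h.le e
    have he : Sei 𝒟 e := sei_of_mem h1 (by linarith) h3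
    have hw : pt t x ∈ R := ⟨h1, by rw [pt_zero]; linarith⟩
    rw [bb_eq hb h.per he hw u]
    exact h.eq e he t x h1 (by linarith) u

end NPCG
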