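import Pool.Agent.Lib.NPCG.Main
import Pool.Agent.Lib.NPCG.FixB

/-! # NPCG.Final: invariant metrics of nonpositive curvature -/

open Set
open scoped Manifold ContDiff

namespace NPCG

variable {M : Type*} [TopologicalSpace M] [ChartedSpace E3 M]
variable {G : Type*} [Group G] [MulAction G M] {E : Type*} [MulAction G E]

theorem exists_invariant_npc [T2Space M] [IsManifold (𝓡 3) ∞ M] [Finite G] [Finite E]
    (hG : ∀ γ : G, ContMDiff (𝓡 3) (𝓡 3) ∞ (fun p : M => γ • p))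
    (𝒟 : Decomp M G E) {b : Bil M} {q : E → LinearMap.BilinForm ℝ C2}
    (hb : Compatible 𝒟 b q) :
    ∃ (g : Bil M) (q' : E → LinearMap.BilinForm ℝ C2), IsNPC g ∧ Inv G g ∧ Compatible 𝒟 g q' ∧
      (∀ p ∈ 𝒟.H, g p = 𝒟.ref p) ∧
      (∀ p ∈ 𝒟.S, ∀ u v, g p u v = 𝒟.ref p u v +
        g p (𝒟.F p) u * g p (𝒟.F p) v / g p (𝒟.F p) (𝒟.F p)) ∧
      ∀ e t x, -1 < t → t < 1 → ∀ u v,
        g (𝒟.J e (pt t x)) (D (𝒟.J e) (pt t x) u) (D (𝒟.J e) (pt t x) v) =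
          u 0 * v 0 + q' e (tan u) (tan v) := by
  obtain ⟨T1, b', h1, h2, h3⟩ := exists_core 𝒟 hb
  exact exists_invariant_npc_core hG 𝒟 h2 h1 h3

end NPCG
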