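import Pool.Agent.Lib.NPCG.Der
import Pool.Agent.Lib.NPCG.Trans

/-! # NPCG.FixA: from periods to standard form, one end

MODULE (about 1.5 h). Let `A`, `δ` be as in `hb.periods e he`, `χ t` smooth, `= 1` for `t ≤ 10 + δ/2`, `= 0` for
`t ≥ 10 + 3δ/4` (`Real.smoothTransition`), `h w = A w - q e (f e) (tan w)`, `k w = χ (w 0) * h w` for `10 < w 0 < 10 + δ`,
`k w = 0` otherwise (smooth, since `χ = 0` near `w 0 ≥ 10 + δ`). `h` is periodic (periods of `A`).
(1) `c w = b (J w) (D J w hor f) (D J w hor f)` is constant on the convex set `10 < w 0 < 10 + δ`: it is locally constant, because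
near every point `p = J w` of `S` there is an `IsSei` parametrisation `Φ` on a ball (`𝒟.sei`), `hb.closed` says that
`b (DΦ e2) (DΦ e2)` is constant on it, and `DΦ e2 = ± F`, `D J w hor f = ± F` (`𝒟.fEnd`, `IsSei.fib`); `Φ '' ball` is a
neighbourhood of `p` (use `exists_transition` of `NPCG.Trans` or the inverse function theorem), `J` is continuous; a locally
constant function on a preconnected set is constant.
(2) `fderiv A w (hor f) = c` (by `hb.periods`), so `s ↦ h (pt t (x + s • f))` is affine with slope `c - q f f`; it is bounded,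
because `h (pt t ·)` is continuous and `ℤ²`-periodic (bounded on `[0,1]²`). Hence `c = q f f` and `fderiv h w (hor f) = 0`;
`χ` does not depend on the directions `hor`, so `fderiv k w (hor f) = 0`.
-/

open Set
open scoped Manifold ContDiff

namespace NPCG

variable {M : Type*} [TopologicalSpace M] [ChartedSpace E3 M]
variable {G : Type*} [Group G] [MulAction G M] {E : Type*} [MulAction G E]

namespace FixA

/-- the part of the collar -/
def U (δ : ℝ) : Set C3 := {w | 10 < w 0 ∧ w 0 < 10 + δ}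

theorem U_open (δ : ℝ) : IsOpen (U δ) :=
  (isOpen_lt continuous_const (continuous_apply 0)).inter
    (isOpen_lt (continuous_apply 0) continuous_const)

theorem U_convex (δ : ℝ) : Convex ℝ (U δ) :=
  (convex_Ioo (10 : ℝ) (10 + δ)).linear_preimage (LinearMap.proj (R := ℝ) (φ := fun _ : Fin 3 => ℝ) 0)

/-- a continuous periodic function on the plane is bounded -/
theorem bdd_of_period (g : C2 → ℝ) (hg : Continuous g)
    (hp : ∀ x (n : Fin 2 → ℤ), g (x + int n) = g x) : ∃ C, ∀ x, |g x| ≤ C := by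
  obtain ⟨C, hC⟩ := (isCompact_Icc (a := (0 : C2)) (b := 1)).exists_bound_of_continuousOn
    hg.continuousOn
  refine ⟨C, fun x => ?_⟩
  have h1 := hp (fun i => Int.fract (x i)) (fun i => ⌊x i⌋)
  have h2 : (fun i => Int.fract (x i)) + int (fun i => ⌊x i⌋) = x := by
    funext i
    simp only [Pi.add_apply, int]
    exact Int.fract_add_floor (x i)
  rw [h2] at h1
  rw [h1]
  have h3 := hC (fun i => Int.fract (x i)) ⟨fun i => Int.fract_nonneg _,
    fun i => (Int.fract_lt_one _).le⟩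
  rwa [Real.norm_eq_abs] at h3

/-- the tangential part as a linear map -/
def tanL : C3 →ₗ[ℝ] C2 where
  toFun := tan
  map_add' u v := by funext i; fin_cases i <;> rfl
  map_smul' c u := by funext i; fin_cases i <;> rfl

/-- the linear form `w ↦ q f (tan w)` -/
noncomputable def qL (q : LinearMap.BilinForm ℝ C2) (f : C2) : C3 →L[ℝ] ℝ :=
  LinearMap.toContinuousLinearMap ((q f).comp tanL)

theorem qL_apply (q : LinearMap.BilinForm ℝ C2) (f : C2) (w : C3) : qL q f w = q f (tan w) := rfl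

/-- `c` is locally constant -/
theorem loc_const [IsManifold (𝓡 3) ∞ M] (𝒟 : Decomp M G E) {b : Bil M}
    {q : E → LinearMap.BilinForm ℝ C2} (hb : Compatible 𝒟 b q) (e : E)
    (he : ∀ t x, 10 < t → t < 11 → 𝒟.J e (pt t x) ∈ 𝒟.S) {w : C3} (h1 : 10 < w 0)
    (h2 : w 0 < 11) : ∃ c : ℝ, ∀ᶠ z in nhds w,
      b (𝒟.J e z) (D (𝒟.J e) z (hor (𝒟.f e))) (D (𝒟.J e) z (hor (𝒟.f e))) = c := by
  have hS : ∀ z : C3, 10 < z 0 → z 0 < 11 → 𝒟.J e z ∈ 𝒟.S := by
    intro z hz1 hz2
    have := he (z 0) (tan z) hz1 hz2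
    rwa [pt_eta] at this
  obtain ⟨Φ, W, hΦ, w', hw', hw''⟩ := 𝒟.sei _ (hS w h1 h2)
  obtain ⟨r, hr, hrW⟩ := Metric.isOpen_iff.1 hΦ.isOpen w' hw'
  have hB : IsSei 𝒟.S 𝒟.ref 𝒟.F Φ (Metric.ball w' r) := by
    refine ⟨⟨Metric.isOpen_ball, hΦ.smooth.mono hrW, fun w hw => hΦ.inj w (hrW hw)⟩, ?_, ?_, ?_⟩
    · exact fun w hw => hΦ.maps w (hrW hw)
    · exact fun w hw => hΦ.ref_eq w (hrW hw)
    · exact fun w hw => hΦ.fib w (hrW hw)
  obtain ⟨_, c, _, _, hc⟩ := hb.closed Φ _ (convex_ball w' r) hB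
  have hwd : w ∈ {w : C3 | -1 < w 0 ∧ w 0 < 11} := ⟨by linarith, h2⟩
  obtain ⟨σ, V, hV, hwV, _, _, _, hσB, hσ, _⟩ :=
    exists_transition (𝒟.param e) hB.toIsParam hwd (Metric.mem_ball_self hr) hw''.symm
  refine ⟨c, ?_⟩
  have ho : {z : C3 | 10 < z 0 ∧ z 0 < 11} ∈ nhds w := by
    apply IsOpen.mem_nhds
    · exact (isOpen_lt continuous_const (continuous_apply 0)).inter
        (isOpen_lt (continuous_apply 0) continuous_const)
    · exact ⟨h1, h2⟩
  filter_upwards [hV.mem_nhds hwV, ho] with z hzV hz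
  have hzS := hS z hz.1 hz.2
  have hF := 𝒟.fEnd e (z 0) (tan z) hz.1 hz.2 (by rwa [pt_eta])
  rw [pt_eta] at hF
  have hF' := hB.fib (σ z) (hσB z hzV)
  have hcz := hc (σ z) (hσB z hzV)
  rw [← hσ z hzV] at hF' hcz
  rcases hF with hF | hF <;> rcases hF' with hF' | hF' <;> rw [hF'] at hcz <;> rw [hF] <;>
    simpa using hcz

end FixA

open FixA in
theorem exists_k [IsManifold (𝓡 3) ∞ M] (𝒟 : Decomp M G E) {b : Bil M}
    {q : E → LinearMap.BilinForm ℝ C2} (hb : Compatible 𝒟 b q) (e : E)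
    (he : ∀ t x, 10 < t → t < 11 → 𝒟.J e (pt t x) ∈ 𝒟.S) :
    ∃ (δ : ℝ) (k : C3 → ℝ), 0 < δ ∧ δ ≤ 1 ∧ ContDiffOn ℝ ∞ k {w | 10 < w 0 ∧ w 0 < 11} ∧
      (∀ t x n, 10 < t → t < 11 → k (pt t (x + int n)) = k (pt t x)) ∧
      (∀ w, 10 + 3 / 4 * δ ≤ w 0 → k w = 0) ∧
      (∀ t x, 10 < t → t < 11 → fderiv ℝ k (pt t x) (hor (𝒟.f e)) = 0) ∧
      ∀ t x, 10 < t → t < 10 + δ / 2 → ∀ u,
        b (𝒟.J e (pt t x)) (D (𝒟.J e) (pt t x) (hor (𝒟.f e))) (D (𝒟.J e) (pt t x) u) -
          fderiv ℝ k (pt t x) u = q e (𝒟.f e) (tan u) := by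
  obtain ⟨δ, hδ, hδ1, A, hA, hAd, hAp⟩ := hb.periods e he
  set f := 𝒟.f e with hf
  -- pointwise derivative of `A`
  have hAd' : ∀ w ∈ U δ, ∀ u, b (𝒟.J e w) (D (𝒟.J e) w (hor f)) (D (𝒟.J e) w u) =
      fderiv ℝ A w u := by
    intro w hw u
    have := hAd (w 0) (tan w) hw.1 hw.2 u
    rwa [pt_eta] at this
  have hAat : ∀ w ∈ U δ, ContDiffAt ℝ ∞ A w := fun w hw =>
    (hA w hw).contDiffAt ((U_open δ).mem_nhds hw)
  have hAdiff : ∀ w ∈ U δ, DifferentiableAt ℝ A w := fun w hw =>
    (hAat w hw).differentiableAt (by simp)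
  -- the derivative in the direction `hor f` is constant
  have hconst : ∀ w ∈ U δ, ∀ z ∈ U δ, fderiv ℝ A w (hor f) = fderiv ℝ A z (hor f) := by
    have hl : ∀ w ∈ U δ, ∃ c : ℝ, ∀ᶠ z in nhds w, fderiv ℝ A z (hor f) = c := by
      intro w hw
      obtain ⟨c, hc⟩ := loc_const 𝒟 hb e he hw.1 (by linarith [hw.2])
      refine ⟨c, ?_⟩
      filter_upwards [hc, (U_open δ).mem_nhds hw] with z hz hzU
      rw [← hAd' z hzU]
      exact hz
    have hd : ∀ w ∈ U δ, HasFDerivAt (fun z => fderiv ℝ A z (hor f)) (0 : C3 →L[ℝ] ℝ) w := by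
      intro w hw
      obtain ⟨c, hc⟩ := hl w hw
      exact (hasFDerivAt_const c w).congr_of_eventuallyEq hc
    intro w hw z hz
    refine (U_open δ).is_const_of_fderiv_eq_zero (U_convex δ).isPreconnected
      (fun w hw => (hd w hw).differentiableAt.differentiableWithinAt)
      (fun w hw => (hd w hw).fderiv) hw hz
  -- the function `h`
  set h : C3 → ℝ := fun w => A w - qL (q e) f w with hh
  have hhat : ∀ w ∈ U δ, ContDiffAt ℝ ∞ h w := fun w hw =>
    (hAat w hw).sub (qL (q e) f).contDiff.contDiffAt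
  have hhd : ∀ w ∈ U δ, HasFDerivAt h (fderiv ℝ A w - qL (q e) f) w := fun w hw =>
    (hAdiff w hw).hasFDerivAt.sub (qL (q e) f).hasFDerivAt
  have hper : ∀ t x n, 10 < t → t < 10 + δ → h (pt t (x + int n)) = h (pt t x) := by
    intro t x n h1 h2
    have h3 := hAp t x n h1 h2
    simp only [hh, qL_apply, tan_pt, map_add]
    linarith
  -- `c = q f f`
  have hc : ∀ w ∈ U δ, fderiv ℝ A w (hor f) = q e f f := by
    intro w hw
    have hcont : Continuous (fun x : C2 => h (pt (w 0) x)) := by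
      rw [continuous_iff_continuousAt]
      intro x
      have h1 : ContinuousAt h (pt (w 0) x) := (hhat (pt (w 0) x) ⟨hw.1, hw.2⟩).continuousAt
      have h2 : Continuous (fun x : C2 => pt (w 0) x) := by
        apply continuous_pi
        intro i
        fin_cases i
        · exact continuous_const
        · exact continuous_apply 0
        · exact continuous_apply 1
      exact ContinuousAt.comp (f := fun x : C2 => pt (w 0) x) h1 h2.continuousAt
    obtain ⟨C, hC⟩ := bdd_of_period _ hcont (fun x n => hper (w 0) x n hw.1 hw.2)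
    set m := fderiv ℝ A w (hor f) - q e f f with hm
    have hder : ∀ s : ℝ, HasDerivAt (fun s : ℝ => h (pt (w 0) (s • f))) m s := by
      intro s
      have hl : HasDerivAt (fun s : ℝ => pt (w 0) 0 + s • hor f) (hor f) s := by
        have := ((hasDerivAt_id s).smul_const (hor f)).const_add (pt (w 0) 0)
        simpa using this
      have hpt : ∀ s : ℝ, pt (w 0) 0 + s • hor f = pt (w 0) (s • f) := by
        intro s
        funext i; fin_cases i <;> simp [pt, hor]
      have hU : pt (w 0) 0 + s • hor f ∈ U δ := by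
        rw [hpt]
        exact ⟨hw.1, hw.2⟩
      have h3 := (hhd _ hU).comp_hasDerivAt s hl
      have h4 : (fun s : ℝ => h (pt (w 0) (s • f))) = h ∘ fun s : ℝ => pt (w 0) 0 + s • hor f := by
        funext s
        simp only [Function.comp, hpt]
      rw [h4]
      refine h3.congr_deriv ?_
      rw [hm, _root_.sub_apply, qL_apply, tan_hor, hconst w hw _ hU]
    have haff : ∀ s : ℝ, h (pt (w 0) (s • f)) - s * m = h (pt (w 0) 0) := by
      intro s
      have h5 : ∀ s : ℝ, HasDerivAt (fun s : ℝ => h (pt (w 0) (s • f)) - s * m) 0 s := by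
        intro s
        have h10 := (hder s).sub ((hasDerivAt_id s).mul_const m)
        have h11 := h10.congr_deriv (g' := 0) (by ring)
        exact h11
      have h6 := is_const_of_deriv_eq_zero (fun s => (h5 s).differentiableAt)
        (fun s => (h5 s).deriv) s 0
      simpa using h6
    have hm0 : m = 0 := by
      by_contra hne
      have hpos : 0 < |m| := abs_pos.2 hne
      have h7 := haff ((2 * C + 1) / m)
      rw [div_mul_cancel₀ _ hne] at h7
      have h8 := abs_le.1 (hC (((2 * C + 1) / m) • f))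
      have h9 := abs_le.1 (hC 0)
      linarith [h8.1, h8.2, h9.1, h9.2]
    linarith [hm, hm0]
  have hh0 : ∀ w ∈ U δ, fderiv ℝ h w (hor f) = 0 := by
    intro w hw
    rw [(hhd w hw).fderiv, _root_.sub_apply, qL_apply, tan_hor, hc w hw, sub_self]
  -- the cut-off
  set χ : ℝ → ℝ := fun t => Real.smoothTransition ((10 + 3 / 4 * δ - t) / (δ / 4)) with hχ
  have hχs : ContDiff ℝ ∞ χ := by
    apply (Real.smoothTransition.contDiff (n := (⊤ : ℕ∞))).comp
    exact (contDiff_const.sub contDiff_id).div_const _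
  have hχ1 : ∀ t, t ≤ 10 + δ / 2 → χ t = 1 := by
    intro t ht
    apply Real.smoothTransition.one_of_one_le
    rw [le_div_iff₀ (by linarith)]
    linarith
  have hχ0 : ∀ t, 10 + 3 / 4 * δ ≤ t → χ t = 0 := by
    intro t ht
    apply Real.smoothTransition.zero_of_nonpos
    apply div_nonpos_of_nonpos_of_nonneg <;> linarith
  classical
  set k : C3 → ℝ := fun w => if w ∈ U δ then χ (w 0) * h w else 0 with hk
  have hk1 : ∀ w ∈ U δ, k =ᶠ[nhds w] fun z => χ (z 0) * h z := by
    intro w hw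
    filter_upwards [(U_open δ).mem_nhds hw] with z hz
    simp only [hk, if_pos hz]
  have hk0 : ∀ w, 10 + 3 / 4 * δ ≤ w 0 → k w = 0 := by
    intro w hw
    simp only [hk]
    split_ifs
    · rw [hχ0 _ hw, zero_mul]
    · rfl
  have hk2 : ∀ w : C3, 10 + δ ≤ w 0 → k =ᶠ[nhds w] fun _ => 0 := by
    intro w hw
    have ho : {z : C3 | 10 + 3 / 4 * δ < z 0} ∈ nhds w := by
      apply (isOpen_lt continuous_const (continuous_apply 0)).mem_nhds
      show 10 + 3 / 4 * δ < w 0
      linarith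
    filter_upwards [ho] with z hz
    exact hk0 z (le_of_lt hz)
  refine ⟨δ, k, hδ, hδ1, ?_, ?_, hk0, ?_, ?_⟩
  · intro w hw
    apply ContDiffAt.contDiffWithinAt
    by_cases h1 : w 0 < 10 + δ
    · have hU : w ∈ U δ := ⟨hw.1, h1⟩
      refine ContDiffAt.congr_of_eventuallyEq ?_ (hk1 w hU)
      refine ContDiffAt.mul ?_ (hhat w hU)
      exact (hχs.comp (contDiff_apply ℝ ℝ (0 : Fin 3))).contDiffAt
    · exact contDiffAt_const.congr_of_eventuallyEq (hk2 w (not_lt.1 h1))
  · intro t x n h1 h2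
    by_cases h3 : t < 10 + δ
    · have hU1 : pt t (x + int n) ∈ U δ := ⟨h1, h3⟩
      have hU2 : pt t x ∈ U δ := ⟨h1, h3⟩
      simp only [hk, if_pos hU1, if_pos hU2, pt_zero]
      rw [hper t x n h1 h3]
    · rw [hk0 _ (by rw [pt_zero]; linarith), hk0 _ (by rw [pt_zero]; linarith)]
  · intro t x h1 h2
    by_cases h3 : t < 10 + δ
    · have hU : pt t x ∈ U δ := ⟨h1, h3⟩
      rw [(hk1 _ hU).fderiv_eq]
      have h4 : HasFDerivAt (fun z : C3 => χ (z 0))
          ((deriv χ t) • (ContinuousLinearMap.proj (R := ℝ) (φ := fun _ : Fin 3 => ℝ) 0))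
          (pt t x) := by
        have h5 : HasDerivAt χ (deriv χ t) ((pt t x) 0) := by
          rw [pt_zero]
          exact (hχs.differentiable (by simp) t).hasDerivAt
        exact h5.comp_hasFDerivAt (pt t x)
          (ContinuousLinearMap.proj (R := ℝ) (φ := fun _ : Fin 3 => ℝ) 0).hasFDerivAt
      have h6 := h4.mul (hhat _ hU |>.differentiableAt (by simp)).hasFDerivAt
      have h7 : fderiv ℝ (fun z : C3 => χ (z 0) * h z) (pt t x) = _ := h6.fderiv
      rw [h7]
      simp only [ContinuousLinearMap.add_apply, ContinuousLinearMap.smul_apply, hh0 _ hU,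
        ContinuousLinearMap.proj_apply, hor_zero_apply, smul_eq_mul, mul_zero, add_zero]
    · rw [(hk2 _ (by rw [pt_zero]; linarith)).fderiv_eq]
      simp
  · intro t x h1 h2 u
    have hU : pt t x ∈ U δ := ⟨h1, by rw [pt_zero]; linarith⟩
    have ho : {z : C3 | z 0 < 10 + δ / 2} ∈ nhds (pt t x) :=
      (isOpen_lt (continuous_apply 0) continuous_const).mem_nhds h2
    have hkh : k =ᶠ[nhds (pt t x)] h := by
      filter_upwards [hk1 _ hU, ho] with z hz hz2
      rw [hz, hχ1 _ (le_of_lt hz2), one_mul]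
    rw [hkh.fderiv_eq, (hhd _ hU).fderiv, _root_.sub_apply, qL_apply,
      hAd' _ hU]
    ring

end NPCG
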