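import Pool.Agent.Lib.NPCG.Coll

/-! # NPCG.InvM: the metric is invariant -/

open Set
open scoped Manifold ContDiff

namespace NPCG

variable {M : Type*} [TopologicalSpace M] [ChartedSpace E3 M]
variable {G : Type*} [Group G] [MulAction G M] {E : Type*} [MulAction G E]

theorem isSeiEnd_smul (𝒟 : Decomp M G E) (γ : G) (e : E) (he : 𝒟.IsSeiEnd e) :
    𝒟.IsSeiEnd (γ • e) := by
  have h1 : 𝒟.J e (pt (21/2) 0) ∈ 𝒟.S := he _ _ (by norm_num) (by norm_num)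
  have h2 := 𝒟.actS γ _ h1
  rw [𝒟.act γ e (21/2) 0 (by norm_num) (by norm_num)] at h2
  exact 𝒟.isSeiEnd_of_mem (by norm_num) (by norm_num) h2

theorem not_isSeiEnd_smul (𝒟 : Decomp M G E) (γ : G) (e : E) (he : ¬ 𝒟.IsSeiEnd e) :
    ¬ 𝒟.IsSeiEnd (γ • e) := by
  intro h
  have h3 := isSeiEnd_smul 𝒟 γ⁻¹ _ h
  rw [inv_smul_smul] at h3
  exact he h3

section

variable (hG : ∀ γ : G, ContMDiff (𝓡 3) (𝓡 3) ∞ (fun p : M => γ • p))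

include hG

theorem q0_inv (𝒟 : Decomp M G E) (γ : G) (e : E) (u v : C2) :
    𝒟.q0 (γ • e) (𝒟.A γ e u) (𝒟.A γ e v) = 𝒟.q0 e u v := by
  have t1 : (10:ℝ) < 21/2 := by norm_num
  have t2 : (21/2:ℝ) < 11 := by norm_num
  have h1 := 𝒟.refEnd e (21/2) 0 t1 t2 (hor u) (hor v)
  have h2 := 𝒟.refEnd (γ • e) (21/2) (𝒟.A γ e 0 + 𝒟.B γ e) t1 t2 (hor (𝒟.A γ e u))
    (hor (𝒟.A γ e v))
  have hmem : 𝒟.J e (pt (21/2) 0) ∈ 𝒟.H ∪ 𝒟.S := by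
    rcases 𝒟.ends e with h | h
    · exact Or.inl (h _ _ t1 t2)
    · exact Or.inr (h _ _ t1 t2)
  rw [← dact_hor hG 𝒟 γ e _ _ (by norm_num) t2, ← dact_hor hG 𝒟 γ e _ _ (by norm_num) t2,
    ← 𝒟.act γ e _ _ (by norm_num) t2, 𝒟.refInv γ _ hmem, h1] at h2
  simp only [hor_zero_apply, mul_zero, zero_add, tan_hor] at h2
  have := Real.exp_pos (2 * (21/2 : ℝ))
  exact (mul_left_cancel₀ this.ne' h2).symm

theorem s_inv (𝒟 : Decomp M G E) {q : E → LinearMap.BilinForm ℝ C2} (hq : QInv 𝒟 q)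
    (γ : G) (e : E) (u v : C2) :
    𝒟.s q (γ • e) (𝒟.A γ e u) (𝒟.A γ e v) = 𝒟.s q e u v := by
  by_cases he : 𝒟.IsSeiEnd e
  · have he' := isSeiEnd_smul 𝒟 γ e he
    simp only [Decomp.s, if_pos he, if_pos he', fpart_apply]
    have t1 : (10:ℝ) < 21/2 := by norm_num
    have t2 : (21/2:ℝ) < 11 := by norm_num
    have hq1 := hq γ e (𝒟.f e) u
    have hq2 := hq γ e (𝒟.f e) v
    have hq3 := hq γ e (𝒟.f e) (𝒟.f e)
    rcases A_f hG 𝒟 γ e (21/2) 0 t1 t2 (he _ _ t1 t2) with hA | hA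
    · rw [hA] at hq1 hq2 hq3
      rw [hq1, hq2, hq3]
    · rw [hA] at hq1 hq2 hq3
      simp only [map_neg, LinearMap.neg_apply, neg_neg] at hq1 hq2 hq3
      rw [← hq1, ← hq2, ← hq3]
      ring
  · have he' := not_isSeiEnd_smul 𝒟 γ e he
    simp only [Decomp.s, if_neg he, if_neg he', LinearMap.zero_apply]

theorem P_inv (𝒟 : Decomp M G E) (a β : ℝ → ℝ) (ε : ℝ)
    {q : E → LinearMap.BilinForm ℝ C2} (hq : QInv 𝒟 q)
    (γ : G) (e : E) (t : ℝ) (u v : C2) :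
    𝒟.P a β ε q (γ • e) t (𝒟.A γ e u) (𝒟.A γ e v) = 𝒟.P a β ε q e t u v := by
  simp only [Decomp.P, LinearMap.add_apply, LinearMap.smul_apply, LinearMap.sub_apply,
    q0_inv hG 𝒟, hq γ e u v, s_inv hG 𝒟 hq]

theorem met_inv (𝒟 : Decomp M G E) {a β : ℝ → ℝ} (ε : ℝ) {T1 : ℝ} (hT : T1 ≤ 11)
    (hT' : 10 < T1) {b : Bil M} {q : E → LinearMap.BilinForm ℝ C2} (h : Core 𝒟 T1 b q)
    (hb : Inv G b) (hq : QInv 𝒟 q)
    (ha : ∀ t ≤ 1, a t = 0 ∧ β t = 1) (ha' : ∀ t, 10 ≤ t → a t = Real.exp (2 * t) ∧ β t = 0) :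
    Inv G (𝒟.met a β ε b q) := by
  intro γ p u v
  rcases 𝒟.cover p with (hp | hp) | ⟨e, t, x, h1, h2, rfl⟩
  · rw [met_of_H _ _ _ _ _ _ hp, met_of_H _ _ _ _ _ _ (𝒟.actH γ p hp),
      𝒟.refInv γ p (Or.inl hp)]
  · rw [met_of_S _ _ _ _ _ _ hp, met_of_S _ _ _ _ _ _ (𝒟.actS γ p hp),
      𝒟.refInv γ p (Or.inr hp)]
    have hu := hb γ p (𝒟.F p) u
    have hv := hb γ p (𝒟.F p) v
    have hF := hb γ p (𝒟.F p) (𝒟.F p)
    rcases 𝒟.FInv γ p hp with hA | hA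
    · rw [hA] at hu hv hF
      rw [hu, hv, hF]
    · rw [hA] at hu hv hF
      simp only [map_neg, LinearMap.neg_apply, neg_neg] at hu hv hF
      rw [← hu, ← hv, ← hF]
      ring
  · have h3 : t < 11 := by linarith
    have h4 : t < T1 := by linarith
    obtain ⟨u, rfl⟩ := (𝒟.param e).surj (mem_dom (x := x) h1 h3) u
    obtain ⟨v, rfl⟩ := (𝒟.param e).surj (mem_dom (x := x) h1 h3) v
    rw [met_collar 𝒟 ε hT hT' h ha ha' e t x h1 h4, dact_J hG 𝒟 γ e t x h1 h3,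
      dact_J hG 𝒟 γ e t x h1 h3, 𝒟.act γ e t x h1 h3,
      met_collar 𝒟 ε hT hT' h ha ha' (γ • e) t _ h1 h4]
    simp only [pt_zero, tan_pt]
    rw [P_inv hG 𝒟 a β ε hq]

end

end NPCG
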