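import Pool.Agent.Lib.NPCG.Stmt
import Pool.Agent.Lib.NPCG.Final

/-!
# Invariant nonpositively curved metrics: from the definitions of the statement to those of the proof

Project NPCG (problem MP_6b3077_gt), owner helper95.
-/

open Set
open scoped Manifold ContDiff

namespace InvNPC

section Bl

variable {V : Type*} [AddCommGroup V] [Module ℝ V]

/-- `b` is bilinear. -/
structure Bl (b : V → V → ℝ) : Prop where
  add₁ : ∀ u v w, b (u + v) w = b u w + b v w
  smul₁ : ∀ (a : ℝ) u v, b (a • u) v = a * b u v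
  add₂ : ∀ u v w, b u (v + w) = b u v + b u w
  smul₂ : ∀ (a : ℝ) u v, b u (a • v) = a * b u v

theorem IsInner.bl {b : V → V → ℝ} (h : IsInner b) : Bl b where
  add₁ := h.add
  smul₁ := h.smul
  add₂ u v w := by rw [h.symm u (v + w), h.add, h.symm v u, h.symm w u]
  smul₂ a u v := by rw [h.symm u (a • v), h.smul, h.symm v u]

open Classical in
/-- The bilinear form given by a bilinear function. -/
noncomputable def mkB (b : V → V → ℝ) : LinearMap.BilinForm ℝ V :=
  if h : Bl b then LinearMap.mk₂ ℝ b h.add₁ h.smul₁ h.add₂ h.smul₂ else 0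

theorem mkB_apply {b : V → V → ℝ} (h : Bl b) (u v : V) : mkB b u v = b u v := by
  unfold mkB
  rw [dif_pos h]
  rfl

end Bl

theorem bl_of_surj {L : C3 →L[ℝ] E3} (hs : Function.Surjective L) {b : E3 → E3 → ℝ}
    {β : C3 → C3 → ℝ} (hβ : Bl β) (h : ∀ u v, b (L u) (L v) = β u v) : Bl b where
  add₁ u v w := by
    obtain ⟨u, rfl⟩ := hs u
    obtain ⟨v, rfl⟩ := hs v
    obtain ⟨w, rfl⟩ := hs w
    rw [← map_add, h, h, h, hβ.add₁]
  smul₁ a u v := by
    obtain ⟨u, rfl⟩ := hs u
    obtain ⟨v, rfl⟩ := hs v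
    rw [← map_smul, h, h, hβ.smul₁]
  add₂ u v w := by
    obtain ⟨u, rfl⟩ := hs u
    obtain ⟨v, rfl⟩ := hs v
    obtain ⟨w, rfl⟩ := hs w
    rw [← map_add, h, h, h, hβ.add₂]
  smul₂ a u v := by
    obtain ⟨u, rfl⟩ := hs u
    obtain ⟨v, rfl⟩ := hs v
    rw [← map_smul, h, h, hβ.smul₂]

section Manifold

variable {M : Type*} [TopologicalSpace M] [ChartedSpace E3 M]

theorem surj_of_inj {L : C3 →L[ℝ] E3} (h : Function.Injective L) : Function.Surjective L := by
  have hf : Module.finrank ℝ C3 = Module.finrank ℝ E3 := by simp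
  exact (LinearMap.injective_iff_surjective_of_finrank_eq_finrank (f := (L : C3 →ₗ[ℝ] E3)) hf).1 h

theorem IsParam.surj {Φ : C3 → M} {W : Set C3} (h : IsParam Φ W) {w : C3} (hw : w ∈ W) :
    Function.Surjective (D Φ w) := surj_of_inj (h.inj w hw)

theorem isParam_iff {Φ : C3 → M} {W : Set C3} : NPCG.IsParam Φ W ↔ IsParam Φ W :=
  ⟨fun h => ⟨h.isOpen, h.smooth, h.inj⟩, fun h => ⟨h.isOpen, h.smooth, h.inj⟩⟩

variable {G : Type*} [Group G] [MulAction G M] {E : Type*} [MulAction G E]

theorem Cores.bl (X : Cores M G) {p : M} (hp : p ∈ X.H ∪ X.S) : Bl (X.ref p) := by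
  rcases hp with hp | hp
  · obtain ⟨Φ, W, h, w, hw, rfl⟩ := X.hyp p hp
    refine bl_of_surj (h.toIsParam.surj hw)
      (β := fun u v => u 0 * v 0 + Real.exp (2 * w 0) * (u 1 * v 1 + u 2 * v 2)) ?_
      (h.ref_eq w hw)
    constructor <;> intros <;> simp <;> ring
  · obtain ⟨Φ, W, h, w, hw, rfl⟩ := X.sei p hp
    refine bl_of_surj (h.toIsParam.surj hw)
      (β := fun u v => u 0 * v 0 + Real.exp (2 * w 0) * (u 1 * v 1)) ?_
      (h.ref_eq w hw)
    constructor <;> intros <;> simp <;> ring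

theorem Decomp.core (X : Decomp M G E) {e : E} {t : ℝ} {x : C2} (h1 : 10 < t) (h2 : t < 11) :
    X.J e (pt t x) ∈ X.H ∪ X.S := by
  rcases X.ends e with h | h
  · exact Or.inl (h t x h1 h2)
  · exact Or.inr (h t x h1 h2)

theorem hor_add (x y : C2) : hor (x + y) = hor x + hor y := by
  ext i; fin_cases i <;> simp [hor]

theorem hor_smul (a : ℝ) (x : C2) : hor (a • x) = a • hor x := by
  ext i; fin_cases i <;> simp [hor]

theorem tan_hor (x : C2) : tan (hor x) = x := by
  ext i; fin_cases i <;> simp [hor, tan]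

theorem hor_zero (x : C2) : hor x 0 = 0 := by simp [hor]

theorem Decomp.q0_eq (X : Decomp M G E) (e : E) (x y : C2) :
    X.q0 e x y = (Real.exp (2 * (21 / 2)))⁻¹ * X.ref (X.J e (pt (21 / 2) 0))
      (D (X.J e) (pt (21 / 2) 0) (hor x)) (D (X.J e) (pt (21 / 2) 0) (hor y)) := by
  have h := X.refEnd e (21 / 2) 0 (by norm_num) (by norm_num) (hor x) (hor y)
  rw [tan_hor, tan_hor, hor_zero, zero_mul, zero_add] at h
  unfold dmap at h
  rw [h, ← mul_assoc, inv_mul_cancel₀ (Real.exp_ne_zero _), one_mul]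

theorem Decomp.q0_bl (X : Decomp M G E) (e : E) : Bl (X.q0 e) := by
  have hb := X.toCores.bl (X.core (e := e) (t := 21 / 2) (x := 0) (by norm_num) (by norm_num))
  constructor
  · intro u v w
    rw [X.q0_eq, X.q0_eq, X.q0_eq, hor_add, map_add, hb.add₁]; ring
  · intro a u v
    rw [X.q0_eq, X.q0_eq, hor_smul, map_smul, hb.smul₁]; ring
  · intro u v w
    rw [X.q0_eq, X.q0_eq, X.q0_eq, hor_add, map_add, hb.add₂]; ring
  · intro a u v
    rw [X.q0_eq, X.q0_eq, hor_smul, map_smul, hb.smul₂]; ring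

/-- The decomposition in the form used in the proof. -/
noncomputable def Decomp.old (X : Decomp M G E) : NPCG.Decomp M G E where
  H := X.H
  S := X.S
  ref := fun p => mkB (X.ref p)
  F := X.F
  bar := X.bar
  J := X.J
  q0 := fun e => mkB (X.q0 e)
  f := X.f
  T := fun e => (X.linT e).mk' _
  c := X.c
  A := fun γ e => (X.linA γ e).mk' _
  B := X.B
  openH := X.openH
  openS := X.openS
  disj := X.disj
  actH := X.actH
  actS := X.actS
  hyp := by
    intro p hp
    obtain ⟨Φ, W, h, hw⟩ := X.hyp p hp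
    refine ⟨Φ, W, ⟨isParam_iff.2 h.toIsParam, h.maps, ?_⟩, hw⟩
    intro w hw u v
    rw [mkB_apply (X.toCores.bl (Or.inl (h.maps w hw)))]
    exact h.ref_eq w hw u v
  sei := by
    intro p hp
    obtain ⟨Φ, W, h, hw⟩ := X.sei p hp
    refine ⟨Φ, W, ⟨isParam_iff.2 h.toIsParam, h.maps, ?_, h.fib⟩, hw⟩
    intro w hw u v
    rw [mkB_apply (X.toCores.bl (Or.inr (h.maps w hw)))]
    exact h.ref_eq w hw u v
  refInv := by
    intro γ p hp u v
    have hp' : γ • p ∈ X.H ∪ X.S := hp.imp (X.actH γ p) (X.actS γ p)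
    rw [mkB_apply (X.toCores.bl hp), mkB_apply (X.toCores.bl hp')]
    exact X.refInv γ p hp u v
  FInv := X.FInv
  cover := X.cover
  param := fun e => isParam_iff.2 (X.param e)
  period := X.period
  glue := X.glue
  mid := X.mid
  ends := X.ends
  inj := X.inj
  act := X.act
  refEnd := by
    intro e t x h1 h2 u v
    have h3 : mkB (X.q0 e) (tan u) (tan v) = X.q0 e (tan u) (tan v) := mkB_apply (X.q0_bl e) _ _
    have h4 := X.refEnd e t x h1 h2 u v
    rw [← h3] at h4
    exact (mkB_apply (X.toCores.bl (X.core h1 h2)) _ _).trans h4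
  fEnd := X.fEnd

theorem Decomp.isSei_old (X : Decomp M G E) {Φ : C3 → M} {W : Set C3}
    (h : NPCG.IsSei X.old.S X.old.ref X.old.F Φ W) : IsSei X.S X.ref X.F Φ W := by
  refine ⟨isParam_iff.1 h.toIsParam, h.maps, ?_, h.fib⟩
  intro w hw u v
  have := h.ref_eq w hw u v
  have h2 : X.old.ref (Φ w) = mkB (X.ref (Φ w)) := rfl
  rw [h2, mkB_apply (X.toCores.bl (Or.inr (h.maps w hw)))] at this
  exact this

theorem Decomp.isSei_new (X : Decomp M G E) {Φ : C3 → M} {W : Set C3}
    (h : IsSei X.S X.ref X.F Φ W) : NPCG.IsSei X.old.S X.old.ref X.old.F Φ W := by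
  refine ⟨isParam_iff.2 h.toIsParam, h.maps, ?_, h.fib⟩
  intro w hw u v
  have h2 : X.old.ref (Φ w) = mkB (X.ref (Φ w)) := rfl
  rw [h2, mkB_apply (X.toCores.bl (Or.inr (h.maps w hw)))]
  exact h.ref_eq w hw u v

/-- Solutions of the compatibility equations in the form used in the proof. -/
theorem Compatible.old {X : Decomp M G E} {b : Ten M} {q : E → C2 → C2 → ℝ}
    (h : Compatible X b q) :
    NPCG.Compatible X.old (fun p => mkB (b p)) (fun e => mkB (q e)) where
  qsymm e u v := by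
    rw [mkB_apply (h.inner e).bl, mkB_apply (h.inner e).bl, (h.inner e).symm]
  qpos e u hu := by
    rw [mkB_apply (h.inner e).bl]
    exact (h.inner e).pos u hu
  glue e u v := by
    rw [mkB_apply (h.inner e).bl, mkB_apply (h.inner _).bl]
    exact h.glue e u v
  bsymm p hp u v := by
    rw [mkB_apply (h.bInner p hp).bl, mkB_apply (h.bInner p hp).bl, (h.bInner p hp).symm]
  bpos p hp u hu := by
    rw [mkB_apply (h.bInner p hp).bl]
    exact (h.bInner p hp).pos u hu
  closed Φ W hW hS := by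
    have hS' := X.isSei_old hS
    obtain ⟨A, c, hA, h1, h2⟩ := h.closed Φ W hW hS'
    refine ⟨A, c, hA, ?_, ?_⟩
    · intro w hw u
      rw [mkB_apply (h.bInner _ (hS'.maps w hw)).bl]
      exact h1 w hw u
    · intro w hw
      rw [mkB_apply (h.bInner _ (hS'.maps w hw)).bl]
      exact h2 w hw
  periods e he := by
    obtain ⟨δ, hδ, hδ1, A, hA, h1, h2⟩ := h.periods e he
    refine ⟨δ, hδ, hδ1, A, hA, ?_, ?_⟩
    · intro t x ht1 ht2 u
      rw [mkB_apply (h.bInner _ (he t x ht1 (by linarith))).bl]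
      exact h1 t x ht1 ht2 u
    · intro t x n ht1 ht2
      rw [mkB_apply (h.inner e).bl]
      exact h2 t x n ht1 ht2

theorem isInner_of {V : Type*} [AddCommGroup V] [Module ℝ V] {b : LinearMap.BilinForm ℝ V}
    (h1 : ∀ u v, b u v = b v u) (h2 : ∀ u, u ≠ 0 → 0 < b u u) :
    IsInner (fun u v => b u v) where
  symm := h1
  add u v w := by simp
  smul a u v := by simp
  pos := h2

theorem Compatible.new {X : Decomp M G E} {b : NPCG.Bil M} {q : E → LinearMap.BilinForm ℝ C2}
    (h : NPCG.Compatible X.old b q) :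
    Compatible X (fun p u v => b p u v) (fun e u v => q e u v) where
  inner e := isInner_of (h.qsymm e) (h.qpos e)
  glue := h.glue
  bInner p hp := isInner_of (h.bsymm p hp) (h.bpos p hp)
  closed Φ W hW hS := h.closed Φ W hW (X.isSei_new hS)
  periods e he := h.periods e he

theorem isNPC_new {g : NPCG.Bil M} (h : NPCG.IsNPC g) : IsNPC (fun p u v => g p u v) where
  inner p := isInner_of (h.symm p) (h.pos p)
  smooth Φ W hΦ := h.smooth Φ W (isParam_iff.2 hΦ)
  curv Φ W hΦ w hw := h.curv Φ W (isParam_iff.2 hΦ) w hw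

/-- The theorem in the form of the statement. -/
theorem exists_adapted [T2Space M] [IsManifold (𝓡 3) ∞ M] [Finite G] [Finite E]
    (hG : SmoothAction M G) (X : Decomp M G E) {b : Ten M} {q : E → C2 → C2 → ℝ}
    (hb : Compatible X b q) :
    ∃ g q, IsNPC g ∧ Inv G g ∧ Compatible X g q ∧ Adapted X g q := by
  obtain ⟨g, q', h1, h2, h3, h4, h5, h6⟩ := NPCG.exists_invariant_npc hG X.old hb.old
  refine ⟨fun p u v => g p u v, fun e u v => q' e u v, isNPC_new h1, h2, Compatible.new h3, ?_⟩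
  constructor
  · intro p hp u v
    have h7 : g p u v = mkB (X.ref p) u v := by
      have := h4 p hp
      exact congrArg (fun B : LinearMap.BilinForm ℝ E3 => B u v) this
    rw [h7, mkB_apply (X.toCores.bl (Or.inl hp))]
  · intro p hp u v
    have h7 := h5 p hp u v
    have h8 : X.old.ref p u v = X.ref p u v := mkB_apply (X.toCores.bl (Or.inr hp)) u v
    rw [h8] at h7
    exact h7
  · intro e t x ht1 ht2 u v
    exact h6 e t x ht1 ht2 u v

end Manifold

end InvNPC
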