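import Pool.Agent.Lib.NPCG.Curv
import Pool.Agent.Lib.NPCG.Core

/-! # NPCG.Shear: the metric on the Seifert cores

MODULE (about 1 h). Take an `IsSei` parametrisation `Φ, W` with `p = Φ w⁰` (`𝒟.sei`), shrink `W` to a ball `B` (sup norm, so
a box) around `w⁰`: convex, still `IsSei`. `hb.closed` gives `A`, `c > 0`: `b(DΦ e2, DΦ u) = dA u`, `dA e2 = c`.
For `(t,x,z) ∈ B`: `A (t,x,z) = s (t,x) + c z`, where `s (t,x) = A (t,x,w⁰ 2) - c w⁰ 2` (derivative along the segment is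
constant `c`). Shear `σ (t,x,z') = (t,x,(z' - s (t,x))/c)` on the open set
`W' = {w | (w 0, w 1, w⁰ 2) ∈ B ∧ σ w ∈ B}`; `A (σ w) = w 2` on `W'`; `fderiv σ w` is injective. `Φ ∘ σ` is a parametrisation
(`IsParam.comp`, `IsParam.D_comp`) and
`g (D u) (D v) = u 0 * v 0 + exp (2 t) * (u 1 * v 1) + ε * (dA (dσ u) * dA (dσ v)) / c` with `dA (dσ u) = d(A ∘ σ) u = u 2`;
so `ψ1 = exp (2t)`, `ψ2 = ε / c`. (`F = ± DΦ e2`: the sign cancels.)
-/

open Set
open scoped Manifold ContDiff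

namespace NPCG

variable {M : Type*} [TopologicalSpace M] [ChartedSpace E3 M]
variable {G : Type*} [Group G] [MulAction G M] {E : Type*} [MulAction G E]

namespace ShearAux

/-- The point with the third coordinate replaced by `a`. -/
def kap (a : ℝ) (w : C3) : C3 := ![w 0, w 1, a]

/-- The shear. -/
noncomputable def sh (A : C3 → ℝ) (c a : ℝ) (w : C3) : C3 :=
  ![w 0, w 1, (w 2 - (A (kap a w) - c * a)) / c]

theorem kap_mem {w0 w : C3} {r : ℝ} (hr : 0 < r) (hw : w ∈ Metric.ball w0 r) :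
    kap (w0 2) w ∈ Metric.ball w0 r := by
  rw [Metric.mem_ball, dist_pi_lt_iff hr] at hw ⊢
  intro i
  fin_cases i
  · exact hw 0
  · exact hw 1
  · change dist (w0 2) (w0 2) < r
    rw [dist_self]
    exact hr

theorem contDiff_kap (a : ℝ) : ContDiff ℝ ∞ (kap a) := by
  rw [contDiff_pi]
  intro i
  fin_cases i
  · exact contDiff_apply ℝ ℝ (0 : Fin 3)
  · exact contDiff_apply ℝ ℝ (1 : Fin 3)
  · exact contDiff_const

theorem line {A : C3 → ℝ} {c r : ℝ} {w0 : C3} (hr : 0 < r)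
    (hA : ContDiffOn ℝ ∞ A (Metric.ball w0 r))
    (hc : ∀ w ∈ Metric.ball w0 r, fderiv ℝ A w (Pi.single 2 1) = c)
    {w : C3} (hw : w ∈ Metric.ball w0 r) :
    A w = A (kap (w0 2) w) + c * (w 2 - w0 2) := by
  set B := Metric.ball w0 r with hB
  set κ := kap (w0 2) w with hκ
  have hκB : κ ∈ B := kap_mem hr hw
  have hsub : w - κ = (w 2 - w0 2) • (Pi.single 2 1 : C3) := by
    funext i
    fin_cases i
    · change w 0 - w 0 = _
      simp
    · change w 1 - w 1 = _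
      simp
    · change w 2 - w0 2 = _
      simp
  have hmem : ∀ τ ∈ Icc (0 : ℝ) 1, κ + τ • (w - κ) ∈ B := by
    intro τ hτ
    have h := (convex_ball w0 r) hκB hw (sub_nonneg.2 hτ.2) hτ.1 (by ring)
    have e : κ + τ • (w - κ) = (1 - τ) • κ + τ • w := by
      rw [smul_sub, sub_smul, one_smul]
      abel
    rw [e]
    exact h
  have hder : ∀ τ ∈ Icc (0 : ℝ) 1,
      HasDerivAt (fun τ : ℝ => A (κ + τ • (w - κ)) - τ * (c * (w 2 - w0 2))) 0 τ := by
    intro τ hτ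
    have h1 : HasFDerivAt A (fderiv ℝ A (κ + τ • (w - κ))) (κ + τ • (w - κ)) :=
      (((hA _ (hmem τ hτ)).contDiffAt (Metric.isOpen_ball.mem_nhds (hmem τ hτ))).differentiableAt
        (by simp)).hasFDerivAt
    have h2 : HasDerivAt (fun τ : ℝ => κ + τ • (w - κ)) (w - κ) τ := by
      have h3 := ((hasDerivAt_id τ).smul_const (w - κ)).const_add κ
      simpa using h3
    have h4 := h1.comp_hasDerivAt τ h2
    have h5 : fderiv ℝ A (κ + τ • (w - κ)) (w - κ) = c * (w 2 - w0 2) := by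
      rw [hsub, map_smul, ← hsub, hc _ (hmem τ hτ), smul_eq_mul, mul_comm]
    rw [h5] at h4
    have h6 := h4.sub ((hasDerivAt_id τ).mul_const (c * (w 2 - w0 2)))
    have e : c * (w 2 - w0 2) - 1 * (c * (w 2 - w0 2)) = 0 := by ring
    rw [e] at h6
    exact h6
  have hconst := constant_of_has_deriv_right_zero
    (f := fun τ : ℝ => A (κ + τ • (w - κ)) - τ * (c * (w 2 - w0 2))) (a := 0) (b := 1)
    (fun τ hτ => (hder τ hτ).continuousAt.continuousWithinAt)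
    (fun τ hτ => (hder τ ⟨hτ.1, hτ.2.le⟩).hasDerivWithinAt) 1 ⟨zero_le_one, le_refl _⟩
  simp only [one_smul, zero_smul, add_zero, zero_mul, one_mul, sub_zero,
    add_sub_cancel] at hconst
  linarith

end ShearAux

open ShearAux

theorem exists_typeA_sei (𝒟 : Decomp M G E) {T1 : ℝ} {b : Bil M}
    {q : E → LinearMap.BilinForm ℝ C2} (hb : Core 𝒟 T1 b q) {ε : ℝ} (hε : 0 < ε)
    (g : Bil M) (hg : ∀ p ∈ 𝒟.S, ∀ u v, g p u v = 𝒟.ref p u v +
      ε * (b p (𝒟.F p) u * b p (𝒟.F p) v / b p (𝒟.F p) (𝒟.F p)))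
    {p : M} (hp : p ∈ 𝒟.S) : ∃ Φ W, TypeA g Φ W ∧ p ∈ Φ '' W := by
  obtain ⟨Φ, W, hS, w0, hw0, rfl⟩ := 𝒟.sei p hp
  obtain ⟨r, hr, hrW⟩ := Metric.isOpen_iff.1 hS.isOpen w0 hw0
  have hSB : IsSei 𝒟.S 𝒟.ref 𝒟.F Φ (Metric.ball w0 r) :=
    { isOpen := Metric.isOpen_ball
      smooth := hS.smooth.mono hrW
      inj := fun w hw => hS.inj w (hrW hw)
      maps := fun w hw => hS.maps w (hrW hw)
      ref_eq := fun w hw => hS.ref_eq w (hrW hw)
      fib := fun w hw => hS.fib w (hrW hw) }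
  obtain ⟨A, c, hA, hAd, hAc⟩ := hb.closed Φ (Metric.ball w0 r) (convex_ball w0 r) hSB
  set B := Metric.ball w0 r with hB
  have hw0B : w0 ∈ B := Metric.mem_ball_self hr
  have hBo : IsOpen B := Metric.isOpen_ball
  have hc : 0 < c := by
    rw [← hAc w0 hw0B]
    have h1 := hb.Fpos _ (hSB.maps w0 hw0B)
    rcases hSB.fib w0 hw0B with h | h
    · rw [h]
      exact h1
    · rw [h, map_neg, map_neg, LinearMap.neg_apply, neg_neg]
      exact h1
  have hc2 : ∀ w ∈ B, fderiv ℝ A w (Pi.single 2 1) = c := by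
    intro w hw
    rw [← hAd w hw, hAc w hw]
  have hline : ∀ w ∈ B, A w = A (kap (w0 2) w) + c * (w 2 - w0 2) :=
    fun w hw => line hr hA hc2 hw
  set σ : C3 → C3 := sh A c (w0 2) with hσ
  set U : Set C3 := kap (w0 2) ⁻¹' B with hU
  have hUo : IsOpen U := hBo.preimage (contDiff_kap _).continuous
  have hσs : ContDiffOn ℝ ∞ σ U := by
    rw [contDiffOn_pi]
    intro i
    fin_cases i
    · exact (contDiff_apply ℝ ℝ (0 : Fin 3)).contDiffOn
    · exact (contDiff_apply ℝ ℝ (1 : Fin 3)).contDiffOn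
    · change ContDiffOn ℝ ∞ (fun w : C3 => (w 2 - (A (kap (w0 2) w) - c * w0 2)) / c) U
      refine ContDiffOn.div_const (ContDiffOn.sub (contDiff_apply ℝ ℝ (2 : Fin 3)).contDiffOn
        (ContDiffOn.sub ?_ contDiffOn_const)) c
      exact hA.comp (contDiff_kap (w0 2)).contDiffOn (fun w hw => hw)
  set W' : Set C3 := U ∩ σ ⁻¹' B with hW'
  have hW'o : IsOpen W' := hσs.continuousOn.isOpen_inter_preimage hUo hBo
  have hkk : ∀ w, kap (w0 2) (σ w) = kap (w0 2) w := by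
    intro w
    funext i
    fin_cases i <;> rfl
  have hAσ : ∀ w ∈ W', A (σ w) = w 2 := by
    intro w hw
    have h1 := hline (σ w) hw.2
    rw [h1, hkk]
    change A (kap (w0 2) w) + c * ((w 2 - (A (kap (w0 2) w) - c * w0 2)) / c - w0 2) = w 2
    field_simp
    ring
  have hσd : ∀ w ∈ W', DifferentiableAt ℝ σ w := fun w hw =>
    ((hσs w hw.1).contDiffAt (hUo.mem_nhds hw.1)).differentiableAt (by simp)
  have hσi : ∀ w ∈ W', ∀ i, ∀ u, fderiv ℝ σ w u i = fderiv ℝ (fun z => σ z i) w u := by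
    intro w hw i u
    have h1 := (hasFDerivAt_pi'.1 (hσd w hw).hasFDerivAt) i
    rw [h1.fderiv]
    rfl
  have hσ0 : ∀ w ∈ W', ∀ u, fderiv ℝ σ w u 0 = u 0 := by
    intro w hw u
    rw [hσi w hw 0 u]
    change fderiv ℝ (fun z : C3 => z 0) w u = u 0
    have h1 : HasFDerivAt (fun z : C3 => z 0)
      (ContinuousLinearMap.proj (R := ℝ) (φ := fun _ : Fin 3 => ℝ) 0) w :=
      (ContinuousLinearMap.proj (R := ℝ) (φ := fun _ : Fin 3 => ℝ) 0).hasFDerivAt
    rw [h1.fderiv]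
    rfl
  have hσ1 : ∀ w ∈ W', ∀ u, fderiv ℝ σ w u 1 = u 1 := by
    intro w hw u
    rw [hσi w hw 1 u]
    change fderiv ℝ (fun z : C3 => z 1) w u = u 1
    have h1 : HasFDerivAt (fun z : C3 => z 1)
      (ContinuousLinearMap.proj (R := ℝ) (φ := fun _ : Fin 3 => ℝ) 1) w :=
      (ContinuousLinearMap.proj (R := ℝ) (φ := fun _ : Fin 3 => ℝ) 1).hasFDerivAt
    rw [h1.fderiv]
    rfl
  have hσ2 : ∀ w ∈ W', ∀ u, fderiv ℝ A (σ w) (fderiv ℝ σ w u) = u 2 := by
    intro w hw u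
    have hAdiff : DifferentiableAt ℝ A (σ w) :=
      ((hA _ hw.2).contDiffAt (hBo.mem_nhds hw.2)).differentiableAt (by simp)
    have h1 : HasFDerivAt (fun z => A (σ z)) ((fderiv ℝ A (σ w)).comp (fderiv ℝ σ w)) w :=
      hAdiff.hasFDerivAt.comp w (hσd w hw).hasFDerivAt
    have h2 : HasFDerivAt (fun z : C3 => z 2)
      (ContinuousLinearMap.proj (R := ℝ) (φ := fun _ : Fin 3 => ℝ) 2) w :=
      (ContinuousLinearMap.proj (R := ℝ) (φ := fun _ : Fin 3 => ℝ) 2).hasFDerivAt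
    have h3 : (fun z => A (σ z)) =ᶠ[nhds w] (fun z : C3 => z 2) := by
      filter_upwards [hW'o.mem_nhds hw] with z hz
      exact hAσ z hz
    have h4 := (h3.hasFDerivAt_iff.1 h1).unique h2
    have h5 := congrArg (fun L : C3 →L[ℝ] ℝ => L u) h4
    exact h5
  have hinj : ∀ w ∈ W', Function.Injective (fderiv ℝ σ w) := by
    intro w hw
    rw [injective_iff_map_eq_zero]
    intro u hu
    funext i
    fin_cases i
    · change u 0 = 0
      rw [← hσ0 w hw u, hu]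
      rfl
    · change u 1 = 0
      rw [← hσ1 w hw u, hu]
      rfl
    · change u 2 = 0
      rw [← hσ2 w hw u, hu, map_zero]
  have hpar : IsParam (fun z => Φ (σ z)) W' :=
    hSB.toIsParam.comp hW'o (hσs.mono inter_subset_left) (fun w hw => hw.2) hinj
  refine ⟨fun z => Φ (σ z), W', ⟨hpar, fun t => Real.exp (2 * t), fun _ => ε / c,
    Prof.exp, Prof.const (div_pos hε hc), ?_⟩, ?_⟩
  · intro w hw u v
    have hq := hSB.maps (σ w) hw.2
    rw [hSB.toIsParam.D_comp (hσd w hw) hw.2, hSB.toIsParam.D_comp (hσd w hw) hw.2, hg _ hq,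
      hSB.ref_eq _ hw.2, hσ0 w hw, hσ0 w hw, hσ1 w hw, hσ1 w hw]
    have hkey : ∀ X Y : E3, b (Φ (σ w)) (𝒟.F (Φ (σ w))) X * b (Φ (σ w)) (𝒟.F (Φ (σ w))) Y /
        b (Φ (σ w)) (𝒟.F (Φ (σ w))) (𝒟.F (Φ (σ w))) =
        b (Φ (σ w)) (D Φ (σ w) (Pi.single 2 1)) X * b (Φ (σ w)) (D Φ (σ w) (Pi.single 2 1)) Y /
        b (Φ (σ w)) (D Φ (σ w) (Pi.single 2 1)) (D Φ (σ w) (Pi.single 2 1)) := by
      intro X Y
      rcases hSB.fib (σ w) hw.2 with h | h <;> rw [h]
      simp only [map_neg, LinearMap.neg_apply, neg_neg, neg_mul_neg]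
    rw [hkey, hAd _ hw.2, hAd _ hw.2, hAc _ hw.2, hσ2 w hw, hσ2 w hw]
    change u 0 * v 0 + Real.exp (2 * w 0) * (u 1 * v 1) + ε * (u 2 * v 2 / c) =
      u 0 * v 0 + Real.exp (2 * w 0) * (u 1 * v 1) + ε / c * (u 2 * v 2)
    ring
  · have hk : kap (w0 2) ![w0 0, w0 1, A w0] = w0 := by
      funext i
      fin_cases i <;> rfl
    have hs : σ ![w0 0, w0 1, A w0] = w0 := by
      funext i
      fin_cases i
      · rfl
      · rfl
      · change (A w0 - (A (kap (w0 2) ![w0 0, w0 1, A w0]) - c * w0 2)) / c = w0 2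
        rw [hk]
        field_simp
        ring
    refine ⟨![w0 0, w0 1, A w0], ⟨?_, ?_⟩, ?_⟩
    · change kap (w0 2) ![w0 0, w0 1, A w0] ∈ B
      rw [hk]
      exact hw0B
    · change σ ![w0 0, w0 1, A w0] ∈ B
      rw [hs]
      exact hw0B
    · change Φ (σ ![w0 0, w0 1, A w0]) = Φ w0
      rw [hs]

end NPCG
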