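import Pool.Agent.Lib.NPCG.Prof2
import Pool.Agent.Lib.NPCG.Shear
import Pool.Agent.Lib.NPCG.AllP

/-! # NPCG.Main: invariant metrics of nonpositive curvature -/

open Set
open scoped Manifold ContDiff

namespace NPCG

variable {M : Type*} [TopologicalSpace M] [ChartedSpace E3 M]
variable {G : Type*} [Group G] [MulAction G M] {E : Type*} [MulAction G E]

/-- `tan` as a linear map. -/
def tanL : C3 →ₗ[ℝ] C2 where
  toFun := tan
  map_add' u v := by funext i; fin_cases i <;> rfl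
  map_smul' c u := by funext i; fin_cases i <;> rfl

/-- The linear map `z ↦ (z_0, Ω⁻¹ z')`. -/
noncomputable def lin (Ω : C2 ≃ₗ[ℝ] C2) : C3 →L[ℝ] C3 :=
  LinearMap.toContinuousLinearMap (lmap 1 Ω.symm.toLinearMap)

theorem lin_apply (Ω : C2 ≃ₗ[ℝ] C2) (z : C3) : lin Ω z = pt (z 0) (Ω.symm (tan z)) := by
  simp [lin]

theorem lin_injective (Ω : C2 ≃ₗ[ℝ] C2) : Function.Injective (lin Ω) := by
  intro z z' h
  rw [lin_apply, lin_apply] at h
  have h0 : z 0 = z' 0 := congrFun h 0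
  have h1 : tan z = tan z' := by
    have := congrArg tan h
    rw [tan_pt, tan_pt] at this
    exact Ω.symm.injective this
  rw [← pt_eta z, ← pt_eta z', h0, h1]

/-- On the collars the metric is of type A. -/
theorem typeA_collar (𝒟 : Decomp M G E) {a β : ℝ → ℝ} {ε : ℝ} {T1 : ℝ} (hT : T1 ≤ 11)
    (hT' : 10 < T1) {b : Bil M} {q : E → LinearMap.BilinForm ℝ C2} (h : Core 𝒟 T1 b q)
    (ha : ∀ t ≤ 1, a t = 0 ∧ β t = 1) (ha' : ∀ t, 10 ≤ t → a t = Real.exp (2 * t) ∧ β t = 0)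
    (e : E) {Ω : C2 ≃ₗ[ℝ] C2} {ψ1 ψ2 : ℝ → ℝ} (h1 : Prof ψ1) (h2 : Prof ψ2)
    (hP : ∀ t u v, 𝒟.P a β ε q e t u v = ψ1 t * (Ω u 0 * Ω v 0) + ψ2 t * (Ω u 1 * Ω v 1)) :
    TypeA (𝒟.met a β ε b q) (fun z => 𝒟.J e (lin Ω z)) {w | -1 < w 0 ∧ w 0 < T1} := by
  have hopen : IsOpen {w : C3 | -1 < w 0 ∧ w 0 < T1} :=
    (isOpen_lt continuous_const (continuous_apply 0)).inter
      (isOpen_lt (continuous_apply 0) continuous_const)
  have hmaps : ∀ w ∈ {w : C3 | -1 < w 0 ∧ w 0 < T1}, lin Ω w ∈ {w : C3 | -1 < w 0 ∧ w 0 < 11} := by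
    intro w hw; rw [lin_apply]; exact ⟨hw.1, lt_of_lt_of_le hw.2 hT⟩
  have hpar : IsParam (fun z => 𝒟.J e (lin Ω z)) {w | -1 < w 0 ∧ w 0 < T1} := by
    refine (𝒟.param e).comp hopen ((lin Ω).contDiff.contDiffOn) hmaps ?_
    intro w _
    rw [(lin Ω).fderiv]
    exact lin_injective Ω
  refine ⟨hpar, ψ1, ψ2, h1, h2, ?_⟩
  intro w hw u v
  have hD : ∀ u, D (fun z => 𝒟.J e (lin Ω z)) w u =
      D (𝒟.J e) (pt (w 0) (Ω.symm (tan w))) (lin Ω u) := by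
    intro u
    rw [(𝒟.param e).D_comp (lin Ω).differentiableAt (hmaps w hw), (lin Ω).fderiv, lin_apply Ω w]
  rw [hD, hD]
  change 𝒟.met a β ε b q (𝒟.J e (lin Ω w)) _ _ = _
  rw [lin_apply Ω w, met_collar 𝒟 ε hT hT' h ha ha' e (w 0) _ hw.1 hw.2, hP, lin_apply, lin_apply]
  simp only [pt_zero, tan_pt, LinearEquiv.apply_symm_apply]
  have e1 : ∀ u : C3, tan u 0 = u 1 := fun u => rfl
  have e2 : ∀ u : C3, tan u 1 = u 2 := fun u => rfl
  rw [e1, e1, e2, e2]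
  ring

theorem typeA_H (𝒟 : Decomp M G E) (g : Bil M) (hg : ∀ p ∈ 𝒟.H, ∀ u v, g p u v = 𝒟.ref p u v)
    {p : M} (hp : p ∈ 𝒟.H) : ∃ Φ W, TypeA g Φ W ∧ p ∈ Φ '' W := by
  obtain ⟨Φ, W, hΦ, hpW⟩ := 𝒟.hyp p hp
  refine ⟨Φ, W, ⟨hΦ.toIsParam, fun t => Real.exp (2 * t), fun t => Real.exp (2 * t), Prof.exp,
    Prof.exp, ?_⟩, hpW⟩
  intro w hw u v
  rw [hg _ (hΦ.maps w hw), hΦ.ref_eq w hw]
  ring

theorem exists_common {E : Type*} [Finite E] {P : E → ℝ → Prop}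
    (h : ∀ e, ∃ δ > 0, ∀ ε, 0 < ε → ε ≤ δ → P e ε) : ∃ ε > 0, ∀ e, P e ε := by
  choose δ hδ hP using h
  cases nonempty_fintype E
  obtain ⟨ε, hε, hle⟩ : ∃ ε > 0, ∀ e, ε ≤ δ e := by
    by_cases hE : Nonempty E
    · obtain ⟨e0, he0⟩ := Finite.exists_min δ
      exact ⟨δ e0, hδ e0, he0⟩
    · exact ⟨1, one_pos, fun e => absurd ⟨e⟩ hE⟩
  exact ⟨ε, hε, fun e => hP e ε hε (hle e)⟩

/-- **Main theorem**, for solutions in standard form. -/
theorem exists_invariant_npc_core [IsManifold (𝓡 3) ∞ M] [Finite G] [Finite E]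
    (hG : ∀ γ : G, ContMDiff (𝓡 3) (𝓡 3) ∞ (fun p : M => γ • p))
    (𝒟 : Decomp M G E) {T1 : ℝ} (hT : T1 ≤ 11) (hT' : 10 < T1) {b : Bil M}
    {q : E → LinearMap.BilinForm ℝ C2} (hb : Core 𝒟 T1 b q) :
    ∃ (g : Bil M) (q' : E → LinearMap.BilinForm ℝ C2), IsNPC g ∧ Inv G g ∧ Compatible 𝒟 g q' ∧
      (∀ p ∈ 𝒟.H, g p = 𝒟.ref p) ∧
      (∀ p ∈ 𝒟.S, ∀ u v, g p u v = 𝒟.ref p u v +
        g p (𝒟.F p) u * g p (𝒟.F p) v / g p (𝒟.F p) (𝒟.F p)) ∧
      ∀ e t x, -1 < t → t < 1 → ∀ u v,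
        g (𝒟.J e (pt t x)) (D (𝒟.J e) (pt t x) u) (D (𝒟.J e) (pt t x) v) =
          u 0 * v 0 + q' e (tan u) (tan v) := by
  cases nonempty_fintype G
  -- the average
  have hb' := avg_core hG 𝒟 hT hb
  have hinv : Inv G (avg G b) := avg_inv hG b
  have hqinv := qavg_inv hG 𝒟 q
  generalize avg G b = b' at hb' hinv
  generalize qavg 𝒟 q = q' at hb' hqinv
  obtain ⟨a, β, m₀, hm₀, ha, ha', hab⟩ := exists_cutoff
  obtain ⟨ε, hε, hprof⟩ := exists_common (P := fun e ε => ∃ (Ω : C2 ≃ₗ[ℝ] C2) (ψ1 ψ2 : ℝ → ℝ),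
    Prof ψ1 ∧ Prof ψ2 ∧ ∀ t u v, 𝒟.P a β ε q' e t u v =
      ψ1 t * (Ω u 0 * Ω v 0) + ψ2 t * (Ω u 1 * Ω v 1))
    (fun e => exists_profile 𝒟 hb'.qsymm hb'.qpos hm₀ hab e)
  set g := 𝒟.met a β ε b' q' with hg
  have hnpc : IsNPC g := by
    apply isNPC_all_of_typeA
    intro p
    rcases 𝒟.cover p with (hp | hp) | ⟨e, t, x, h1, h2, rfl⟩
    · exact typeA_H 𝒟 g (fun p hp u v => met_of_H _ _ _ _ _ _ hp u v) hp
    · exact exists_typeA_sei 𝒟 hb' hε g (fun p hp u v => met_of_S _ _ _ _ _ _ hp u v) hp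
    · obtain ⟨Ω, ψ1, ψ2, k1, k2, hP⟩ := hprof e
      refine ⟨_, _, typeA_collar 𝒟 hT hT' hb' ha ha' e k1 k2 hP, pt t (Ω x),
        ⟨h1, by simp; linarith⟩, ?_⟩
      simp only [lin_apply, pt_zero, tan_pt, LinearEquiv.symm_apply_apply]
  have keyS : ∀ p ∈ 𝒟.S, ∀ u, g p (𝒟.F p) u = ε * b' p (𝒟.F p) u := by
    intro p hp u
    rw [hg, met_of_S _ _ _ _ _ _ hp, ref_S_F 𝒟 hp, mul_div_cancel_left₀ _ (hb'.Fpos p hp).ne',
      zero_add]
  have key : ∀ {Φ : C3 → M} {W : Set C3}, IsSei 𝒟.S 𝒟.ref 𝒟.F Φ W → ∀ w ∈ W, ∀ u : E3,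
      g (Φ w) (D Φ w (Pi.single 2 1)) u = ε * b' (Φ w) (D Φ w (Pi.single 2 1)) u := by
    intro Φ W hΦ w hw u
    rcases hΦ.fib w hw with h | h
    · rw [h, keyS _ (hΦ.maps w hw)]
    · rw [h, map_neg, map_neg, LinearMap.neg_apply, LinearMap.neg_apply,
        keyS _ (hΦ.maps w hw)]
      ring
  refine ⟨g, fun e => ε • q' e, hnpc, met_inv hG 𝒟 ε hT hT' hb' hinv hqinv ha ha', ?_, ?_, ?_, ?_⟩
  · refine ⟨?_, ?_, ?_, fun p _ => hnpc.symm p, fun p _ => hnpc.pos p, ?_, ?_⟩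
    · intro e u v
      change ε * q' e u v = ε * q' e v u
      rw [hb'.qsymm]
    · intro e u hu
      exact mul_pos hε (hb'.qpos e u hu)
    · intro e u v
      change ε * q' _ _ _ = ε * q' _ _ _
      rw [hb'.glue]
    · -- closed
      intro Φ W hW hΦ
      obtain ⟨A, c, hA, hA1, hc⟩ := hb'.closed Φ W hW hΦ
      refine ⟨fun w => ε * A w, ε * c, contDiffOn_const.mul hA, ?_, ?_⟩
      · intro w hw u
        have hd : DifferentiableAt ℝ A w :=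
          ((hA w hw).contDiffAt (hΦ.isOpen.mem_nhds hw)).differentiableAt (by simp)
        rw [key hΦ w hw, hA1 w hw, fderiv_const_mul hd]
        rfl
      · intro w hw
        rw [key hΦ w hw, hc w hw]
    · -- periods
      intro e he
      refine ⟨T1 - 10, by linarith, by linarith, fun w => ε * q' e (𝒟.f e) (tan w), ?_, ?_, ?_⟩
      · have h1 : (fun w : C3 => ε * q' e (𝒟.f e) (tan w)) =
            fun w => LinearMap.toContinuousLinearMap (ε • (q' e (𝒟.f e)).comp tanL) w := rfl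
        rw [h1]
        exact (ContinuousLinearMap.contDiff _).contDiffOn
      · intro t x h1 h2 u
        have hS := he t x h1 (by linarith)
        have h3 : (fun w : C3 => ε * q' e (𝒟.f e) (tan w)) =
            fun w => LinearMap.toContinuousLinearMap (ε • (q' e (𝒟.f e)).comp tanL) w := rfl
        rw [h3, ContinuousLinearMap.fderiv]
        have hk : g (𝒟.J e (pt t x)) (D (𝒟.J e) (pt t x) (hor (𝒟.f e))) (D (𝒟.J e) (pt t x) u) =
            ε * b' (𝒟.J e (pt t x)) (D (𝒟.J e) (pt t x) (hor (𝒟.f e))) (D (𝒟.J e) (pt t x) u) := by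
          rcases 𝒟.fEnd e t x h1 (by linarith) hS with h | h
          · rw [h, keyS _ hS]
          · rw [h, map_neg, map_neg, LinearMap.neg_apply, LinearMap.neg_apply, keyS _ hS]
            ring
        rw [hk, hb'.ends e t x h1 (by linarith) hS]
        rfl
      · intro t x n h1 h2
        change ε * q' e (𝒟.f e) (tan (pt t (x + int n))) - ε * q' e (𝒟.f e) (tan (pt t x)) =
          ε * q' e (𝒟.f e) (int n)
        rw [tan_pt, tan_pt, map_add]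
        ring
  · intro p hp
    ext u v
    exact met_of_H _ _ _ _ _ _ hp u v
  · intro p hp u v
    rw [keyS p hp, keyS p hp, keyS p hp, hg, met_of_S _ _ _ _ _ _ hp]
    have h1 := (hb'.Fpos p hp).ne'
    have h2 := hε.ne'
    field_simp
  · intro e t x h1 h2 u v
    rw [hg, met_collar 𝒟 ε hT hT' hb' ha ha' e t x h1 (by linarith)]
    obtain ⟨k1, k2⟩ := ha t h2.le
    rw [P_of_le k1 k2]
    rfl

end NPCG
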