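import Pool.Agent.Lib.NPCG.Chain

/-! # NPCG: profiles and local models -/

open Set
open scoped Manifold ContDiff

namespace NPCG

/-- Admissible profile: `√ψ` is smooth, convex and nondecreasing. -/
structure Prof (ψ : ℝ → ℝ) : Prop where
  smooth : ContDiff ℝ ∞ ψ
  pos : ∀ t, 0 < ψ t
  mono : ∀ t, 0 ≤ deriv ψ t
  conv : ∀ t, (deriv ψ t) ^ 2 ≤ 2 * ψ t * deriv (deriv ψ) t

/-- The metric `dt² + ψ₁(t)dx² + ψ₂(t)dy²`. -/
def dg (ψ1 ψ2 : ℝ → ℝ) : Met := fun w i j => if i = j then ![1, ψ1 (w 0), ψ2 (w 0)] i else 0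

variable {M : Type*} [TopologicalSpace M] [ChartedSpace E3 M]

/-- In the parametrisation `Φ` the metric `g` is `dt² + ψ₁(t)dx² + ψ₂(t)dy²`. -/
structure TypeA (g : Bil M) (Φ : C3 → M) (W : Set C3) : Prop extends IsParam Φ W where
  form : ∃ ψ1 ψ2 : ℝ → ℝ, Prof ψ1 ∧ Prof ψ2 ∧ ∀ w ∈ W, ∀ u v,
    g (Φ w) (D Φ w u) (D Φ w v) = u 0 * v 0 + ψ1 (w 0) * (u 1 * v 1) + ψ2 (w 0) * (u 2 * v 2)

end NPCG
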