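import Pool.Agent.Lib.NPCG.InvM
import Pool.Agent.Lib.NPCG.Diag
import Pool.Agent.Lib.NPCG.Cut

/-! # NPCG.Prof2: the profile of the metric on the collars -/

open Set
open scoped Manifold ContDiff

namespace NPCG

variable {M : Type*} [TopologicalSpace M] [ChartedSpace E3 M]
variable {G : Type*} [Group G] [MulAction G M] {E : Type*} [MulAction G E]

/-! ### The form `q0` -/

theorem q0_eq (𝒟 : Decomp M G E) (e : E) (u v : C2) :
    𝒟.ref (𝒟.J e (pt (21/2) 0)) (D (𝒟.J e) (pt (21/2) 0) (hor u))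
      (D (𝒟.J e) (pt (21/2) 0) (hor v)) = Real.exp (2 * (21/2)) * 𝒟.q0 e u v := by
  have := 𝒟.refEnd e (21/2) 0 (by norm_num) (by norm_num) (hor u) (hor v)
  simpa using this

theorem D_hor_ne (𝒟 : Decomp M G E) (e : E) (u : C2) (hu : u ≠ 0) :
    D (𝒟.J e) (pt (21/2) 0) (hor u) ≠ 0 := by
  intro h0
  have hz : D (𝒟.J e) (pt (21/2) 0) (hor u) = D (𝒟.J e) (pt (21/2) 0) 0 := by rw [h0, map_zero]
  have := (𝒟.param e).inj _ (mem_dom (by norm_num) (by norm_num)) hz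
  apply hu
  rw [← tan_hor u, this]
  funext i; fin_cases i <;> rfl

theorem ref_H_symm (𝒟 : Decomp M G E) {p : M} (hp : p ∈ 𝒟.H) (u v : E3) :
    𝒟.ref p u v = 𝒟.ref p v u := by
  obtain ⟨Φ, W, hΦ, w, hw, rfl⟩ := 𝒟.hyp p hp
  obtain ⟨u, rfl⟩ := hΦ.toIsParam.surj hw u
  obtain ⟨v, rfl⟩ := hΦ.toIsParam.surj hw v
  rw [hΦ.ref_eq w hw, hΦ.ref_eq w hw]; ring

theorem ref_H_pos (𝒟 : Decomp M G E) {p : M} (hp : p ∈ 𝒟.H) (u : E3) (hu : u ≠ 0) :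
    0 < 𝒟.ref p u u := by
  obtain ⟨Φ, W, hΦ, w, hw, rfl⟩ := 𝒟.hyp p hp
  obtain ⟨u, rfl⟩ := hΦ.toIsParam.surj hw u
  rw [hΦ.ref_eq w hw]
  have he := Real.exp_pos (2 * w 0)
  by_contra hle
  have h0 : 0 ≤ u 0 * u 0 := mul_self_nonneg _
  have h1 : 0 ≤ u 1 * u 1 := mul_self_nonneg _
  have h2 : 0 ≤ u 2 * u 2 := mul_self_nonneg _
  have h3 : 0 ≤ Real.exp (2 * w 0) * (u 1 * u 1 + u 2 * u 2) := by positivity
  have h4 : u 0 * u 0 = 0 := by linarith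
  have h5 : Real.exp (2 * w 0) * (u 1 * u 1 + u 2 * u 2) = 0 := by linarith
  have h6 : u 1 * u 1 + u 2 * u 2 = 0 := by
    rcases mul_eq_zero.1 h5 with h | h
    · exact absurd h he.ne'
    · exact h
  have h7 : u 1 * u 1 = 0 := by linarith
  have h8 : u 2 * u 2 = 0 := by linarith
  apply hu
  have : u = 0 := by
    funext i; fin_cases i
    · exact mul_self_eq_zero.1 h4
    · exact mul_self_eq_zero.1 h7
    · exact mul_self_eq_zero.1 h8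
  rw [this, map_zero]

theorem ref_S_symm (𝒟 : Decomp M G E) {p : M} (hp : p ∈ 𝒟.S) (u v : E3) :
    𝒟.ref p u v = 𝒟.ref p v u := by
  obtain ⟨Φ, W, hΦ, w, hw, rfl⟩ := 𝒟.sei p hp
  obtain ⟨u, rfl⟩ := hΦ.toIsParam.surj hw u
  obtain ⟨v, rfl⟩ := hΦ.toIsParam.surj hw v
  rw [hΦ.ref_eq w hw, hΦ.ref_eq w hw]; ring

theorem ref_S_F (𝒟 : Decomp M G E) {p : M} (hp : p ∈ 𝒟.S) (u : E3) :
    𝒟.ref p (𝒟.F p) u = 0 := by
  obtain ⟨Φ, W, hΦ, w, hw, rfl⟩ := 𝒟.sei p hp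
  obtain ⟨u, rfl⟩ := hΦ.toIsParam.surj hw u
  have key : 𝒟.ref (Φ w) (D Φ w (Pi.single 2 1)) (D Φ w u) = 0 := by
    rw [hΦ.ref_eq w hw]; simp
  rcases hΦ.fib w hw with h | h
  · rw [← h, key]
  · have h' : 𝒟.F (Φ w) = -D Φ w (Pi.single 2 1) := by rw [h, neg_neg]
    rw [h']
    simp only [map_neg, LinearMap.neg_apply, key, neg_zero]

theorem F_ne (𝒟 : Decomp M G E) {p : M} (hp : p ∈ 𝒟.S) : 𝒟.F p ≠ 0 := by
  obtain ⟨Φ, W, hΦ, w, hw, rfl⟩ := 𝒟.sei p hp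
  intro h0
  have h1 : D Φ w (Pi.single 2 1) = D Φ w 0 := by
    rw [map_zero]
    rcases hΦ.fib w hw with h | h
    · rw [h, h0]
    · rw [h, h0, neg_zero]
  have h2 := hΦ.inj w hw h1
  have h3 := congrFun h2 2
  simp at h3

theorem ref_S_pos (𝒟 : Decomp M G E) {p : M} (hp : p ∈ 𝒟.S) (u : E3)
    (hu : ∀ r : ℝ, u ≠ r • 𝒟.F p) : 0 < 𝒟.ref p u u := by
  obtain ⟨Φ, W, hΦ, w, hw, rfl⟩ := 𝒟.sei p hp
  obtain ⟨u, rfl⟩ := hΦ.toIsParam.surj hw u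
  rw [hΦ.ref_eq w hw]
  have he := Real.exp_pos (2 * w 0)
  by_contra hle
  have h0 : 0 ≤ u 0 * u 0 := mul_self_nonneg _
  have h1 : 0 ≤ u 1 * u 1 := mul_self_nonneg _
  have h3 : 0 ≤ Real.exp (2 * w 0) * (u 1 * u 1) := by positivity
  have h4 : u 0 * u 0 = 0 := by linarith
  have h5 : Real.exp (2 * w 0) * (u 1 * u 1) = 0 := by linarith
  have h6 : u 1 * u 1 = 0 := by
    rcases mul_eq_zero.1 h5 with h | h
    · exact absurd h he.ne'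
    · exact h
  have h7 : u = u 2 • Pi.single 2 1 := by
    funext i; fin_cases i
    · simpa using mul_self_eq_zero.1 h4
    · simpa using mul_self_eq_zero.1 h6
    · simp
  rcases hΦ.fib w hw with h | h
  · apply hu (u 2)
    rw [← h, ← map_smul, ← h7]
  · apply hu (-u 2)
    have h' : 𝒟.F (Φ w) = -D Φ w (Pi.single 2 1) := by rw [h, neg_neg]
    rw [h', smul_neg, neg_smul, neg_neg, ← map_smul, ← h7]

theorem q0_symm (𝒟 : Decomp M G E) (e : E) (u v : C2) : 𝒟.q0 e u v = 𝒟.q0 e v u := by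
  have h1 := q0_eq 𝒟 e u v
  have h2 := q0_eq 𝒟 e v u
  have he := Real.exp_pos (2 * (21/2) : ℝ)
  have : 𝒟.ref (𝒟.J e (pt (21/2) 0)) (D (𝒟.J e) (pt (21/2) 0) (hor u))
      (D (𝒟.J e) (pt (21/2) 0) (hor v)) = 𝒟.ref (𝒟.J e (pt (21/2) 0))
      (D (𝒟.J e) (pt (21/2) 0) (hor v)) (D (𝒟.J e) (pt (21/2) 0) (hor u)) := by
    rcases 𝒟.ends e with h | h
    · exact ref_H_symm 𝒟 (h _ _ (by norm_num) (by norm_num)) _ _
    · exact ref_S_symm 𝒟 (h _ _ (by norm_num) (by norm_num)) _ _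
  rw [this, h2] at h1
  exact (mul_left_cancel₀ he.ne' h1).symm

theorem q0_pos_H (𝒟 : Decomp M G E) (e : E) (he : ¬ 𝒟.IsSeiEnd e) (u : C2) (hu : u ≠ 0) :
    0 < 𝒟.q0 e u u := by
  have h1 := q0_eq 𝒟 e u u
  have hm := 𝒟.mem_H_of_not he (t := 21/2) (x := 0) (by norm_num) (by norm_num)
  have h2 := ref_H_pos 𝒟 hm _ (D_hor_ne 𝒟 e u hu)
  rw [h1] at h2
  exact (pos_iff_pos_of_mul_pos h2).1 (Real.exp_pos _)

theorem f_ne (𝒟 : Decomp M G E) (e : E) (he : 𝒟.IsSeiEnd e) : 𝒟.f e ≠ 0 := by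
  intro h0
  have hm := he (21/2) 0 (by norm_num) (by norm_num)
  have h1 := 𝒟.fEnd e (21/2) 0 (by norm_num) (by norm_num) hm
  have hz : hor (0 : C2) = 0 := by funext i; fin_cases i <;> rfl
  rw [h0, hz, map_zero] at h1
  apply F_ne 𝒟 hm
  rcases h1 with h | h
  · exact h.symm
  · exact neg_eq_zero.1 h.symm

theorem q0_f (𝒟 : Decomp M G E) (e : E) (he : 𝒟.IsSeiEnd e) (u : C2) :
    𝒟.q0 e (𝒟.f e) u = 0 := by
  have hm := he (21/2) 0 (by norm_num) (by norm_num)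
  have h1 := 𝒟.fEnd e (21/2) 0 (by norm_num) (by norm_num) hm
  have h2 := q0_eq 𝒟 e (𝒟.f e) u
  have h3 : 𝒟.ref (𝒟.J e (pt (21/2) 0)) (D (𝒟.J e) (pt (21/2) 0) (hor (𝒟.f e)))
      (D (𝒟.J e) (pt (21/2) 0) (hor u)) = 0 := by
    rcases h1 with h | h
    · rw [h, ref_S_F 𝒟 hm]
    · rw [h, map_neg, LinearMap.neg_apply, ref_S_F 𝒟 hm, neg_zero]
  rw [h3] at h2
  rcases mul_eq_zero.1 h2.symm with h | h
  · exact absurd h (Real.exp_pos _).ne'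
  · exact h

theorem q0_pos_S (𝒟 : Decomp M G E) (e : E) (he : 𝒟.IsSeiEnd e) (u : C2)
    (hu : ∀ r : ℝ, u ≠ r • 𝒟.f e) : 0 < 𝒟.q0 e u u := by
  have h1 := q0_eq 𝒟 e u u
  have hm := he (21/2) 0 (by norm_num) (by norm_num)
  have h3 := 𝒟.fEnd e (21/2) 0 (by norm_num) (by norm_num) hm
  have hlin : ∀ (r : ℝ) (x : C2), hor (r • x) = r • hor x := by
    intro r x; funext i; fin_cases i <;> simp [hor]
  have hinj : ∀ r : ℝ, D (𝒟.J e) (pt (21/2) 0) (hor u) ≠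
      r • D (𝒟.J e) (pt (21/2) 0) (hor (𝒟.f e)) := by
    intro r hr
    rw [← map_smul, ← hlin] at hr
    have := (𝒟.param e).inj _ (mem_dom (by norm_num) (by norm_num)) hr
    exact hu r (hor_injective this)
  have h2 := ref_S_pos 𝒟 hm (D (𝒟.J e) (pt (21/2) 0) (hor u)) (by
    intro r hr
    rcases h3 with h | h
    · rw [← h] at hr
      exact hinj r hr
    · have h' : 𝒟.F (𝒟.J e (pt (21/2) 0)) = -D (𝒟.J e) (pt (21/2) 0) (hor (𝒟.f e)) := by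
        rw [h, neg_neg]
      rw [h', smul_neg, ← neg_smul] at hr
      exact hinj _ hr)
  rw [h1] at h2
  exact (pos_iff_pos_of_mul_pos h2).1 (Real.exp_pos _)

/-- The metric on the collars has admissible profiles, for small `ε`. -/
theorem exists_profile (𝒟 : Decomp M G E) {q : E → LinearMap.BilinForm ℝ C2}
    (hs : ∀ e u v, q e u v = q e v u) (hp : ∀ e u, u ≠ 0 → 0 < q e u u)
    {a β : ℝ → ℝ} {m₀ : ℝ} (hm₀ : 0 < m₀)
    (hab : ∀ m, 0 < m → m ≤ m₀ → Prof (fun t => a t + m * β t)) (e : E) :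
    ∃ δ > 0, ∀ ε, 0 < ε → ε ≤ δ → ∃ (Ω : C2 ≃ₗ[ℝ] C2) (ψ1 ψ2 : ℝ → ℝ), Prof ψ1 ∧ Prof ψ2 ∧
      ∀ t u v, 𝒟.P a β ε q e t u v = ψ1 t * (Ω u 0 * Ω v 0) + ψ2 t * (Ω u 1 * Ω v 1) := by
  by_cases he : 𝒟.IsSeiEnd e
  · obtain ⟨Ω, ρ, σ, hρ, hσ, k0, k1, k2⟩ := exists_diag_sei (𝒟.q0 e) (q e) (𝒟.f e) (f_ne 𝒟 e he)
      (q0_symm 𝒟 e) (q0_f 𝒟 e he) (q0_pos_S 𝒟 e he) (hs e) (hp e)
    refine ⟨m₀ / ρ, by positivity, fun ε hε hle => ?_⟩
    have hle' : ε * ρ ≤ m₀ := by rwa [le_div_iff₀ hρ] at hle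
    refine ⟨Ω, fun t => a t + (ε * ρ) * β t, fun _ => ε * σ, hab _ (by positivity) hle',
      Prof.const (by positivity), fun t u v => ?_⟩
    have hq : q e u v = ρ * (Ω u 0 * Ω v 0) + σ * (Ω u 1 * Ω v 1) := by
      have h1 := k1 u v
      rw [k2 u v] at h1
      linarith
    simp only [Decomp.P, Decomp.s, if_pos he, LinearMap.add_apply, LinearMap.smul_apply,
      LinearMap.sub_apply, fpart_apply, smul_eq_mul, k0, k2, hq]
    ring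
  · obtain ⟨Ω, ρ1, ρ2, hρ1, hρ2, k0, k1⟩ := exists_diag_hyp (𝒟.q0 e) (q e)
      (q0_symm 𝒟 e) (q0_pos_H 𝒟 e he) (hs e) (hp e)
    refine ⟨min (m₀ / ρ1) (m₀ / ρ2), by positivity, fun ε hε hle => ?_⟩
    have hle1 : ε * ρ1 ≤ m₀ := by
      have := le_trans hle (min_le_left _ _)
      rwa [le_div_iff₀ hρ1] at this
    have hle2 : ε * ρ2 ≤ m₀ := by
      have := le_trans hle (min_le_right _ _)
      rwa [le_div_iff₀ hρ2] at this
    refine ⟨Ω, fun t => a t + (ε * ρ1) * β t, fun t => a t + (ε * ρ2) * β t,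
      hab _ (by positivity) hle1, hab _ (by positivity) hle2, fun t u v => ?_⟩
    simp only [Decomp.P, Decomp.s, if_neg he, LinearMap.add_apply, LinearMap.smul_apply,
      LinearMap.sub_apply, LinearMap.zero_apply, smul_eq_mul, k0, k1]
    ring

end NPCG
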